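import Pool.Agent.Lib_MP_5027f4_mp.Nondeg

/-!
# Strict local minimizers of the action: definitions
-/

open Complex Set Filter Topology MeasureTheory
open scoped Real ComplexConjugate

namespace Pool.Agent.MP_5027f4_min

open Pool.Agent.MP_5027f4_mp

/-- The force function `∑ m_a m_b / |q_a - q_b|` (minus the potential energy). -/
noncomputable def pot (m : Fin 3 → ℝ) (q : Fin 3 → ℂ) : ℝ :=
  m 0 * m 1 / ‖q 0 - q 1‖ + m 1 * m 2 / ‖q 1 - q 2‖ + m 2 * m 0 / ‖q 2 - q 0‖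

/-- `y` is a path of class `H¹` on `[0, τ]` in the center-of-mass frame, with velocity `v` (square
integrable). -/
structure IsPath (m : Fin 3 → ℝ) (τ : ℝ) (y v : ℝ → Fin 3 → ℂ) : Prop where
  int : ∀ a, IntervalIntegrable (fun t => v t a) volume 0 τ
  sq : ∀ a, IntervalIntegrable (fun t => ‖v t a‖ ^ 2) volume 0 τ
  eq : ∀ t ∈ Icc 0 τ, ∀ a, y t a = y 0 a + ∫ s in (0 : ℝ)..t, v s a
  com : ∀ t ∈ Icc 0 τ, ∑ a, m a • y t a = 0

/-- The Lagrangian action of a path on `[0, τ]`. -/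
noncomputable def action (m : Fin 3 → ℝ) (τ : ℝ) (y v : ℝ → Fin 3 → ℂ) : ℝ :=
  ∫ t in (0 : ℝ)..τ, ((∑ a, m a * ‖v t a‖ ^ 2) / 2 + pot m (y t))

/-- `x` is a strict local minimizer, modulo symmetries, of the action among the paths `y` with
`y(τ) = u y(0) ∘ σ`: the paths uniformly close to `x` have at least the action of `x`, and those
with the same action are obtained from `x` by a time shift and a rotation. -/
def StrictMin (m : Fin 3 → ℝ) (τ : ℝ) (u : ℂ) (σ : Equiv.Perm (Fin 3))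
    (x : ℝ → (Fin 3 → ℂ) × (Fin 3 → ℂ)) : Prop :=
  ∃ ρ > 0, ∀ y v, IsPath m τ y v → (∀ a, y τ a = u * y 0 (σ a)) →
    (∀ t ∈ Icc 0 τ, ∀ a, ‖y t a - (x t).1 a‖ ≤ ρ) →
    action m τ (fun t => (x t).1) (fun t => (x t).2) ≤ action m τ y v ∧
    (action m τ y v = action m τ (fun t => (x t).1) (fun t => (x t).2) →
      ∃ α s : ℝ, ∀ t ∈ Icc 0 τ, ∀ a, y t a = exp (α * I) * (x (t + s)).1 a)

/-- `x` is a strict local minimizer of the action among the paths `y` with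
`y(τ) = u y(0) ∘ σ` which are reversible: `y(τ - t) = ω conj(y(t)) ∘ ϖ`. -/
def StrictRevMin (m : Fin 3 → ℝ) (τ : ℝ) (u : ℂ) (σ : Equiv.Perm (Fin 3)) (ω : ℂ)
    (ϖ : Equiv.Perm (Fin 3)) (x : ℝ → (Fin 3 → ℂ) × (Fin 3 → ℂ)) : Prop :=
  ∃ ρ > 0, ∀ y v, IsPath m τ y v → (∀ a, y τ a = u * y 0 (σ a)) →
    (∀ t ∈ Icc 0 τ, ∀ a, y (τ - t) a = ω * conj (y t (ϖ a))) →
    (∀ t ∈ Icc 0 τ, ∀ a, ‖y t a - (x t).1 a‖ ≤ ρ) →
    action m τ (fun t => (x t).1) (fun t => (x t).2) ≤ action m τ y v ∧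
    (action m τ y v = action m τ (fun t => (x t).1) (fun t => (x t).2) →
      ∀ t ∈ Icc 0 τ, y t = (x t).1)

/-! ### auxiliary definitions for the proof -/

/-- real inner product of complex numbers -/
def ip (z w : ℂ) : ℝ := z.re * w.re + z.im * w.im

/-- mass inner product -/
def ipm (m : Fin 3 → ℝ) (p q : Fin 3 → ℂ) : ℝ := ∑ a, m a * ip (p a) (q a)

/-- mutual distances at least `r` -/
def Sep (r : ℝ) (q : Fin 3 → ℂ) : Prop := ∀ a b, a ≠ b → r ≤ ‖q a - q b‖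

/-- smooth test data: `η'= η1`, `η1' = η2` -/
structure Test (η η1 η2 : ℝ → Fin 3 → ℂ) : Prop where
  d1 : ∀ t, HasDerivAt η (η1 t) t
  d2 : ∀ t, HasDerivAt η1 (η2 t) t
  c2 : Continuous η2

/-- admissible paths (reversibility is only required if `b` holds) -/
structure Adm (m : Fin 3 → ℝ) (τ : ℝ) (u : ℂ) (σ : Equiv.Perm (Fin 3)) (b : Prop) (ω : ℂ)
    (ϖ : Equiv.Perm (Fin 3)) (y v : ℝ → Fin 3 → ℂ) : Prop where
  path : IsPath m τ y v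
  per : ∀ a, y τ a = u * y 0 (σ a)
  rev : b → ∀ t ∈ Icc 0 τ, ∀ a, y (τ - t) a = ω * conj (y t (ϖ a))

/-- admissible variations -/
structure Var (m : Fin 3 → ℝ) (τ : ℝ) (u : ℂ) (σ : Equiv.Perm (Fin 3)) (b : Prop) (ω : ℂ)
    (ϖ : Equiv.Perm (Fin 3)) (η : ℝ → Fin 3 → ℂ) : Prop where
  com : ∀ t, ∑ a, m a • η t a = 0
  per : ∀ a, η τ a = u * η 0 (σ a)
  rev : b → ∀ t ∈ Icc 0 τ, ∀ a, η (τ - t) a = ω * conj (η t (ϖ a))

/-- symmetric copies of the positions of `x` -/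
noncomputable def cp (x : ℝ → (Fin 3 → ℂ) × (Fin 3 → ℂ)) (p : ℝ × ℝ) (t : ℝ) : Fin 3 → ℂ :=
  fun a => exp (p.1 * I) * (x (t + p.2)).1 a

/-- `y` is uniformly within `ε` of a copy of `x` with parameters in `K`. -/
def Near (τ : ℝ) (x : ℝ → (Fin 3 → ℂ) × (Fin 3 → ℂ)) (K : Set (ℝ × ℝ)) (ε : ℝ)
    (y : ℝ → Fin 3 → ℂ) : Prop :=
  ∃ p ∈ K, ∀ t ∈ Icc 0 τ, ∀ a, ‖y t a - cp x p t a‖ ≤ ε

/-- uniform convergence on `[0, τ]` -/
def Unif (τ : ℝ) (y : ℕ → ℝ → Fin 3 → ℂ) (w : ℝ → Fin 3 → ℂ) : Prop :=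
  ∀ ε > 0, ∀ᶠ k in atTop, ∀ t ∈ Icc 0 τ, ∀ a, ‖y k t a - w t a‖ ≤ ε

/-- the first variation of the action at the (merely continuous) path `w` -/
noncomputable def weak (m : Fin 3 → ℝ) (τ : ℝ) (w η η1 η2 : ℝ → Fin 3 → ℂ) : ℝ :=
  ipm m (w τ) (η1 τ) - ipm m (w 0) (η1 0) - (∫ t in (0 : ℝ)..τ, ipm m (w t) (η2 t)) +
    ∫ t in (0 : ℝ)..τ, ipm m (acc m (w t)) (η t)

/-- solutions on `[0, τ]` -/
def Sol (m : Fin 3 → ℝ) (τ : ℝ) (w w1 : ℝ → Fin 3 → ℂ) : Prop :=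
  ∀ t ∈ Icc 0 τ, HasDerivWithinAt w (w1 t) (Icc 0 τ) t ∧
    HasDerivWithinAt w1 (acc m (w t)) (Icc 0 τ) t

/-- twist by a small rotation -/
noncomputable def tw (τ θ : ℝ) (y : ℝ → Fin 3 → ℂ) (t : ℝ) : Fin 3 → ℂ :=
  fun a => exp ((θ * t / τ : ℝ) * I) * y t a

/-- velocity of the twisted path -/
noncomputable def twv (τ θ : ℝ) (y v : ℝ → Fin 3 → ℂ) (t : ℝ) : Fin 3 → ℂ :=
  fun a => exp ((θ * t / τ : ℝ) * I) * (v t a + (θ / τ : ℝ) * I * y t a)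

end Pool.Agent.MP_5027f4_min
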