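import Pool.Agent.Lib_MP_5027f4_min.Defs

open Complex Set Filter Topology MeasureTheory
open scoped Real ComplexConjugate

namespace Pool.Agent.MP_5027f4_min

open Pool.Agent.MP_5027f4_mp

theorem FinA_perm_six (σ : Equiv.Perm (Fin 3)) : σ ^ 6 = 1 := by
  have h := pow_card_eq_one (x := σ)
  rw [Fintype.card_perm, Fintype.card_fin] at h
  exact h

theorem FinA_step {τ : ℝ} {u : ℂ} (σ : Equiv.Perm (Fin 3))
    {x : ℝ → (Fin 3 → ℂ) × (Fin 3 → ℂ)} (hper : ∀ t a, (x (t + τ)).1 a = u * (x t).1 (σ a))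
    (n : ℕ) (t : ℝ) (a : Fin 3) : (x (t + n * τ)).1 a = u ^ n * (x t).1 ((σ ^ n) a) := by
  induction n generalizing t with
  | zero => simp
  | succ n ih =>
    have e : t + ((n + 1 : ℕ) : ℝ) * τ = (t + τ) + n * τ := by push_cast; ring
    rw [e, ih, hper, ← mul_assoc, ← pow_succ, pow_succ' σ n]
    rfl

theorem FinA_int {τ : ℝ} {u : ℂ} (hu : ‖u‖ = 1) (σ : Equiv.Perm (Fin 3))
    {x : ℝ → (Fin 3 → ℂ) × (Fin 3 → ℂ)} (hper : ∀ t a, (x (t + τ)).1 a = u * (x t).1 (σ a))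
    (n : ℤ) (t : ℝ) (a : Fin 3) : (x (t + n * (6 * τ))).1 a = (u ^ 6) ^ n * (x t).1 a := by
  have hu0 : u ≠ 0 := by
    intro h
    rw [h, norm_zero] at hu
    exact zero_ne_one hu
  have hU : u ^ 6 ≠ 0 := pow_ne_zero 6 hu0
  have h6 : ∀ t, (x (t + 6 * τ)).1 a = u ^ 6 * (x t).1 a := by
    intro t
    have h := FinA_step σ hper 6 t a
    rw [FinA_perm_six] at h
    exact_mod_cast h
  induction n generalizing t with
  | zero => simp
  | succ n ih =>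
    have e : t + (((n : ℤ) + 1 : ℤ) : ℝ) * (6 * τ) = (t + 6 * τ) + ((n : ℤ) : ℝ) * (6 * τ) := by
      push_cast; ring
    rw [e, ih, h6, ← mul_assoc, zpow_add_one₀ hU]
  | pred n ih =>
    have e : t + ((-(n : ℤ) - 1 : ℤ) : ℝ) * (6 * τ) =
        (t - 6 * τ) + ((-(n : ℤ) : ℤ) : ℝ) * (6 * τ) := by
      push_cast; ring
    rw [e, ih]
    have h := h6 (t - 6 * τ)
    rw [sub_add_cancel] at h
    rw [h, zpow_sub_one₀ hU]
    field_simp

theorem FinA_angle {z : ℂ} (hz : ‖z‖ = 1) : ∃ β ∈ Icc (0 : ℝ) (2 * π), exp (β * I) = z := by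
  have h1 : exp (arg z * I) = z := by
    have := norm_mul_exp_arg_mul_I z
    rwa [hz, ofReal_one, one_mul] at this
  rcases le_or_gt 0 (arg z) with h | h
  · exact ⟨arg z, ⟨h, by linarith [arg_le_pi z, Real.pi_pos]⟩, h1⟩
  · refine ⟨arg z + 2 * π, ⟨by linarith [neg_pi_lt_arg z, Real.pi_pos], by linarith⟩, ?_⟩
    have e : ((arg z + 2 * π : ℝ) : ℂ) * I = arg z * I + 2 * π * I := by push_cast; ring
    rw [e, Complex.exp_add, h1, Complex.exp_two_pi_mul_I, mul_one]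

theorem reduce_param {τ : ℝ} (hτ : 0 < τ) {u : ℂ} (hu : ‖u‖ = 1) (σ : Equiv.Perm (Fin 3))
    {x : ℝ → (Fin 3 → ℂ) × (Fin 3 → ℂ)} (hper : ∀ t a, (x (t + τ)).1 a = u * (x t).1 (σ a))
    (α s : ℝ) : ∃ p ∈ Icc (0 : ℝ) (2 * π) ×ˢ Icc (0 : ℝ) (6 * τ), ∀ t a,
      exp (α * I) * (x (t + s)).1 a = cp x p t a := by
  have h6 : 0 < 6 * τ := by positivity
  set n : ℤ := ⌊s / (6 * τ)⌋ with hn
  set s' : ℝ := s - n * (6 * τ) with hs'
  have h1 : (n : ℝ) ≤ s / (6 * τ) := Int.floor_le _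
  have h2 : s / (6 * τ) < n + 1 := Int.lt_floor_add_one _
  rw [le_div_iff₀ h6] at h1
  rw [div_lt_iff₀ h6] at h2
  have hz : ‖exp (α * I) * (u ^ 6) ^ n‖ = 1 := by
    rw [norm_mul, Complex.norm_exp_ofReal_mul_I, norm_zpow, norm_pow, hu]
    simp
  obtain ⟨β, hβ, hβ'⟩ := FinA_angle hz
  refine ⟨(β, s'), ⟨hβ, ⟨by show 0 ≤ s'; rw [hs']; linarith, by show s' ≤ 6 * τ; rw [hs']; linarith⟩⟩, ?_⟩
  intro t a
  show exp (α * I) * (x (t + s)).1 a = exp (β * I) * (x (t + s')).1 a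
  rw [hβ']
  have e : t + s = (t + s') + n * (6 * τ) := by rw [hs']; ring
  rw [e, FinA_int hu σ hper n, mul_assoc]

end Pool.Agent.MP_5027f4_min
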