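import Pool.Agent.Lib_MP_5027f4_min.Defs

/-! Piece FinB: time shift of an equivariant path. -/

open Complex Set Filter Topology MeasureTheory
open scoped Real ComplexConjugate

namespace Pool.Agent.MP_5027f4_min

open Pool.Agent.MP_5027f4_mp

/-- the Lagrangian density -/
noncomputable def FinB_L (m : Fin 3 → ℝ) (q w : Fin 3 → ℂ) : ℝ :=
  (∑ a, m a * ‖w a‖ ^ 2) / 2 + pot m q

theorem FinB_pot (m : Fin 3 → ℝ) (q : Fin 3 → ℂ) :
    pot m q = (∑ a, ∑ b, m a * m b / ‖q a - q b‖) / 2 := by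
  simp only [Fin.sum_univ_three, sub_self, norm_zero, div_zero]
  rw [norm_sub_rev (q 1) (q 0), norm_sub_rev (q 2) (q 1), norm_sub_rev (q 0) (q 2)]
  unfold pot
  ring

theorem FinB_lag (m : Fin 3 → ℝ) {c : ℂ} (hc : ‖c‖ = 1) (pm : Equiv.Perm (Fin 3))
    (hpm : ∀ a, m (pm a) = m a) (q w : Fin 3 → ℂ) :
    FinB_L m (fun a => c * q (pm a)) (fun a => c * w (pm a)) = FinB_L m q w := by
  unfold FinB_L
  congr 1
  · congr 1
    have h1 : ∀ a, m a * ‖c * w (pm a)‖ ^ 2 = m (pm a) * ‖w (pm a)‖ ^ 2 := by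
      intro a
      rw [norm_mul, hc, one_mul, hpm]
    simp only [h1]
    exact Equiv.sum_comp pm (fun a => m a * ‖w a‖ ^ 2)
  · rw [FinB_pot, FinB_pot]
    congr 1
    have h1 : ∀ a b, m a * m b / ‖c * q (pm a) - c * q (pm b)‖ =
        m (pm a) * m (pm b) / ‖q (pm a) - q (pm b)‖ := by
      intro a b
      rw [← mul_sub, norm_mul, hc, one_mul, hpm, hpm]
    simp only [h1]
    rw [← Equiv.sum_comp pm (fun a => ∑ b, m a * m b / ‖q a - q b‖)]
    refine Finset.sum_congr rfl fun a _ => ?_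
    exact Equiv.sum_comp pm (fun b => m (pm a) * m b / ‖q (pm a) - q b‖)

theorem FinB_com (m : Fin 3 → ℝ) (c : ℂ) (pm : Equiv.Perm (Fin 3)) (hpm : ∀ a, m (pm a) = m a)
    (q : Fin 3 → ℂ) (h : ∑ a, m a • q a = 0) : ∑ a, m a • (c * q (pm a)) = 0 := by
  have h1 : ∀ a, m a • (c * q (pm a)) = c * (m (pm a) • q (pm a)) := by
    intro a
    rw [hpm, Complex.real_smul, Complex.real_smul]
    ring
  simp only [h1]
  rw [← Finset.mul_sum, Equiv.sum_comp pm (fun a => m a • q a), h, mul_zero]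

/-- rotations and permutations of a path -/
theorem FinB_sym {m : Fin 3 → ℝ} {τ : ℝ} {c : ℂ} (hc : ‖c‖ = 1) (pm : Equiv.Perm (Fin 3))
    (hpm : ∀ a, m (pm a) = m a) {y v : ℝ → Fin 3 → ℂ} (h : IsPath m τ y v) :
    IsPath m τ (fun t a => c * y t (pm a)) (fun t a => c * v t (pm a)) ∧
      action m τ (fun t a => c * y t (pm a)) (fun t a => c * v t (pm a)) = action m τ y v := by
  refine ⟨⟨fun a => (h.int (pm a)).const_mul c, fun a => ?_, fun t ht a => ?_, fun t ht => ?_⟩, ?_⟩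
  · have := h.sq (pm a)
    simpa only [norm_mul, hc, one_mul] using this
  · show c * y t (pm a) = c * y 0 (pm a) + ∫ s in (0 : ℝ)..t, c * v s (pm a)
    rw [intervalIntegral.integral_const_mul, h.eq t ht (pm a)]
    ring
  · exact FinB_com m c pm hpm (y t) (h.com t ht)
  · unfold action
    refine intervalIntegral.integral_congr fun t _ => ?_
    exact FinB_lag m hc pm hpm (y t) (v t)

section splice

variable {E : Type} [NormedAddCommGroup E] [NormedSpace ℝ E]

/-- the spliced function -/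
noncomputable def FinB_sp (s0 d : ℝ) (f g : ℝ → E) (t : ℝ) : E :=
  if t ≤ s0 then f (t + d) else g (t - s0)

theorem FinB_sp_int {τ s0 : ℝ} (h0 : 0 < s0) (h1 : s0 ≤ τ) {f g : ℝ → E}
    (hf : IntervalIntegrable f volume 0 τ) (hg : IntervalIntegrable g volume 0 τ) :
    IntervalIntegrable (FinB_sp s0 (τ - s0) f g) volume 0 τ := by
  have hA : IntervalIntegrable (FinB_sp s0 (τ - s0) f g) volume 0 s0 := by
    have h2 : IntervalIntegrable f volume (τ - s0) τ := by
      refine hf.mono_set ?_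
      rw [uIcc_of_le (by linarith), uIcc_of_le (by linarith)]
      exact Icc_subset_Icc (by linarith) le_rfl
    have h3 := h2.comp_add_right (τ - s0)
    rw [sub_self, sub_sub_cancel] at h3
    refine (intervalIntegrable_congr ?_).mp h3
    intro t ht
    rw [uIoc_of_le h0.le] at ht
    show f (t + (τ - s0)) = if t ≤ s0 then f (t + (τ - s0)) else g (t - s0)
    rw [if_pos ht.2]
  have hB : IntervalIntegrable (FinB_sp s0 (τ - s0) f g) volume s0 τ := by
    have h2 : IntervalIntegrable g volume 0 (τ - s0) := by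
      refine hg.mono_set ?_
      rw [uIcc_of_le (by linarith), uIcc_of_le (by linarith)]
      exact Icc_subset_Icc le_rfl (by linarith)
    have h3 := h2.comp_sub_right s0
    rw [zero_add, sub_add_cancel] at h3
    refine (intervalIntegrable_congr ?_).mp h3
    intro t ht
    rw [uIoc_of_le h1] at ht
    show g (t - s0) = if t ≤ s0 then f (t + (τ - s0)) else g (t - s0)
    rw [if_neg (not_le.mpr ht.1)]
  exact hA.trans hB

theorem FinB_sp_left {τ s0 : ℝ} (f g : ℝ → E) {t : ℝ} (ht0 : 0 ≤ t) (ht : t ≤ s0) :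
    ∫ s in (0 : ℝ)..t, FinB_sp s0 (τ - s0) f g s = ∫ s in (τ - s0)..(t + (τ - s0)), f s := by
  rw [intervalIntegral.integral_congr_ae (g := fun s => f (s + (τ - s0)))]
  · rw [intervalIntegral.integral_comp_add_right (fun s => f s), zero_add]
  · refine Filter.Eventually.of_forall fun s hs => ?_
    rw [uIoc_of_le ht0] at hs
    show (if s ≤ s0 then f (s + (τ - s0)) else g (s - s0)) = f (s + (τ - s0))
    rw [if_pos (hs.2.trans ht)]

theorem FinB_sp_right {τ s0 : ℝ} (f g : ℝ → E) {t : ℝ} (ht : s0 ≤ t) :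
    ∫ s in s0..t, FinB_sp s0 (τ - s0) f g s = ∫ s in (0 : ℝ)..(t - s0), g s := by
  rw [intervalIntegral.integral_congr_ae (g := fun s => g (s - s0))]
  · rw [intervalIntegral.integral_comp_sub_right (fun s => g s), sub_self]
  · refine Filter.Eventually.of_forall fun s hs => ?_
    rw [uIoc_of_le ht] at hs
    show (if s ≤ s0 then f (s + (τ - s0)) else g (s - s0)) = g (s - s0)
    rw [if_neg (not_le.mpr hs.1)]

/-- the integral of a cyclically shifted function (no integrability needed) -/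
theorem FinB_sp_total {τ s0 : ℝ} (hτ : 0 < τ) (h0 : 0 < s0) (h1 : s0 ≤ τ) (f : ℝ → E) :
    ∫ s in (0 : ℝ)..τ, FinB_sp s0 (τ - s0) f f s = ∫ s in (0 : ℝ)..τ, f s := by
  let F : ℝ → E := fun t => f (toIcoMod hτ 0 t)
  have hF : Function.Periodic F τ := fun t => by
    show f (toIcoMod hτ 0 (t + τ)) = f (toIcoMod hτ 0 t)
    rw [toIcoMod_add_right]
  have hFe : ∀ t, 0 ≤ t → t < τ → F t = f t := by
    intro t h2 h3
    show f (toIcoMod hτ 0 t) = f t
    rw [(toIcoMod_eq_self hτ).mpr ⟨h2, by rw [zero_add]; exact h3⟩]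
  have hnull : ∀ᵐ s : ℝ, s ≠ τ := by
    rw [ae_iff]; simp
  have hnull2 : ∀ᵐ s : ℝ, s ≠ s0 := by
    rw [ae_iff]; simp
  have e1 : ∫ s in (0 : ℝ)..τ, f s = ∫ s in (0 : ℝ)..τ, F s := by
    refine intervalIntegral.integral_congr_ae ?_
    filter_upwards [hnull] with s hs hs'
    rw [uIoc_of_le hτ.le] at hs'
    rw [hFe s hs'.1.le (lt_of_le_of_ne hs'.2 hs)]
  have e2 : ∫ s in (0 : ℝ)..τ, FinB_sp s0 (τ - s0) f f s =
      ∫ s in (0 : ℝ)..τ, F (s + (τ - s0)) := by
    refine intervalIntegral.integral_congr_ae ?_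
    filter_upwards [hnull, hnull2] with s hs hs2 hs'
    rw [uIoc_of_le hτ.le] at hs'
    show (if s ≤ s0 then f (s + (τ - s0)) else f (s - s0)) = F (s + (τ - s0))
    have hsτ : s < τ := lt_of_le_of_ne hs'.2 hs
    rcases lt_or_gt_of_ne hs2 with h | h
    · rw [if_pos h.le, hFe _ (by linarith [hs'.1]) (by linarith)]
    · rw [if_neg (not_le.mpr h)]
      have : s + (τ - s0) = (s - s0) + τ := by ring
      rw [this, hF, hFe _ (by linarith) (by linarith [hs'.1])]
  rw [e1, e2, intervalIntegral.integral_comp_add_right (fun s => F s), zero_add]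
  have := hF.intervalIntegral_add_eq (τ - s0) 0
  rw [zero_add] at this
  rw [← this]
  congr 1
  ring

end splice

/-- cyclic time shift of a path by less than one period -/
theorem FinB_splice {m : Fin 3 → ℝ} {τ : ℝ} (hτ : 0 < τ) {u : ℂ} (hu : ‖u‖ = 1)
    {σ : Equiv.Perm (Fin 3)} (hσ : ∀ a, m (σ a) = m a) {y v : ℝ → Fin 3 → ℂ}
    (hy : IsPath m τ y v) (hyp : ∀ a, y τ a = u * y 0 (σ a)) {s0 : ℝ} (h0 : 0 < s0)
    (h1 : s0 ≤ τ) :
    ∃ z zv, IsPath m τ z zv ∧ action m τ z zv = action m τ y v ∧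
      (∀ t, t ≤ s0 → ∀ a, z t a = y (t + (τ - s0)) a) ∧
      ∀ t, s0 ≤ t → ∀ a, z t a = u * y (t - s0) (σ a) := by
  have hsplit : ∀ (f g : ℝ → Fin 3 → ℂ) (t : ℝ) (a : Fin 3),
      FinB_sp s0 (τ - s0) f g t a = FinB_sp s0 (τ - s0) (fun t => f t a) (fun t => g t a) t := by
    intro f g t a
    unfold FinB_sp
    split_ifs <;> rfl
  refine ⟨FinB_sp s0 (τ - s0) y (fun t a => u * y t (σ a)),
    FinB_sp s0 (τ - s0) v (fun t a => u * v t (σ a)), ⟨?_, ?_, ?_, ?_⟩, ?_, ?_, ?_⟩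
  · intro a
    simp only [hsplit]
    exact FinB_sp_int h0 h1 (hy.int a) ((hy.int (σ a)).const_mul u)
  · intro a
    have h2 := FinB_sp_int h0 h1 (hy.sq a) (hy.sq (σ a))
    have e : (fun t => ‖FinB_sp s0 (τ - s0) v (fun t a => u * v t (σ a)) t a‖ ^ 2) =
        FinB_sp s0 (τ - s0) (fun t => ‖v t a‖ ^ 2) (fun t => ‖v t (σ a)‖ ^ 2) := by
      funext t
      rw [hsplit]
      unfold FinB_sp
      split_ifs
      · rfl
      · rw [norm_mul, hu, one_mul]
    rw [e]
    exact h2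
  · intro t ht a
    simp only [hsplit]
    have hsub : ∀ (b : Fin 3) (r r' : ℝ), 0 ≤ r → r ≤ r' → r' ≤ τ →
        ∫ s in r..r', v s b = y r' b - y r b := by
      intro b r r' hr hrr' hr'
      have i1 : IntervalIntegrable (fun t => v t b) volume 0 r := by
        refine (hy.int b).mono_set ?_
        rw [uIcc_of_le hr, uIcc_of_le hτ.le]
        exact Icc_subset_Icc le_rfl (hrr'.trans hr')
      have i2 : IntervalIntegrable (fun t => v t b) volume 0 r' := by
        refine (hy.int b).mono_set ?_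
        rw [uIcc_of_le (hr.trans hrr'), uIcc_of_le hτ.le]
        exact Icc_subset_Icc le_rfl hr'
      rw [← intervalIntegral.integral_interval_sub_left i2 i1, hy.eq r' ⟨hr.trans hrr', hr'⟩ b,
        hy.eq r ⟨hr, hrr'.trans hr'⟩ b]
      ring
    have hz0 : FinB_sp s0 (τ - s0) (fun t => y t a) (fun t => u * y t (σ a)) 0 =
        y (τ - s0) a := by
      unfold FinB_sp
      rw [if_pos h0.le, zero_add]
    rcases le_total t s0 with hts | hts
    · rw [FinB_sp_left _ _ ht.1 hts, hsub a _ _ (by linarith) (by linarith [ht.1]) (by linarith),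
        hz0]
      unfold FinB_sp
      rw [if_pos hts]
      ring
    · have hint := FinB_sp_int h0 h1 (hy.int a) ((hy.int (σ a)).const_mul u)
      have j1 : IntervalIntegrable (FinB_sp s0 (τ - s0) (fun t => v t a)
          (fun t => u * v t (σ a))) volume 0 s0 := by
        refine hint.mono_set ?_
        rw [uIcc_of_le h0.le, uIcc_of_le hτ.le]
        exact Icc_subset_Icc le_rfl h1
      have j2 : IntervalIntegrable (FinB_sp s0 (τ - s0) (fun t => v t a)
          (fun t => u * v t (σ a))) volume s0 t := by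
        refine hint.mono_set ?_
        rw [uIcc_of_le hts, uIcc_of_le hτ.le]
        exact Icc_subset_Icc h0.le ht.2
      rw [← intervalIntegral.integral_add_adjacent_intervals j1 j2, FinB_sp_left _ _ h0.le le_rfl,
        FinB_sp_right _ _ hts, intervalIntegral.integral_const_mul,
        hsub a _ _ (by linarith) (by linarith) (by linarith),
        hsub (σ a) _ _ le_rfl (by linarith) (by linarith [ht.2]), hz0]
      have e1 : s0 + (τ - s0) = τ := by ring
      rw [e1, hyp a]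
      unfold FinB_sp
      split_ifs with h
      · have : t = s0 := le_antisymm h hts
        subst this
        show y (t + (τ - t)) a = _
        rw [e1, hyp a, sub_self]
        ring
      · ring
  · intro t ht
    simp only [hsplit]
    unfold FinB_sp
    split_ifs with h
    · exact hy.com _ ⟨by linarith [ht.1], by linarith⟩
    · push Not at h
      exact FinB_com m u σ hσ _ (hy.com (t - s0) ⟨by linarith, by linarith [ht.2]⟩)
  · have e : ∀ t, FinB_L m (FinB_sp s0 (τ - s0) y (fun t a => u * y t (σ a)) t)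
        (FinB_sp s0 (τ - s0) v (fun t a => u * v t (σ a)) t) =
        FinB_sp s0 (τ - s0) (fun t => FinB_L m (y t) (v t)) (fun t => FinB_L m (y t) (v t)) t := by
      intro t
      unfold FinB_sp
      split_ifs
      · rfl
      · exact FinB_lag m hu σ hσ _ _
    have e2 : action m τ (FinB_sp s0 (τ - s0) y (fun t a => u * y t (σ a)))
        (FinB_sp s0 (τ - s0) v (fun t a => u * v t (σ a))) =
        ∫ t in (0 : ℝ)..τ, FinB_sp s0 (τ - s0) (fun t => FinB_L m (y t) (v t))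
          (fun t => FinB_L m (y t) (v t)) t :=
      intervalIntegral.integral_congr fun t _ => e t
    rw [e2, FinB_sp_total hτ h0 h1]
    rfl
  · intro t ht a
    unfold FinB_sp
    rw [if_pos ht]
  · intro t ht a
    unfold FinB_sp
    split_ifs with h
    · have : t = s0 := le_antisymm h ht
      subst this
      have e1 : t + (τ - t) = τ := by ring
      rw [e1, hyp a, sub_self]
    · rfl

/-- equivariance of `x` under all multiples of the period -/
theorem FinB_per {τ : ℝ} {u : ℂ} (hu : ‖u‖ = 1) {σ : Equiv.Perm (Fin 3)}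
    {x : ℝ → (Fin 3 → ℂ) × (Fin 3 → ℂ)} (hper : ∀ t a, (x (t + τ)).1 a = u * (x t).1 (σ a))
    (n : ℤ) : ∀ t a, (x (t + n * τ)).1 a = u ^ n * (x t).1 ((σ ^ n) a) := by
  have hu0 : u ≠ 0 := by
    intro h; rw [h, norm_zero] at hu; exact zero_ne_one hu
  induction n with
  | zero => intro t a; simp
  | succ n ih =>
    intro t a
    have e : t + ((n : ℤ) + 1 : ℤ) * τ = (t + (n : ℤ) * τ) + τ := by push_cast; ring
    rw [e, hper, ih, zpow_add₀ hu0, zpow_one, zpow_add, zpow_one, Equiv.Perm.mul_apply]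
    ring
  | pred n ih =>
    intro t a
    have h1 := hper (t + (-(n : ℤ) - 1 : ℤ) * τ) (σ⁻¹ a)
    have e : t + (-(n : ℤ) - 1 : ℤ) * τ + τ = t + (-(n : ℤ) : ℤ) * τ := by push_cast; ring
    rw [e, ih] at h1
    have e2 : σ (σ⁻¹ a) = a := Equiv.apply_symm_apply σ a
    rw [e2] at h1
    have e3 : (σ ^ (-(n : ℤ) - 1)) a = (σ ^ (-(n : ℤ))) (σ⁻¹ a) := by
      rw [sub_eq_add_neg, zpow_add, zpow_neg_one, Equiv.Perm.mul_apply]
    have e4 : u ^ (-(n : ℤ) - 1) = u⁻¹ * u ^ (-(n : ℤ)) := by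
      rw [sub_eq_add_neg, zpow_add₀ hu0, zpow_neg_one, mul_comm]
    rw [e3, e4, mul_assoc, h1, inv_mul_cancel_left₀ hu0]

theorem shift_path {m : Fin 3 → ℝ} (hm : ∀ a, 0 < m a) {τ : ℝ} (hτ : 0 < τ) {u : ℂ}
    (hu : ‖u‖ = 1) {σ : Equiv.Perm (Fin 3)} (hσ : ∀ a, m (σ a) = m a)
    {x : ℝ → (Fin 3 → ℂ) × (Fin 3 → ℂ)} (hper : ∀ t a, (x (t + τ)).1 a = u * (x t).1 (σ a))
    {ρ : ℝ} {y v : ℝ → Fin 3 → ℂ} (hy : IsPath m τ y v) (hyp : ∀ a, y τ a = u * y 0 (σ a))
    (p : ℝ × ℝ) (hnear : ∀ t ∈ Icc 0 τ, ∀ a, ‖y t a - cp x p t a‖ ≤ ρ) :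
    ∃ z zv, IsPath m τ z zv ∧ (∀ a, z τ a = u * z 0 (σ a)) ∧
      (∀ t ∈ Icc 0 τ, ∀ a, ‖z t a - (x t).1 a‖ ≤ ρ) ∧ action m τ z zv = action m τ y v ∧
      ∀ α s : ℝ, (∀ t ∈ Icc 0 τ, ∀ a, z t a = exp (α * I) * (x (t + s)).1 a) →
        ∃ α' s' : ℝ, ∀ t ∈ Icc 0 τ, ∀ a, y t a = exp (α' * I) * (x (t + s')).1 a := by
  have hu0 : u ≠ 0 := by
    intro h; rw [h, norm_zero] at hu; exact zero_ne_one hu
  -- the cell of `-p.2`
  let n : ℤ := ⌊(-p.2) / τ⌋
  have hn1 : (n : ℝ) * τ ≤ -p.2 := by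
    have := Int.floor_le ((-p.2) / τ)
    rwa [le_div_iff₀ hτ] at this
  have hn2 : -p.2 < ((n : ℝ) + 1) * τ := by
    have := Int.lt_floor_add_one ((-p.2) / τ)
    rwa [div_lt_iff₀ hτ] at this
  let s0 : ℝ := ((n : ℝ) + 1) * τ + p.2
  have h0 : 0 < s0 := by show 0 < ((n : ℝ) + 1) * τ + p.2; linarith
  have h1 : s0 ≤ τ := by
    show ((n : ℝ) + 1) * τ + p.2 ≤ τ
    have : ((n : ℝ) + 1) * τ = n * τ + τ := by ring
    linarith
  obtain ⟨w, wv, hw, hwa, hwl, hwr⟩ := FinB_splice hτ hu hσ hy hyp h0 h1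
  -- rotation and permutation
  let c : ℂ := exp (-(p.1 : ℂ) * I) * u ^ n
  have hc : ‖c‖ = 1 := by
    show ‖exp (-(p.1 : ℂ) * I) * u ^ n‖ = 1
    have e : -(p.1 : ℂ) * I = ((-p.1 : ℝ) : ℂ) * I := by push_cast; ring
    rw [norm_mul, e, Complex.norm_exp_ofReal_mul_I, norm_zpow, hu, one_zpow, mul_one]
  have hc0 : c ≠ 0 := by
    intro h; rw [h, norm_zero] at hc; exact zero_ne_one hc
  have hσn : ∀ a, m ((σ ^ n) a) = m a := by
    have hpow : ∀ (k : ℕ) a, m ((σ ^ k) a) = m a := by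
      intro k
      induction k with
      | zero => intro a; simp
      | succ k ih => intro a; rw [pow_succ, Equiv.Perm.mul_apply, ih, hσ]
    intro a
    obtain ⟨k, hk | hk⟩ := n.eq_nat_or_neg
    · rw [hk, zpow_natCast]; exact hpow k a
    · rw [hk, zpow_neg, zpow_natCast]
      have := hpow k ((σ ^ k)⁻¹ a)
      rw [← Equiv.Perm.mul_apply, mul_inv_cancel, Equiv.Perm.one_apply] at this
      exact this.symm
  obtain ⟨hz, hza⟩ := FinB_sym hc (σ ^ n) hσn hw
  have hxn := FinB_per hu hper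
  have hcomm : ∀ a, (σ ^ n) (σ a) = σ ((σ ^ n) a) := by
    intro a
    rw [← Equiv.Perm.mul_apply, ← Equiv.Perm.mul_apply]
    congr 1
    exact (Commute.self_zpow σ n).symm.eq
  have hexp : exp (-(p.1 : ℂ) * I) * exp ((p.1 : ℂ) * I) = 1 := by
    rw [← Complex.exp_add]
    have : -(p.1 : ℂ) * I + (p.1 : ℂ) * I = 0 := by ring
    rw [this, Complex.exp_zero]
  -- the copies of `x` in the two cells
  have hcell1 : ∀ t a, c * cp x p (t + (τ - s0)) ((σ ^ n) a) = (x t).1 a := by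
    intro t a
    show exp (-(p.1 : ℂ) * I) * u ^ n * (exp ((p.1 : ℂ) * I) *
      (x (t + (τ - s0) + p.2)).1 ((σ ^ n) a)) = (x t).1 a
    have e1 : t + (τ - s0) + p.2 = t - n * τ := by
      show t + (τ - (((n : ℝ) + 1) * τ + p.2)) + p.2 = t - n * τ
      ring
    have e2 := hxn n (t - n * τ) a
    rw [sub_add_cancel] at e2
    rw [e1, e2]
    calc exp (-(p.1 : ℂ) * I) * u ^ n * (exp ((p.1 : ℂ) * I) * (x (t - n * τ)).1 ((σ ^ n) a))
        = (exp (-(p.1 : ℂ) * I) * exp ((p.1 : ℂ) * I)) *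
          (u ^ n * (x (t - n * τ)).1 ((σ ^ n) a)) := by ring
      _ = _ := by rw [hexp, one_mul]
  have hcell2 : ∀ t a, c * (u * cp x p (t - s0) (σ ((σ ^ n) a))) = (x t).1 a := by
    intro t a
    show exp (-(p.1 : ℂ) * I) * u ^ n * (u * (exp ((p.1 : ℂ) * I) *
      (x (t - s0 + p.2)).1 (σ ((σ ^ n) a)))) = (x t).1 a
    have e1 : t - s0 + p.2 = t - n * τ - τ := by
      show t - (((n : ℝ) + 1) * τ + p.2) + p.2 = t - n * τ - τ
      ring
    have e2 := hxn n (t - n * τ) a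
    rw [sub_add_cancel] at e2
    have e3 := hper (t - n * τ - τ) ((σ ^ n) a)
    rw [sub_add_cancel] at e3
    rw [e1, e2, e3]
    calc exp (-(p.1 : ℂ) * I) * u ^ n * (u * (exp ((p.1 : ℂ) * I) *
          (x (t - n * τ - τ)).1 (σ ((σ ^ n) a))))
        = (exp (-(p.1 : ℂ) * I) * exp ((p.1 : ℂ) * I)) *
          (u ^ n * (u * (x (t - n * τ - τ)).1 (σ ((σ ^ n) a)))) := by ring
      _ = _ := by rw [hexp, one_mul]
  clear_value c
  refine ⟨_, _, hz, ?_, ?_, hza.trans hwa, ?_⟩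
  · intro a
    show c * w τ ((σ ^ n) a) = u * (c * w 0 ((σ ^ n) (σ a)))
    rw [hwr τ h1, hwl 0 h0.le, zero_add, hcomm]
    ring
  · intro t ht a
    show ‖c * w t ((σ ^ n) a) - (x t).1 a‖ ≤ ρ
    rcases le_total t s0 with hts | hts
    · rw [hwl t hts, ← hcell1 t a, ← mul_sub, norm_mul, hc, one_mul]
      exact hnear _ ⟨by linarith [ht.1], by linarith⟩ _
    · rw [hwr t hts, ← hcell2 t a, ← mul_sub, ← mul_sub, norm_mul, norm_mul, hc, hu, one_mul,
        one_mul]
      exact hnear _ ⟨by linarith, by linarith [ht.2]⟩ _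
  · intro α s h
    have h' : ∀ t ∈ Icc 0 τ, ∀ a, c * w t ((σ ^ n) a) = exp (α * I) * (x (t + s)).1 a := h
    have hexp2 : exp (((α + p.1 : ℝ) : ℂ) * I) * exp (-(p.1 : ℂ) * I) = exp (α * I) := by
      rw [← Complex.exp_add]
      congr 1
      push_cast
      ring
    refine ⟨α + p.1, s + p.2, ?_⟩
    intro r hr b
    rcases le_total (τ - s0) r with hrs | hrs
    · have h2 := h' (r - (τ - s0)) ⟨by linarith, by linarith [hr.2]⟩ ((σ ^ n)⁻¹ b)
      have e0 : (σ ^ n) ((σ ^ n)⁻¹ b) = b := Equiv.apply_symm_apply (σ ^ n) b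
      rw [e0, hwl _ (by linarith [hr.2]), sub_add_cancel, ← hcell1 (r - (τ - s0) + s) ((σ ^ n)⁻¹ b),
        e0] at h2
      have e1 : r - (τ - s0) + s + (τ - s0) = r + s := by ring
      rw [e1] at h2
      have h3 : c * y r b = c * (exp (α * I) * cp x p (r + s) b) := by rw [h2]; ring
      have h4 := mul_left_cancel₀ hc0 h3
      rw [h4]
      show exp (α * I) * (exp ((p.1 : ℂ) * I) * (x (r + s + p.2)).1 b) = _
      have e2 : r + (s + p.2) = r + s + p.2 := by ring
      rw [e2, ← mul_assoc, ← Complex.exp_add]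
      congr 2
      push_cast
      ring
    · have h2 := h' (r + s0) ⟨by linarith [hr.1], by linarith⟩ ((σ ^ n)⁻¹ (σ⁻¹ b))
      have e0 : (σ ^ n) ((σ ^ n)⁻¹ (σ⁻¹ b)) = σ⁻¹ b := Equiv.apply_symm_apply (σ ^ n) _
      have e0' : σ (σ⁻¹ b) = b := Equiv.apply_symm_apply σ b
      rw [e0, hwr _ (by linarith [hr.1]), e0', add_sub_cancel_right,
        ← hcell2 (r + s0 + s) ((σ ^ n)⁻¹ (σ⁻¹ b)), e0, e0'] at h2
      have e1 : r + s0 + s - s0 = r + s := by ring
      rw [e1] at h2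
      have h3 : (c * u) * y r b = (c * u) * (exp (α * I) * cp x p (r + s) b) := by
        linear_combination h2
      have h4 := mul_left_cancel₀ (mul_ne_zero hc0 hu0) h3
      rw [h4]
      show exp (α * I) * (exp ((p.1 : ℂ) * I) * (x (r + s + p.2)).1 b) = _
      have e2 : r + (s + p.2) = r + s + p.2 := by ring
      rw [e2, ← mul_assoc, ← Complex.exp_add]
      congr 2
      push_cast
      ring

end Pool.Agent.MP_5027f4_min
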