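import Pool.Agent.Lib_MP_5027f4_min.Defs

open Complex Set Filter Topology MeasureTheory
open scoped Real ComplexConjugate

namespace Pool.Agent.MP_5027f4_min

open Pool.Agent.MP_5027f4_mp

theorem FinC_mul_conj {u : ℂ} (hu : ‖u‖ = 1) : u * conj u = 1 := by
  rw [Complex.mul_conj, Complex.normSq_eq_norm_sq, hu]
  norm_num

theorem perm_relations {u ω : ℂ} (hu : ‖u‖ = 1) (hω : ‖ω‖ = 1) {σ ϖ : Equiv.Perm (Fin 3)}
    {q q' : Fin 3 → ℂ} (hq : ∀ a b, a ≠ b → q a ≠ q b) (h1 : ∀ a, q' a = u * q (σ a))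
    (h2 : ∀ a, q' a = ω * conj (q (ϖ a))) (h3 : ∀ a, q a = ω * conj (q' (ϖ a))) :
    (∀ a, ϖ (ϖ a) = a) ∧ ∀ a, σ (ϖ (σ a)) = ϖ a := by
  have hinj : ∀ a b, q a = q b → a = b := by
    intro a b hab
    by_contra hne
    exact hq a b hne hab
  have huu := FinC_mul_conj hu
  have hww := FinC_mul_conj hω
  have hA : ∀ a, ϖ (ϖ a) = a := by
    intro a
    apply hinj
    have h4 := h3 a
    rw [h2 (ϖ a), map_mul, Complex.conj_conj] at h4
    rw [h4]
    linear_combination (- q (ϖ (ϖ a))) * hww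
  refine ⟨hA, fun a => ?_⟩
  apply hinj
  have hu0 : u ≠ 0 := by
    intro h
    rw [h, norm_zero] at hu
    exact zero_ne_one hu
  have h4 : ∀ a, u * q (σ a) = ω * conj (q (ϖ a)) := fun a => by rw [← h1, h2]
  have h5 := h4 (ϖ (σ a))
  rw [hA] at h5
  have h6 := congrArg conj (h4 a)
  rw [map_mul, map_mul, Complex.conj_conj] at h6
  -- `conj u * conj (q (σ a)) = conj ω * q (ϖ a)`
  apply mul_left_cancel₀ hu0
  rw [h5]
  have h7 : conj (q (σ a)) = u * (conj ω * q (ϖ a)) := by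
    rw [← h6]
    linear_combination (- conj (q (σ a))) * huu
  rw [h7]
  linear_combination (u * q (ϖ a)) * hww

theorem rotate_sol {m : Fin 3 → ℝ} {τ : ℝ} {c : ℂ} (hc : ‖c‖ = 1) {w w1 : ℝ → Fin 3 → ℂ}
    (h : Sol m τ w w1) : Sol m τ (fun t a => c * w t a) (fun t a => c * w1 t a) := by
  intro t ht
  obtain ⟨h1, h2⟩ := h t ht
  rw [hasDerivWithinAt_pi] at h1 h2
  refine ⟨hasDerivWithinAt_pi.mpr fun a => (h1 a).const_mul c, hasDerivWithinAt_pi.mpr fun a => ?_⟩
  have h3 : acc m (fun a => c * w t a) a = c * acc m (w t) a := acc_smul m hc (w t) a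
  rw [h3]
  exact (h2 a).const_mul c

theorem exists_nonroot {u : ℂ} (hu : ‖u‖ = 1) {θ0 : ℝ} (hθ : 0 < θ0) :
    ∃ θ : ℝ, |θ| < θ0 ∧ ∀ n : ℕ, 0 < n → (exp (θ * I) * u) ^ n ≠ 1 := by
  have h1 : exp (arg u * I) = u := by
    have := norm_mul_exp_arg_mul_I u
    rwa [hu, ofReal_one, one_mul] at this
  have hpi := Real.two_pi_pos
  obtain ⟨r, hr, hr1, hr2⟩ := exists_irrational_btwn
    (show arg u / (2 * π) < (arg u + θ0) / (2 * π) by
      apply div_lt_div_of_pos_right _ hpi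
      linarith)
  rw [div_lt_iff₀ hpi] at hr1
  rw [lt_div_iff₀ hpi] at hr2
  refine ⟨r * (2 * π) - arg u, ?_, ?_⟩
  · rw [abs_lt]
    constructor <;> linarith
  · intro n hn hcon
    have h2 : exp (((r * (2 * π) - arg u : ℝ) : ℂ) * I) * u = exp ((r * (2 * π) : ℝ) * I) := by
      conv_lhs => rw [← h1]
      rw [← Complex.exp_add]
      congr 1
      push_cast
      rw [h1]
      ring
    rw [h2, ← Complex.exp_nat_mul, Complex.exp_eq_one_iff] at hcon
    obtain ⟨k, hk⟩ := hcon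
    have h3 : (n : ℝ) * r = k := by
      have h4 : ((n : ℂ) * r - k) * (2 * π * I) = 0 := by
        push_cast at hk
        linear_combination hk
      have h5 : (2 * π * I : ℂ) ≠ 0 := Complex.two_pi_I_ne_zero
      have h6 : (n : ℂ) * r - k = 0 := (mul_eq_zero.mp h4).resolve_right h5
      have h7 : (n : ℂ) * r = k := sub_eq_zero.mp h6
      exact_mod_cast h7
    have hn0 : (n : ℝ) ≠ 0 := by exact_mod_cast hn.ne'
    apply hr
    refine ⟨(k : ℚ) / n, ?_⟩
    push_cast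
    rw [← h3]
    field_simp

end Pool.Agent.MP_5027f4_min
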