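import Pool.Agent.Lib_MP_5027f4_min.Defs

/-!
# Concatenation of six arcs (piece FinD)
-/

open Complex Set Filter Topology MeasureTheory
open scoped Real ComplexConjugate

namespace Pool.Agent.MP_5027f4_min

open Pool.Agent.MP_5027f4_mp

theorem FinD_acc_perm (m : Fin 3 → ℝ) (σ : Equiv.Perm (Fin 3)) (hσ : ∀ a, m (σ a) = m a)
    (q : Fin 3 → ℂ) (a : Fin 3) : acc m (fun a => q (σ a)) a = acc m q (σ a) := by
  rw [acc_eq, acc_eq]
  rw [← Equiv.sum_comp σ (fun b => (m b / ‖q b - q (σ a)‖ ^ 3) • (q b - q (σ a)))]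
  refine Finset.sum_congr rfl fun b _ => ?_
  rw [hσ]

/-- the symmetry `g` -/
noncomputable def FinD_g (u : ℂ) (σ : Equiv.Perm (Fin 3)) : Ph →L[ℝ] Ph :=
  LinearMap.toContinuousLinearMap
    { toFun := fun p => (fun a => u * p.1 (σ a), fun a => u * p.2 (σ a))
      map_add' := by
        intro p q
        refine Prod.ext (funext fun a => ?_) (funext fun a => ?_)
        · exact mul_add _ _ _
        · exact mul_add _ _ _
      map_smul' := by
        intro c p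
        refine Prod.ext (funext fun a => ?_) (funext fun a => ?_)
        · exact mul_smul_comm c u (p.1 (σ a))
        · exact mul_smul_comm c u (p.2 (σ a)) }

theorem FinD_g_apply (u : ℂ) (σ : Equiv.Perm (Fin 3)) (p : Ph) :
    FinD_g u σ p = (fun a => u * p.1 (σ a), fun a => u * p.2 (σ a)) := rfl

theorem FinD_fld {m : Fin 3 → ℝ} {u : ℂ} (hu : ‖u‖ = 1) {σ : Equiv.Perm (Fin 3)}
    (hσ : ∀ a, m (σ a) = m a) (p : Ph) : fld m (FinD_g u σ p) = FinD_g u σ (fld m p) := by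
  rw [FinD_g_apply, FinD_g_apply]
  refine Prod.ext rfl (funext fun a => ?_)
  change acc m (fun a => u * p.1 (σ a)) a = u * acc m p.1 (σ a)
  rw [acc_smul m hu (fun a => p.1 (σ a)) a, FinD_acc_perm m σ hσ]

theorem FinD_sum {m : Fin 3 → ℝ} {u : ℂ} {σ : Equiv.Perm (Fin 3)}
    (hσ : ∀ a, m (σ a) = m a) {z : Fin 3 → ℂ} (hz : ∑ a, m a • z a = 0) :
    ∑ a, m a • (u * z (σ a)) = 0 := by
  have h1 : ∑ a, m a • (u * z (σ a)) = u * ∑ a, m (σ a) • z (σ a) := by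
    rw [Finset.mul_sum]
    refine Finset.sum_congr rfl fun a _ => ?_
    rw [hσ, mul_smul_comm]
  rw [h1, Equiv.sum_comp σ (fun a => m a • z a), hz, mul_zero]

theorem FinD_frame {m : Fin 3 → ℝ} {u : ℂ} (hu : ‖u‖ = 1) {σ : Equiv.Perm (Fin 3)}
    (hσ : ∀ a, m (σ a) = m a) {p : Ph} (hp : p ∈ frame m) : FinD_g u σ p ∈ frame m := by
  have hu0 : u ≠ 0 := by
    rintro rfl
    simp at hu
  obtain ⟨h1, h2, h3⟩ := hp
  refine ⟨fun a b hab h => ?_, FinD_sum hσ h2, FinD_sum hσ h3⟩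
  exact h1 (σ a) (σ b) (fun e => hab (σ.injective e)) (mul_left_cancel₀ hu0 h)

theorem FinD_solves {m : Fin 3 → ℝ} {u : ℂ} (hu : ‖u‖ = 1) {σ : Equiv.Perm (Fin 3)}
    (hσ : ∀ a, m (σ a) = m a) {s : Set ℝ} {y : ℝ → Ph} (hy : Solves (fld m) (frame m) s y) :
    Solves (fld m) (frame m) s (fun t => FinD_g u σ (y t)) := by
  intro t ht
  refine ⟨FinD_frame hu hσ (hy t ht).1, ?_⟩
  change HasDerivWithinAt (fun t => FinD_g u σ (y t)) (fld m (FinD_g u σ (y t))) s t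
  rw [FinD_fld hu hσ]
  exact (FinD_g u σ).hasFDerivAt.comp_hasDerivWithinAt t (hy t ht).2

theorem FinD_iter {m : Fin 3 → ℝ} {u : ℂ} (hu : ‖u‖ = 1) {σ : Equiv.Perm (Fin 3)}
    (hσ : ∀ a, m (σ a) = m a) {s : Set ℝ} {y : ℝ → Ph} (hy : Solves (fld m) (frame m) s y)
    (n : ℕ) : Solves (fld m) (frame m) s (fun t => (FinD_g u σ)^[n] (y t)) := by
  induction n with
  | zero => exact hy
  | succ n ih =>
    have := FinD_solves hu hσ ih
    simpa only [Function.iterate_succ_apply'] using this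

theorem FinD_iter_apply (u : ℂ) (σ : Equiv.Perm (Fin 3)) (p : Ph) (n : ℕ) :
    (FinD_g u σ)^[n] p = (fun a => u ^ n * p.1 ((σ ^ n) a), fun a => u ^ n * p.2 ((σ ^ n) a)) := by
  induction n with
  | zero => simp
  | succ n ih =>
    rw [Function.iterate_succ_apply', ih, FinD_g_apply]
    refine Prod.ext (funext fun a => ?_) (funext fun a => ?_)
    · simp only
      rw [pow_succ' u, mul_assoc, pow_succ σ, Equiv.Perm.mul_apply]
    · simp only
      rw [pow_succ' u, mul_assoc, pow_succ σ, Equiv.Perm.mul_apply]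

theorem FinD_long {m : Fin 3 → ℝ} {u : ℂ} (hu : ‖u‖ = 1) {σ : Equiv.Perm (Fin 3)}
    (hσ : ∀ a, m (σ a) = m a) {T : ℝ} (hT : 0 < T) {y : ℝ → Ph}
    (hy : Solves (fld m) (frame m) (Icc 0 T) y) (hyw : y T = FinD_g u σ (y 0)) (n : ℕ) :
    ∃ Y : ℝ → Ph, Solves (fld m) (frame m) (Icc 0 ((n + 1 : ℕ) * T)) Y ∧ Y 0 = y 0 ∧
      Y ((n + 1 : ℕ) * T) = (FinD_g u σ)^[n + 1] (y 0) := by
  induction n with
  | zero =>
    refine ⟨y, ?_, rfl, ?_⟩
    · simpa using hy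
    · simpa using hyw
  | succ n ih =>
    obtain ⟨Y, hY, hY0, hYn⟩ := ih
    have h1 := hY.concat (by positivity) hT (FinD_iter hu hσ hy (n + 1)) hYn.symm
    refine ⟨fun t => if t ≤ ((n + 1 : ℕ) : ℝ) * T then Y t
      else (FinD_g u σ)^[n + 1] (y (t - ((n + 1 : ℕ) : ℝ) * T)), ?_, ?_, ?_⟩
    · have e : ((n + 1 + 1 : ℕ) : ℝ) * T = ((n + 1 : ℕ) : ℝ) * T + T := by
        push_cast
        ring
      rw [e]
      exact h1
    · simp only
      rw [if_pos (by positivity), hY0]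
    · simp only
      have e : ((n + 1 + 1 : ℕ) : ℝ) * T - ((n + 1 : ℕ) : ℝ) * T = T := by
        push_cast
        ring
      rw [if_neg, e, hyw, ← Function.iterate_succ_apply]
      rw [not_le]
      have : ((n + 1 : ℕ) : ℝ) < ((n + 1 + 1 : ℕ) : ℝ) := by exact_mod_cast Nat.lt_succ_self _
      exact mul_lt_mul_of_pos_right this hT

theorem FinD_six (σ : Equiv.Perm (Fin 3)) : σ ^ 6 = 1 := by
  have h : Fintype.card (Equiv.Perm (Fin 3)) = 6 := by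
    rw [Fintype.card_perm, Fintype.card_fin]
    rfl
  rw [← h]
  exact pow_card_eq_one

theorem exists_twisted_arc {m : Fin 3 → ℝ} {τ : ℝ} (hτ : 0 < τ) {u : ℂ} (hu : ‖u‖ = 1)
    {σ : Equiv.Perm (Fin 3)} (hσ : ∀ a, m (σ a) = m a) {w w1 : ℝ → Fin 3 → ℂ}
    (h : Sol m τ w w1) (hcom : ∀ t ∈ Icc 0 τ, ∑ a, m a • w t a = 0)
    (hnc : ∀ t ∈ Icc 0 τ, ∀ a b, a ≠ b → w t a ≠ w t b)
    (h1 : ∀ a, w τ a = u * w 0 (σ a)) (h2 : ∀ a, w1 τ a = u * w1 0 (σ a)) :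
    ∃ y : ℝ → (Fin 3 → ℂ) × (Fin 3 → ℂ), IsSolution m (Icc 0 (6 * τ)) y ∧
      y 0 = (w 0, w1 0) ∧ y (6 * τ) = u ^ 6 • y 0 := by
  have hcom1 : ∀ t ∈ Icc 0 τ, ∑ a, m a • w1 t a = 0 := by
    intro t ht
    have hd : ∀ a, HasDerivWithinAt (fun s => w s a) (w1 t a) (Icc 0 τ) t := fun a =>
      (hasDerivWithinAt_pi.1 (h t ht).1) a
    have hs : HasDerivWithinAt (fun s => ∑ a, m a • w s a) (∑ a, m a • w1 t a) (Icc 0 τ) t :=
      HasDerivWithinAt.fun_sum fun a _ => (hd a).const_smul (m a)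
    have h0 : HasDerivWithinAt (fun s => ∑ a, m a • w s a) 0 (Icc 0 τ) t :=
      (hasDerivWithinAt_const t (Icc 0 τ) (0 : ℂ)).congr (fun s hs => hcom s hs) (hcom t ht)
    exact (uniqueDiffOn_Icc hτ t ht).eq_deriv _ hs h0
  have hy : Solves (fld m) (frame m) (Icc 0 τ) (fun t => (w t, w1 t)) := by
    intro t ht
    exact ⟨⟨hnc t ht, hcom t ht, hcom1 t ht⟩, (h t ht).1.prodMk (h t ht).2⟩
  obtain ⟨Y, hY, hY0, hYn⟩ := FinD_long hu hσ hτ hy (Prod.ext (funext h1) (funext h2)) 5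
  have e : ((5 + 1 : ℕ) : ℝ) * τ = 6 * τ := by norm_num
  rw [e] at hY hYn
  refine ⟨Y, hY, hY0, ?_⟩
  have h6 : σ ^ 6 = 1 := FinD_six σ
  rw [hYn, hY0, FinD_iter_apply]
  change ((fun a => u ^ 6 * w 0 ((σ ^ 6) a), fun a => u ^ 6 * w1 0 ((σ ^ 6) a)) : Ph) = _
  rw [h6]
  rfl

end Pool.Agent.MP_5027f4_min
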