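import Pool.Agent.Lib_MP_5027f4_min.PotB

/-!
# Strict local minimizers of the action: close solutions have close velocities (piece FinE)
-/

open Complex Set Filter Topology MeasureTheory
open scoped Real ComplexConjugate

namespace Pool.Agent.MP_5027f4_min

open Pool.Agent.MP_5027f4_mp

theorem velocity_close {m : Fin 3 → ℝ} (hm : ∀ a, 0 < m a) {τ r : ℝ} (hτ : 0 < τ)
    (hr : 0 < r) : ∃ C > 0, ∀ (w w1 z z1 : ℝ → Fin 3 → ℂ) (ε : ℝ), Sol m τ w w1 → Sol m τ z z1 →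
      (∀ t ∈ Icc 0 τ, Sep r (z t)) → ε ≤ r / 4 →
      (∀ t ∈ Icc 0 τ, ∀ a, ‖w t a - z t a‖ ≤ ε) → ∀ a, ‖w1 0 a - z1 0 a‖ ≤ C * ε := by
  obtain ⟨L, hL, -, hlip, -⟩ := acc_lip m hm r hr
  refine ⟨2 / τ + 3 * L * τ, by positivity, ?_⟩
  intro w w1 z z1 ε hw hz hsep hε hclose a
  have h0 : (0 : ℝ) ∈ Icc 0 τ := ⟨le_rfl, hτ.le⟩
  have hτm : τ ∈ Icc 0 τ := ⟨hτ.le, le_rfl⟩
  have hε0 : 0 ≤ ε := (norm_nonneg _).trans (hclose 0 h0 a)
  -- the difference of the accelerations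
  have hacc : ∀ t ∈ Icc 0 τ, ‖acc m (w t) a - acc m (z t) a‖ ≤ 3 * L * ε := by
    intro t ht
    have h1 := hlip (z t) (fun b => w t b - z t b) (hsep t ht)
      (fun b => (hclose t ht b).trans hε) a
    have h2 : (fun b => z t b + (w t b - z t b)) = w t := by
      funext b
      ring
    rw [h2] at h1
    refine h1.trans ?_
    have h3 : ∑ b, ‖w t b - z t b‖ ≤ 3 * ε := by
      rw [Fin.sum_univ_three]
      have := hclose t ht 0
      have := hclose t ht 1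
      have := hclose t ht 2
      linarith
    calc L * ∑ b, ‖w t b - z t b‖ ≤ L * (3 * ε) := mul_le_mul_of_nonneg_left h3 hL.le
      _ = 3 * L * ε := by ring
  -- derivatives of the differences
  have hd : ∀ t ∈ Icc 0 τ, HasDerivWithinAt (fun s => w s a - z s a) (w1 t a - z1 t a)
      (Icc 0 τ) t := fun t ht =>
    (hasDerivWithinAt_pi.mp (hw t ht).1 a).sub (hasDerivWithinAt_pi.mp (hz t ht).1 a)
  have hd1 : ∀ t ∈ Icc 0 τ, HasDerivWithinAt (fun s => w1 s a - z1 s a)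
      (acc m (w t) a - acc m (z t) a) (Icc 0 τ) t := fun t ht =>
    (hasDerivWithinAt_pi.mp (hw t ht).2 a).sub (hasDerivWithinAt_pi.mp (hz t ht).2 a)
  have hv : ∀ t ∈ Icc 0 τ, ‖(w1 t a - z1 t a) - (w1 0 a - z1 0 a)‖ ≤ 3 * L * ε * τ := by
    intro t ht
    have h1 := norm_image_sub_le_of_norm_deriv_le_segment' (f := fun s => w1 s a - z1 s a)
      (C := 3 * L * ε) hd1 (fun x hx => hacc x (Ico_subset_Icc_self hx)) t ht
    refine h1.trans ?_
    rw [sub_zero]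
    exact mul_le_mul_of_nonneg_left ht.2 (by positivity)
  have hd2 : ∀ t ∈ Icc 0 τ, HasDerivWithinAt
      (fun s : ℝ => (w s a - z s a) - (s : ℂ) * (w1 0 a - z1 0 a))
      ((w1 t a - z1 t a) - (w1 0 a - z1 0 a)) (Icc 0 τ) t := by
    intro t ht
    have h1 : HasDerivWithinAt (fun s : ℝ => (s : ℂ) * (w1 0 a - z1 0 a)) (w1 0 a - z1 0 a)
        (Icc 0 τ) t := by
      have h2 := ((Complex.ofRealCLM.hasDerivAt (x := t)).hasDerivWithinAt
        (s := Icc 0 τ)).mul_const (w1 0 a - z1 0 a)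
      simpa using h2
    exact (hd t ht).sub h1
  have h4 := norm_image_sub_le_of_norm_deriv_le_segment'
    (f := fun s : ℝ => (w s a - z s a) - (s : ℂ) * (w1 0 a - z1 0 a))
    (C := 3 * L * ε * τ) hd2 (fun x hx => hv x (Ico_subset_Icc_self hx)) τ hτm
  have h5 : ((w τ a - z τ a) - (τ : ℂ) * (w1 0 a - z1 0 a)) -
      ((w 0 a - z 0 a) - ((0 : ℝ) : ℂ) * (w1 0 a - z1 0 a)) =
      (w τ a - z τ a) - (w 0 a - z 0 a) - (τ : ℂ) * (w1 0 a - z1 0 a) := by
    push_cast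
    ring
  rw [h5, sub_zero] at h4
  have h6 : τ * ‖w1 0 a - z1 0 a‖ ≤ 2 * ε + 3 * L * ε * τ * τ := by
    have h7 : ‖(τ : ℂ) * (w1 0 a - z1 0 a)‖ = τ * ‖w1 0 a - z1 0 a‖ := by
      rw [norm_mul, Complex.norm_real, Real.norm_eq_abs, abs_of_pos hτ]
    rw [← h7]
    have h8 : (τ : ℂ) * (w1 0 a - z1 0 a) = (w τ a - z τ a) - (w 0 a - z 0 a) -
        ((w τ a - z τ a) - (w 0 a - z 0 a) - (τ : ℂ) * (w1 0 a - z1 0 a)) := by ring
    rw [h8]
    refine (norm_sub_le _ _).trans (add_le_add ?_ h4)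
    refine (norm_sub_le _ _).trans ?_
    have := hclose τ hτm a
    have := hclose 0 h0 a
    linarith
  have h9 : ‖w1 0 a - z1 0 a‖ ≤ (2 * ε + 3 * L * ε * τ * τ) / τ := by
    rw [le_div_iff₀ hτ, mul_comm]
    exact h6
  refine h9.trans (le_of_eq ?_)
  field_simp

end Pool.Agent.MP_5027f4_min
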