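import Pool.Agent.Lib_MP_5027f4_min.Defs

/-!
# Paths of class `H¹`: Hoelder estimate and continuity
-/

open Complex Set Filter Topology MeasureTheory
open scoped Real ComplexConjugate

namespace Pool.Agent.MP_5027f4_min

open Pool.Agent.MP_5027f4_mp

/-- Cauchy and Schwarz -/
theorem PathA_cs {f : ℝ → ℝ} {s t : ℝ} (hst : s ≤ t) (hf : IntervalIntegrable f volume s t)
    (hf2 : IntervalIntegrable (fun r => f r ^ 2) volume s t) :
    (∫ r in s..t, f r) ^ 2 ≤ (t - s) * ∫ r in s..t, f r ^ 2 := by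
  rcases hst.eq_or_lt with h | h
  · subst h; simp
  · obtain ⟨I, hI⟩ : ∃ I : ℝ, I = ∫ r in s..t, f r := ⟨_, rfl⟩
    obtain ⟨J, hJ⟩ : ∃ J : ℝ, J = ∫ r in s..t, f r ^ 2 := ⟨_, rfl⟩
    have hpos : 0 < t - s := by linarith
    have h1 : 0 ≤ ∫ r in s..t, (f r - I / (t - s)) ^ 2 :=
      intervalIntegral.integral_nonneg hst fun r _ => sq_nonneg _
    have h2 : ∫ r in s..t, (f r - I / (t - s)) ^ 2 =
        J - 2 * (I / (t - s)) * I + (I / (t - s)) ^ 2 * (t - s) := by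
      have e1 : ∀ r, (f r - I / (t - s)) ^ 2 =
          (f r ^ 2 - (2 * (I / (t - s))) * f r) + (I / (t - s)) ^ 2 := fun r => by ring
      simp only [e1]
      rw [intervalIntegral.integral_add (hf2.sub (hf.const_mul _)) intervalIntegrable_const,
        intervalIntegral.integral_sub hf2 (hf.const_mul _), intervalIntegral.integral_const_mul,
        intervalIntegral.integral_const, ← hI, ← hJ, smul_eq_mul]
      ring
    rw [h2] at h1
    have h3 : J - 2 * (I / (t - s)) * I + (I / (t - s)) ^ 2 * (t - s) = J - I ^ 2 / (t - s) := by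
      field_simp; ring
    rw [h3] at h1
    rw [← hI, ← hJ]
    have h4 : I ^ 2 / (t - s) ≤ J := by linarith
    rw [div_le_iff₀ hpos] at h4
    linarith

theorem PathA_aux {m : Fin 3 → ℝ} {τ : ℝ} {y v : ℝ → Fin 3 → ℂ} (h : IsPath m τ y v)
    (hτ : 0 < τ) {s t : ℝ} (hs : s ∈ Icc 0 τ) (ht : t ∈ Icc 0 τ) (hst : s ≤ t) (a : Fin 3) :
    ‖y t a - y s a‖ ^ 2 ≤ (t - s) * ∫ r in (0 : ℝ)..τ, ‖v r a‖ ^ 2 := by
  have h0s : uIcc 0 s ⊆ uIcc 0 τ := by
    rw [uIcc_of_le hs.1, uIcc_of_le hτ.le]; exact Icc_subset_Icc le_rfl hs.2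
  have hst' : uIcc s t ⊆ uIcc 0 τ := by
    rw [uIcc_of_le hst, uIcc_of_le hτ.le]; exact Icc_subset_Icc hs.1 ht.2
  have h0t : uIcc 0 t ⊆ uIcc 0 τ := by
    rw [uIcc_of_le ht.1, uIcc_of_le hτ.le]; exact Icc_subset_Icc le_rfl ht.2
  have htτ : uIcc t τ ⊆ uIcc 0 τ := by
    rw [uIcc_of_le ht.2, uIcc_of_le hτ.le]; exact Icc_subset_Icc ht.1 le_rfl
  have i1 := (h.int a).mono_set h0s
  have i2 := (h.int a).mono_set hst'
  have s1 := (h.sq a).mono_set h0s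
  have s2 := (h.sq a).mono_set hst'
  have s3 := (h.sq a).mono_set htτ
  have hdiff : y t a - y s a = ∫ r in s..t, v r a := by
    rw [h.eq t ht a, h.eq s hs a, ← intervalIntegral.integral_add_adjacent_intervals i1 i2]
    ring
  have hn : ‖y t a - y s a‖ ≤ ∫ r in s..t, ‖v r a‖ := by
    rw [hdiff]; exact intervalIntegral.norm_integral_le_integral_norm hst
  have hcs := PathA_cs hst i2.norm s2
  have hmono : ∫ r in s..t, ‖v r a‖ ^ 2 ≤ ∫ r in (0 : ℝ)..τ, ‖v r a‖ ^ 2 := by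
    rw [← intervalIntegral.integral_add_adjacent_intervals (s1.trans s2) s3,
      ← intervalIntegral.integral_add_adjacent_intervals s1 s2]
    have e1 : 0 ≤ ∫ r in (0 : ℝ)..s, ‖v r a‖ ^ 2 :=
      intervalIntegral.integral_nonneg hs.1 fun r _ => sq_nonneg _
    have e2 : 0 ≤ ∫ r in t..τ, ‖v r a‖ ^ 2 :=
      intervalIntegral.integral_nonneg ht.2 fun r _ => sq_nonneg _
    linarith
  calc ‖y t a - y s a‖ ^ 2 ≤ (∫ r in s..t, ‖v r a‖) ^ 2 :=
        pow_le_pow_left₀ (norm_nonneg _) hn 2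
    _ ≤ (t - s) * ∫ r in s..t, ‖v r a‖ ^ 2 := hcs
    _ ≤ _ := mul_le_mul_of_nonneg_left hmono (by linarith)

theorem path_holder {m : Fin 3 → ℝ} {τ : ℝ} {y v : ℝ → Fin 3 → ℂ} (h : IsPath m τ y v)
    (hτ : 0 < τ) {s t : ℝ} (hs : s ∈ Icc 0 τ) (ht : t ∈ Icc 0 τ) (a : Fin 3) :
    ‖y t a - y s a‖ ^ 2 ≤ |t - s| * ∫ r in (0 : ℝ)..τ, ‖v r a‖ ^ 2 := by
  rcases le_total s t with hst | hst
  · rw [abs_of_nonneg (by linarith)]
    exact PathA_aux h hτ hs ht hst a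
  · rw [abs_sub_comm, abs_of_nonneg (by linarith), norm_sub_rev]
    exact PathA_aux h hτ ht hs hst a

theorem path_cont {m : Fin 3 → ℝ} {τ : ℝ} {y v : ℝ → Fin 3 → ℂ} (h : IsPath m τ y v)
    (hτ : 0 < τ) : ContinuousOn y (Icc 0 τ) := by
  rw [continuousOn_pi]
  intro a
  obtain ⟨B, hB⟩ : ∃ B : ℝ, B = ∫ r in (0 : ℝ)..τ, ‖v r a‖ ^ 2 := ⟨_, rfl⟩
  have hB0 : 0 ≤ B := by
    rw [hB]; exact intervalIntegral.integral_nonneg hτ.le fun r _ => sq_nonneg _
  intro s hs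
  rw [Metric.continuousWithinAt_iff]
  intro ε hε
  refine ⟨ε ^ 2 / (B + 1), by positivity, ?_⟩
  intro t ht hd
  have h1 := path_holder h hτ hs ht a
  rw [← hB] at h1
  rw [Real.dist_eq] at hd
  have h2 : |t - s| * B < ε ^ 2 := by
    rw [lt_div_iff₀ (by positivity)] at hd
    have := abs_nonneg (t - s)
    nlinarith
  rw [dist_eq_norm]
  exact lt_of_pow_lt_pow_left₀ 2 hε.le (h1.trans_lt h2)

end Pool.Agent.MP_5027f4_min
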