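import Pool.Agent.Lib_MP_5027f4_min.Defs

open Complex Set Filter Topology MeasureTheory
open scoped Real ComplexConjugate

namespace Pool.Agent.MP_5027f4_min

open Pool.Agent.MP_5027f4_mp

/-- integration by parts for `F = F 0 + ∫ f` against a `C¹` function -/
theorem PathB_scalar {τ : ℝ} (hτ : 0 < τ) {F f g g' : ℝ → ℝ}
    (hf : IntervalIntegrable f volume 0 τ)
    (hF : ∀ t ∈ Icc 0 τ, F t = F 0 + ∫ s in (0 : ℝ)..t, f s)
    (hg : ∀ t, HasDerivAt g (g' t) t) (hg' : Continuous g') :
    IntervalIntegrable (fun t => f t * g t) volume 0 τ ∧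
    IntervalIntegrable (fun t => F t * g' t) volume 0 τ ∧
    ∫ t in (0 : ℝ)..τ, f t * g t =
      F τ * g τ - F 0 * g 0 - ∫ t in (0 : ℝ)..τ, F t * g' t := by
  have hu : uIcc 0 τ = Icc 0 τ := uIcc_of_le hτ.le
  have hgd : deriv g = g' := funext fun t => (hg t).deriv
  have hgcd : ContDiff ℝ 1 g := by
    rw [contDiff_one_iff_deriv, hgd]
    exact ⟨fun t => (hg t).differentiableAt, hg'⟩
  have hgcont : Continuous g := hgcd.continuous
  have hgac : AbsolutelyContinuousOnInterval g 0 τ :=
    hgcd.contDiffOn.absolutelyContinuousOnInterval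
  have hPac : AbsolutelyContinuousOnInterval (fun t => F 0 + ∫ s in (0 : ℝ)..t, f s) 0 τ := by
    refine AbsolutelyContinuousOnInterval.fun_add ?_ ?_
    · exact (contDiff_const (n := 1)).contDiffOn.absolutelyContinuousOnInterval
    · exact hf.absolutelyContinuousOnInterval_intervalIntegral (by simp)
  have hPd : ∀ᵐ x, x ∈ uIcc 0 τ →
      HasDerivAt (fun t => F 0 + ∫ s in (0 : ℝ)..t, f s) (f x) x := by
    filter_upwards [hf.ae_hasDerivAt_integral] with x hx hx1
    exact (hx hx1 0 (by simp)).const_add _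
  have hFc : ContinuousOn F (uIcc 0 τ) := by
    refine hPac.continuousOn.congr ?_
    intro t ht
    rw [hu] at ht
    exact hF t ht
  have h := hgac.integral_mul_deriv_eq_deriv_mul hPac
  refine ⟨hf.mul_continuousOn hgcont.continuousOn, ?_, ?_⟩
  · exact (hFc.mul hg'.continuousOn).intervalIntegrable
  · have h1 : ∫ t in (0 : ℝ)..τ, f t * g t =
        ∫ t in (0 : ℝ)..τ, g t * deriv (fun t => F 0 + ∫ s in (0 : ℝ)..t, f s) t := by
      apply intervalIntegral.integral_congr_ae
      filter_upwards [hPd] with x hx hx1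
      rw [(hx (uIoc_subset_uIcc hx1)).deriv, mul_comm]
    have h2 : ∫ t in (0 : ℝ)..τ, F t * g' t =
        ∫ t in (0 : ℝ)..τ, deriv g t * (F 0 + ∫ s in (0 : ℝ)..t, f s) := by
      apply intervalIntegral.integral_congr
      intro t ht
      rw [hu] at ht
      simp only
      rw [hgd, ← hF t ht, mul_comm]
    rw [h1, h, h2, ← hF τ ⟨hτ.le, le_rfl⟩]
    simp only [intervalIntegral.integral_same, add_zero]
    ring

theorem PathB_comp {m : Fin 3 → ℝ} {τ : ℝ} {y v η η1 η2 : ℝ → Fin 3 → ℂ} (h : IsPath m τ y v)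
    (hτ : 0 < τ) (hη : Test η η1 η2) (a : Fin 3) :
    (IntervalIntegrable (fun t => (v t a).re * (η1 t a).re) volume 0 τ ∧
    IntervalIntegrable (fun t => (y t a).re * (η2 t a).re) volume 0 τ ∧
    ∫ t in (0 : ℝ)..τ, (v t a).re * (η1 t a).re =
      (y τ a).re * (η1 τ a).re - (y 0 a).re * (η1 0 a).re -
        ∫ t in (0 : ℝ)..τ, (y t a).re * (η2 t a).re) ∧
    (IntervalIntegrable (fun t => (v t a).im * (η1 t a).im) volume 0 τ ∧
    IntervalIntegrable (fun t => (y t a).im * (η2 t a).im) volume 0 τ ∧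
    ∫ t in (0 : ℝ)..τ, (v t a).im * (η1 t a).im =
      (y τ a).im * (η1 τ a).im - (y 0 a).im * (η1 0 a).im -
        ∫ t in (0 : ℝ)..τ, (y t a).im * (η2 t a).im) := by
  have hη2 : ∀ t, HasDerivAt (fun t => η1 t a) (η2 t a) t := fun t =>
    (hasDerivAt_pi.1 (hη.d2 t)) a
  have hc2 : Continuous fun t => η2 t a := (continuous_apply a).comp hη.c2
  have hint : ∀ t ∈ Icc 0 τ, IntervalIntegrable (fun t => v t a) volume 0 t := by
    intro t ht
    refine (h.int a).mono_set ?_
    rw [uIcc_of_le ht.1, uIcc_of_le hτ.le]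
    exact Icc_subset_Icc_right ht.2
  constructor
  · refine PathB_scalar hτ (F := fun t => (y t a).re) (f := fun t => (v t a).re)
      (g := fun t => (η1 t a).re) (g' := fun t => (η2 t a).re) ?_ ?_ ?_ ?_
    · exact ⟨Complex.reCLM.integrable_comp (h.int a).1, Complex.reCLM.integrable_comp (h.int a).2⟩
    · intro t ht
      have h1 := Complex.reCLM.intervalIntegral_comp_comm (hint t ht)
      simp only [Complex.reCLM_apply] at h1
      rw [h1, h.eq t ht a, Complex.add_re]
    · intro t
      exact Complex.reCLM.hasFDerivAt.comp_hasDerivAt t (hη2 t)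
    · exact Complex.continuous_re.comp hc2
  · refine PathB_scalar hτ (F := fun t => (y t a).im) (f := fun t => (v t a).im)
      (g := fun t => (η1 t a).im) (g' := fun t => (η2 t a).im) ?_ ?_ ?_ ?_
    · exact ⟨Complex.imCLM.integrable_comp (h.int a).1, Complex.imCLM.integrable_comp (h.int a).2⟩
    · intro t ht
      have h1 := Complex.imCLM.intervalIntegral_comp_comm (hint t ht)
      simp only [Complex.imCLM_apply] at h1
      rw [h1, h.eq t ht a, Complex.add_im]
    · intro t
      exact Complex.imCLM.hasFDerivAt.comp_hasDerivAt t (hη2 t)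
    · exact Complex.continuous_im.comp hc2

/- PathB.lean -/
theorem path_ibp {m : Fin 3 → ℝ} {τ : ℝ} {y v η η1 η2 : ℝ → Fin 3 → ℂ} (h : IsPath m τ y v)
    (hτ : 0 < τ) (hη : Test η η1 η2) :
    IntervalIntegrable (fun t => ipm m (v t) (η1 t)) volume 0 τ ∧
    ∫ t in (0 : ℝ)..τ, ipm m (v t) (η1 t) =
      ipm m (y τ) (η1 τ) - ipm m (y 0) (η1 0) - ∫ t in (0 : ℝ)..τ, ipm m (y t) (η2 t) := by
  have hI : ∀ a, IntervalIntegrable
      (fun t => m a * ((v t a).re * (η1 t a).re + (v t a).im * (η1 t a).im)) volume 0 τ :=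
    fun a => ((PathB_comp h hτ hη a).1.1.add (PathB_comp h hτ hη a).2.1).const_mul _
  have hJ : ∀ a, IntervalIntegrable
      (fun t => m a * ((y t a).re * (η2 t a).re + (y t a).im * (η2 t a).im)) volume 0 τ :=
    fun a => ((PathB_comp h hτ hη a).1.2.1.add (PathB_comp h hτ hη a).2.2.1).const_mul _
  unfold ipm ip
  constructor
  · have := IntervalIntegrable.sum Finset.univ (fun a _ => hI a)
    refine this.congr ?_
    intro t _
    simp [Finset.sum_apply]
  · rw [intervalIntegral.integral_finsetSum (fun a _ => hI a),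
      intervalIntegral.integral_finsetSum (fun a _ => hJ a), ← Finset.sum_sub_distrib,
      ← Finset.sum_sub_distrib]
    refine Finset.sum_congr rfl fun a _ => ?_
    obtain ⟨⟨h1, h2, h3⟩, ⟨h4, h5, h6⟩⟩ := PathB_comp h hτ hη a
    rw [intervalIntegral.integral_const_mul, intervalIntegral.integral_const_mul,
      intervalIntegral.integral_add h1 h4, intervalIntegral.integral_add h2 h5, h3, h6]
    ring

end Pool.Agent.MP_5027f4_min
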