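import Pool.Agent.Lib_MP_5027f4_min.PathB

open Complex Set Filter Topology MeasureTheory
open scoped Real ComplexConjugate

namespace Pool.Agent.MP_5027f4_min

open Pool.Agent.MP_5027f4_mp

theorem PathC_cont_pot (m : Fin 3 → ℝ) {D : Set ℝ} {w : ℝ → Fin 3 → ℂ}
    (hw : ∀ a, ContinuousOn (fun t => w t a) D)
    (h : ∀ t ∈ D, ∀ a b, a ≠ b → w t a ≠ w t b) :
    ContinuousOn (fun t => pot m (w t)) D := by
  have key : ∀ a b : Fin 3, a ≠ b →
      ContinuousOn (fun t => m a * m b / ‖w t a - w t b‖) D := by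
    intro a b hab
    refine ContinuousOn.div continuousOn_const ((hw a).sub (hw b)).norm ?_
    intro t ht
    rw [norm_ne_zero_iff, sub_ne_zero]
    exact h t ht a b hab
  unfold pot
  exact ((key 0 1 (by decide)).add (key 1 2 (by decide))).add (key 2 0 (by decide))

theorem PathC_cont {m : Fin 3 → ℝ} {τ : ℝ} {y v : ℝ → Fin 3 → ℂ} (h : IsPath m τ y v)
    (hτ : 0 < τ) (a : Fin 3) : ContinuousOn (fun t => y t a) (Icc 0 τ) := by
  have h1 : ContinuousOn (fun t => y 0 a + ∫ s in (0 : ℝ)..t, v s a) (Icc 0 τ) := by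
    refine continuousOn_const.add ?_
    have := intervalIntegral.continuousOn_primitive_interval' (h.int a) (left_mem_uIcc)
    rwa [uIcc_of_le hτ.le] at this
  exact h1.congr fun t ht => h.eq t ht a

theorem PathC_norm_sq (z w : ℂ) (s : ℝ) :
    ‖z + s • w‖ ^ 2 = ‖z‖ ^ 2 + s * (2 * ip z w) + s ^ 2 * ip w w := by
  rw [← Complex.normSq_eq_norm_sq, ← Complex.normSq_eq_norm_sq]
  simp only [Complex.normSq_apply, ip, Complex.add_re, Complex.add_im, Complex.real_smul,
    Complex.mul_re, Complex.mul_im, Complex.ofReal_re, Complex.ofReal_im]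
  ring

theorem PathC_isPath {m : Fin 3 → ℝ} {τ : ℝ} {y v η η1 η2 : ℝ → Fin 3 → ℂ}
    (h : IsPath m τ y v) (hτ : 0 < τ) (hη : Test η η1 η2) (hcom : ∀ t, ∑ a, m a • η t a = 0)
    (s : ℝ) :
    IsPath m τ (fun t a => y t a + s • η t a) (fun t a => v t a + s • η1 t a) := by
  have hc1 : ∀ a, Continuous fun t => η1 t a := fun a =>
    continuous_iff_continuousAt.2 fun t => ((hasDerivAt_pi.1 (hη.d2 t)) a).continuousAt
  refine ⟨?_, ?_, ?_, ?_⟩
  · intro a
    exact (h.int a).add (((hc1 a).const_smul s).intervalIntegrable _ _)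
  · intro a
    have hB := PathB_comp h hτ hη a
    have h1 : IntervalIntegrable (fun t => ip (v t a) (η1 t a)) volume 0 τ :=
      hB.1.1.add hB.2.1
    have h2 : IntervalIntegrable (fun t => ip (η1 t a) (η1 t a)) volume 0 τ := by
      apply Continuous.intervalIntegrable
      unfold ip
      exact ((Complex.continuous_re.comp (hc1 a)).mul (Complex.continuous_re.comp (hc1 a))).add
        ((Complex.continuous_im.comp (hc1 a)).mul (Complex.continuous_im.comp (hc1 a)))
    have h3 := ((h.sq a).add ((h1.const_mul 2).const_mul s)).add (h2.const_mul (s ^ 2))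
    refine h3.congr ?_
    intro t _
    simp only [PathC_norm_sq]
  · intro t ht a
    have hint : IntervalIntegrable (fun t => v t a) volume 0 t := by
      refine (h.int a).mono_set ?_
      rw [uIcc_of_le ht.1, uIcc_of_le hτ.le]
      exact Icc_subset_Icc_right ht.2
    have hF : ∫ r in (0 : ℝ)..t, η1 r a = η t a - η 0 a := by
      refine intervalIntegral.integral_eq_sub_of_hasDerivAt
        (fun r _ => (hasDerivAt_pi.1 (hη.d1 r)) a) ((hc1 a).intervalIntegrable _ _)
    have h4 : IntervalIntegrable (fun r => s • η1 r a) volume 0 t :=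
      ((hc1 a).const_smul s).intervalIntegrable _ _
    rw [intervalIntegral.integral_add hint h4, intervalIntegral.integral_smul, hF, h.eq t ht a,
      smul_sub]
    ring
  · intro t ht
    have h1 := h.com t ht
    have h2 := hcom t
    simp only [smul_add, Finset.sum_add_distrib, h1, zero_add]
    have : ∑ a, m a • s • η t a = s • ∑ a, m a • η t a := by
      rw [Finset.smul_sum]
      exact Finset.sum_congr rfl fun a _ => smul_comm _ _ _
    rw [this, h2, smul_zero]

/- PathC.lean -/
theorem action_add {m : Fin 3 → ℝ} (hm : ∀ a, 0 < m a) {τ r : ℝ} (hr : 0 < r)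
    {y v η η1 η2 : ℝ → Fin 3 → ℂ}
    (h : IsPath m τ y v) (hτ : 0 < τ) (hη : Test η η1 η2) (hcom : ∀ t, ∑ a, m a • η t a = 0)
    (hy : ∀ t ∈ Icc 0 τ, Sep r (y t)) (s : ℝ) (hs : ∀ t ∈ Icc 0 τ, ∀ a, ‖s • η t a‖ ≤ r / 4) :
    IsPath m τ (fun t a => y t a + s • η t a) (fun t a => v t a + s • η1 t a) ∧
    action m τ (fun t a => y t a + s • η t a) (fun t a => v t a + s • η1 t a) =
      action m τ y v + s * (∫ t in (0 : ℝ)..τ, ipm m (v t) (η1 t)) +
      s ^ 2 / 2 * (∫ t in (0 : ℝ)..τ, ipm m (η1 t) (η1 t)) +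
      ∫ t in (0 : ℝ)..τ, (pot m (fun a => y t a + s • η t a) - pot m (y t)) := by
  have hP := PathC_isPath h hτ hη hcom s
  refine ⟨hP, ?_⟩
  have hc1 : ∀ a, Continuous fun t => η1 t a := fun a =>
    continuous_iff_continuousAt.2 fun t => ((hasDerivAt_pi.1 (hη.d2 t)) a).continuousAt
  -- continuity of the force function along both paths
  have hn1 : ∀ t ∈ Icc 0 τ, ∀ a b, a ≠ b → y t a ≠ y t b := by
    intro t ht a b hab he
    have := hy t ht a b hab
    rw [he, sub_self, norm_zero] at this
    linarith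
  have hn2 : ∀ t ∈ Icc 0 τ, ∀ a b, a ≠ b → y t a + s • η t a ≠ y t b + s • η t b := by
    intro t ht a b hab he
    have h1 := hy t ht a b hab
    have h2 : y t a - y t b = s • η t b - s • η t a := by linear_combination he
    have h3 : ‖y t a - y t b‖ ≤ r / 4 + r / 4 := by
      rw [h2]
      exact (norm_sub_le _ _).trans (add_le_add (hs t ht b) (hs t ht a))
    linarith
  have hp1 : IntervalIntegrable (fun t => pot m (y t)) volume 0 τ := by
    apply ContinuousOn.intervalIntegrable
    rw [uIcc_of_le hτ.le]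
    exact PathC_cont_pot m (PathC_cont h hτ) hn1
  have hp2 : IntervalIntegrable (fun t => pot m (fun a => y t a + s • η t a)) volume 0 τ := by
    apply ContinuousOn.intervalIntegrable
    rw [uIcc_of_le hτ.le]
    exact PathC_cont_pot m (w := fun t a => y t a + s • η t a) (PathC_cont hP hτ) hn2
  have hvI : IntervalIntegrable (fun t => ipm m (v t) (η1 t)) volume 0 τ := (path_ibp h hτ hη).1
  have hηI : IntervalIntegrable (fun t => ipm m (η1 t) (η1 t)) volume 0 τ := by
    apply Continuous.intervalIntegrable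
    unfold ipm ip
    refine continuous_finsetSum _ fun a _ => continuous_const.mul ?_
    exact ((Complex.continuous_re.comp (hc1 a)).mul (Complex.continuous_re.comp (hc1 a))).add
        ((Complex.continuous_im.comp (hc1 a)).mul (Complex.continuous_im.comp (hc1 a)))
  have hK : IntervalIntegrable (fun t => (∑ a, m a * ‖v t a‖ ^ 2) / 2) volume 0 τ := by
    have := (IntervalIntegrable.sum Finset.univ
      (fun a _ => (h.sq a).const_mul (m a))).div_const 2
    refine this.congr ?_
    intro t _
    simp [Finset.sum_apply]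
  have hpt : ∀ t, (∑ a, m a * ‖v t a + s • η1 t a‖ ^ 2) / 2 +
      pot m (fun a => y t a + s • η t a) =
      (((∑ a, m a * ‖v t a‖ ^ 2) / 2 + pot m (y t)) + s * ipm m (v t) (η1 t)) +
        s ^ 2 / 2 * ipm m (η1 t) (η1 t) +
        (pot m (fun a => y t a + s • η t a) - pot m (y t)) := by
    intro t
    have h1 : ∑ a, m a * ‖v t a + s • η1 t a‖ ^ 2 = ∑ a, m a * ‖v t a‖ ^ 2 +
        s * (2 * ipm m (v t) (η1 t)) + s ^ 2 * ipm m (η1 t) (η1 t) := by
      unfold ipm
      rw [Finset.mul_sum, Finset.mul_sum, Finset.mul_sum, ← Finset.sum_add_distrib,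
        ← Finset.sum_add_distrib]
      refine Finset.sum_congr rfl fun a _ => ?_
      rw [PathC_norm_sq]
      ring
    rw [h1]
    ring
  unfold action
  rw [intervalIntegral.integral_congr (g := fun t =>
      (((∑ a, m a * ‖v t a‖ ^ 2) / 2 + pot m (y t)) + s * ipm m (v t) (η1 t)) +
        s ^ 2 / 2 * ipm m (η1 t) (η1 t) +
        (pot m (fun a => y t a + s • η t a) - pot m (y t))) (fun t _ => hpt t),
    intervalIntegral.integral_add
      (((hK.add hp1).add (hvI.const_mul s)).add (hηI.const_mul (s ^ 2 / 2))) (hp2.sub hp1),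
    intervalIntegral.integral_add ((hK.add hp1).add (hvI.const_mul s))
      (hηI.const_mul (s ^ 2 / 2)),
    intervalIntegral.integral_add (hK.add hp1) (hvI.const_mul s),
    intervalIntegral.integral_const_mul, intervalIntegral.integral_const_mul]

/-- the kinetic part is controlled by the action -/
theorem energy_le_action {m : Fin 3 → ℝ} (hm : ∀ a, 0 < m a) {τ r : ℝ} (hr : 0 < r)
    {y v : ℝ → Fin 3 → ℂ} (h : IsPath m τ y v) (hτ : 0 < τ) (hy : ∀ t ∈ Icc 0 τ, Sep r (y t))
    (a : Fin 3) : m a * (∫ t in (0 : ℝ)..τ, ‖v t a‖ ^ 2) ≤ 2 * action m τ y v := by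
  have hn1 : ∀ t ∈ Icc 0 τ, ∀ a b, a ≠ b → y t a ≠ y t b := by
    intro t ht a b hab he
    have := hy t ht a b hab
    rw [he, sub_self, norm_zero] at this
    linarith
  have hp1 : IntervalIntegrable (fun t => pot m (y t)) volume 0 τ := by
    apply ContinuousOn.intervalIntegrable
    rw [uIcc_of_le hτ.le]
    exact PathC_cont_pot m (PathC_cont h hτ) hn1
  have hK : IntervalIntegrable (fun t => (∑ a, m a * ‖v t a‖ ^ 2) / 2) volume 0 τ := by
    have := (IntervalIntegrable.sum Finset.univ
      (fun a _ => (h.sq a).const_mul (m a))).div_const 2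
    refine this.congr ?_
    intro t _
    simp [Finset.sum_apply]
  unfold action
  rw [← intervalIntegral.integral_const_mul, ← intervalIntegral.integral_const_mul]
  refine intervalIntegral.integral_mono_on hτ.le ((h.sq a).const_mul (m a))
    ((hK.add hp1).const_mul 2) ?_
  intro t _
  have h1 : m a * ‖v t a‖ ^ 2 ≤ ∑ b, m b * ‖v t b‖ ^ 2 :=
    Finset.single_le_sum (f := fun b => m b * ‖v t b‖ ^ 2)
      (fun b _ => mul_nonneg (hm b).le (sq_nonneg _)) (Finset.mem_univ a)
  have h2 : 0 ≤ pot m (y t) := by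
    unfold pot
    have := fun a b : Fin 3 => div_nonneg (mul_nonneg (hm a).le (hm b).le)
      (norm_nonneg (y t a - y t b))
    exact add_nonneg (add_nonneg (this 0 1) (this 1 2)) (this 2 0)
  linarith

end Pool.Agent.MP_5027f4_min
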