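import Pool.Agent.Lib_MP_5027f4_min.Defs

/-!
# Second order expansion of the force function
-/

open Complex Set Filter Topology MeasureTheory
open scoped Real ComplexConjugate

namespace Pool.Agent.MP_5027f4_min

open Pool.Agent.MP_5027f4_mp

theorem PotA_norm_sq (z : ℂ) : ‖z‖ ^ 2 = z.re * z.re + z.im * z.im := by
  rw [Complex.sq_norm, Complex.normSq_apply]

theorem PotA_abs_ip (z w : ℂ) : |ip z w| ≤ ‖z‖ * ‖w‖ := by
  apply abs_le_of_sq_le_sq _ (by positivity)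
  rw [mul_pow, PotA_norm_sq, PotA_norm_sq, ip]
  nlinarith [sq_nonneg (z.re * w.im - z.im * w.re)]

theorem PotA_norm_add_sq (z w : ℂ) : ‖z + w‖ ^ 2 = ‖z‖ ^ 2 + 2 * ip z w + ‖w‖ ^ 2 := by
  rw [PotA_norm_sq, PotA_norm_sq, PotA_norm_sq, ip, add_re, add_im]
  ring

/-- Expansion of `1/|z + w|`. -/
theorem PotA_inv_expand {r : ℝ} (hr : 0 < r) {z w : ℂ} (hz : r ≤ ‖z‖) (hw : ‖w‖ ≤ r / 2) :
    |1 / ‖z + w‖ - 1 / ‖z‖ + ip z w / ‖z‖ ^ 3| ≤ 6 / r ^ 3 * ‖w‖ ^ 2 := by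
  have hsq := PotA_norm_add_sq z w
  have hip := PotA_abs_ip z w
  have hA1 : ‖z‖ ≤ ‖z + w‖ + ‖w‖ := by
    calc ‖z‖ = ‖(z + w) - w‖ := by ring_nf
      _ ≤ _ := norm_sub_le _ _
  have hA2 : ‖z + w‖ ≤ ‖z‖ + ‖w‖ := norm_add_le _ _
  obtain ⟨A, hA⟩ : ∃ A, A = ‖z‖ := ⟨_, rfl⟩
  obtain ⟨B, hB⟩ : ∃ B, B = ‖z + w‖ := ⟨_, rfl⟩
  obtain ⟨W, hW⟩ : ∃ W, W = ‖w‖ := ⟨_, rfl⟩
  obtain ⟨p, hp⟩ : ∃ p, p = ip z w := ⟨_, rfl⟩
  have hW0 : 0 ≤ W := hW ▸ norm_nonneg _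
  rw [← hA] at hz
  rw [← hW] at hw
  rw [← hA, ← hB, ← hW, ← hp] at hsq
  rw [← hA, ← hW, ← hp] at hip
  rw [← hA, ← hB, ← hW] at hA1 hA2
  rw [← hA, ← hB, ← hW, ← hp]
  have hA0 : 0 < A := lt_of_lt_of_le hr hz
  have hBr : r / 2 ≤ B := by linarith
  have hB0 : 0 < B := by linarith
  have hkey : 1 / B - 1 / A + p / A ^ 3 =
      p * ((B - A) * (B + 2 * A)) / (A ^ 3 * B * (A + B)) - W ^ 2 / (A * B * (A + B)) := by
    field_simp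
    linear_combination (-A ^ 2) * hsq
  rw [hkey]
  have hBA : |B - A| ≤ W := by
    rw [abs_le]
    constructor <;> linarith
  have h1 : |p * ((B - A) * (B + 2 * A)) / (A ^ 3 * B * (A + B))| ≤ 4 / r ^ 3 * W ^ 2 := by
    rw [abs_div, abs_mul, abs_mul, abs_of_pos (show 0 < B + 2 * A by positivity),
      abs_of_pos (show 0 < A ^ 3 * B * (A + B) by positivity), div_le_iff₀ (by positivity)]
    calc |p| * (|B - A| * (B + 2 * A)) ≤ (A * W) * (W * (2 * (A + B))) := by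
          apply mul_le_mul hip _ (by positivity) (by positivity)
          apply mul_le_mul hBA (by linarith) (by positivity) hW0
      _ = 2 * W ^ 2 * (A * (A + B)) := by ring
      _ ≤ 2 * W ^ 2 * ((A / r) ^ 2 * (2 * B / r) * (A * (A + B))) := by
          apply mul_le_mul_of_nonneg_left _ (by positivity)
          have h3 : 1 ≤ A / r := (one_le_div hr).mpr hz
          have h4 : 1 ≤ 2 * B / r := (one_le_div hr).mpr (by linarith)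
          have h5 : 1 ≤ (A / r) ^ 2 * (2 * B / r) := by
            calc (1 : ℝ) = 1 * 1 := by ring
              _ ≤ _ := mul_le_mul (one_le_pow₀ h3) h4 zero_le_one (by positivity)
          exact le_mul_of_one_le_left (by positivity) h5
      _ = 4 / r ^ 3 * W ^ 2 * (A ^ 3 * B * (A + B)) := by
          field_simp
          ring
  have h2 : |W ^ 2 / (A * B * (A + B))| ≤ 2 / r ^ 3 * W ^ 2 := by
    rw [abs_of_nonneg (by positivity), div_le_iff₀ (by positivity)]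
    have h3 : r ^ 3 ≤ 2 * (A * B * (A + B)) := by
      calc r ^ 3 = 2 * (r * (r / 2) * (r + 0)) := by ring
        _ ≤ 2 * (A * B * (A + B)) := by
          apply mul_le_mul_of_nonneg_left _ (by norm_num)
          apply mul_le_mul _ _ (by positivity) (by positivity)
          · exact mul_le_mul hz hBr (by positivity) (by positivity)
          · linarith
    calc W ^ 2 = W ^ 2 * (r ^ 3 / r ^ 3) := by field_simp
      _ ≤ W ^ 2 * ((2 * (A * B * (A + B))) / r ^ 3) := by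
          apply mul_le_mul_of_nonneg_left _ (by positivity)
          exact div_le_div_of_nonneg_right h3 (by positivity)
      _ = 2 / r ^ 3 * W ^ 2 * (A * B * (A + B)) := by ring
  calc _ ≤ |p * ((B - A) * (B + 2 * A)) / (A ^ 3 * B * (A + B))| + |W ^ 2 / (A * B * (A + B))| :=
        abs_sub _ _
    _ ≤ 4 / r ^ 3 * W ^ 2 + 2 / r ^ 3 * W ^ 2 := add_le_add h1 h2
    _ = 6 / r ^ 3 * W ^ 2 := by ring

theorem PotA_pair {r : ℝ} (hr : 0 < r) {q δ : Fin 3 → ℂ} (hq : Sep r q)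
    (hδ : ∀ a, ‖δ a‖ ≤ r / 4) {a b : Fin 3} (hab : a ≠ b) :
    |1 / ‖(q a + δ a) - (q b + δ b)‖ - 1 / ‖q a - q b‖ +
      ip (q a - q b) (δ a - δ b) / ‖q a - q b‖ ^ 3| ≤ 12 / r ^ 3 * ∑ c, ‖δ c‖ ^ 2 := by
  have h1 : (q a + δ a) - (q b + δ b) = (q a - q b) + (δ a - δ b) := by ring
  have h2 : ‖δ a - δ b‖ ≤ r / 2 := by
    have := norm_sub_le (δ a) (δ b)
    have := hδ a
    have := hδ b
    linarith
  rw [h1]
  refine (PotA_inv_expand hr (hq a b hab) h2).trans ?_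
  have h3 : ‖δ a - δ b‖ ^ 2 ≤ 2 * (‖δ a‖ ^ 2 + ‖δ b‖ ^ 2) := by
    have h4 := norm_sub_le (δ a) (δ b)
    have h5 : ‖δ a - δ b‖ ^ 2 ≤ (‖δ a‖ + ‖δ b‖) ^ 2 := pow_le_pow_left₀ (norm_nonneg _) h4 2
    nlinarith [sq_nonneg (‖δ a‖ - ‖δ b‖)]
  have h6 : ‖δ a‖ ^ 2 + ‖δ b‖ ^ 2 ≤ ∑ c, ‖δ c‖ ^ 2 := by
    rw [← Finset.sum_pair (f := fun c => ‖δ c‖ ^ 2) hab]
    exact Finset.sum_le_univ_sum_of_nonneg fun c => by positivity
  calc 6 / r ^ 3 * ‖δ a - δ b‖ ^ 2 ≤ 6 / r ^ 3 * (2 * ∑ c, ‖δ c‖ ^ 2) := by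
        apply mul_le_mul_of_nonneg_left _ (by positivity)
        linarith
    _ = _ := by ring

theorem PotA_ipm (m : Fin 3 → ℝ) (q δ : Fin 3 → ℂ) :
    ipm m (acc m q) δ = -(m 0 * m 1 * (ip (q 0 - q 1) (δ 0 - δ 1) / ‖q 0 - q 1‖ ^ 3) +
      m 1 * m 2 * (ip (q 1 - q 2) (δ 1 - δ 2) / ‖q 1 - q 2‖ ^ 3) +
      m 2 * m 0 * (ip (q 2 - q 0) (δ 2 - δ 0) / ‖q 2 - q 0‖ ^ 3)) := by
  have e10 : ‖q 1 - q 0‖ = ‖q 0 - q 1‖ := norm_sub_rev _ _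
  have e21 : ‖q 2 - q 1‖ = ‖q 1 - q 2‖ := norm_sub_rev _ _
  have e02 : ‖q 0 - q 2‖ = ‖q 2 - q 0‖ := norm_sub_rev _ _
  simp only [ipm, ip, acc_eq, Fin.sum_univ_three, add_re, add_im, Complex.smul_re, Complex.smul_im,
    smul_eq_mul, sub_re, sub_im, e10, e21, e02, sub_self]
  ring

theorem pot_expand (m : Fin 3 → ℝ) (hm : ∀ a, 0 < m a) (r : ℝ) (hr : 0 < r) :
    ∃ C > 0, ∀ q δ : Fin 3 → ℂ, Sep r q → (∀ a, ‖δ a‖ ≤ r / 4) →
      |pot m (fun a => q a + δ a) - pot m q - ipm m (acc m q) δ| ≤ C * ∑ a, ‖δ a‖ ^ 2 := by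
  have m0 := hm 0
  have m1 := hm 1
  have m2 := hm 2
  refine ⟨(m 0 * m 1 + m 1 * m 2 + m 2 * m 0) * (12 / r ^ 3), by positivity, ?_⟩
  intro q δ hq hδ
  have h01 := PotA_pair hr hq hδ (show (0 : Fin 3) ≠ 1 by decide)
  have h12 := PotA_pair hr hq hδ (show (1 : Fin 3) ≠ 2 by decide)
  have h20 := PotA_pair hr hq hδ (show (2 : Fin 3) ≠ 0 by decide)
  have hkey : pot m (fun a => q a + δ a) - pot m q - ipm m (acc m q) δ =
      m 0 * m 1 * (1 / ‖(q 0 + δ 0) - (q 1 + δ 1)‖ - 1 / ‖q 0 - q 1‖ +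
        ip (q 0 - q 1) (δ 0 - δ 1) / ‖q 0 - q 1‖ ^ 3) +
      m 1 * m 2 * (1 / ‖(q 1 + δ 1) - (q 2 + δ 2)‖ - 1 / ‖q 1 - q 2‖ +
        ip (q 1 - q 2) (δ 1 - δ 2) / ‖q 1 - q 2‖ ^ 3) +
      m 2 * m 0 * (1 / ‖(q 2 + δ 2) - (q 0 + δ 0)‖ - 1 / ‖q 2 - q 0‖ +
        ip (q 2 - q 0) (δ 2 - δ 0) / ‖q 2 - q 0‖ ^ 3) := by
    rw [PotA_ipm, pot, pot]
    ring
  rw [hkey]
  have key : ∀ (c x S : ℝ), 0 < c → |x| ≤ S → |c * x| ≤ c * S := by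
    intro c x S hc hx
    rw [abs_mul, abs_of_pos hc]
    exact mul_le_mul_of_nonneg_left hx hc.le
  calc _ ≤ _ := (abs_add_le _ _).trans (add_le_add_left (abs_add_le _ _) _)
    _ ≤ m 0 * m 1 * (12 / r ^ 3 * ∑ c, ‖δ c‖ ^ 2) + m 1 * m 2 * (12 / r ^ 3 * ∑ c, ‖δ c‖ ^ 2) +
        m 2 * m 0 * (12 / r ^ 3 * ∑ c, ‖δ c‖ ^ 2) :=
      add_le_add (add_le_add (key _ _ _ (by positivity) h01) (key _ _ _ (by positivity) h12))
        (key _ _ _ (by positivity) h20)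
    _ = _ := by ring

end Pool.Agent.MP_5027f4_min
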