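import Pool.Agent.Lib_MP_5027f4_min.Defs

/-!
# Elementary facts on the force function and on the accelerations
-/

open Complex Set Filter Topology MeasureTheory
open scoped Real ComplexConjugate

namespace Pool.Agent.MP_5027f4_min

open Pool.Agent.MP_5027f4_mp

/-- `1/|z+w| - 1/|z|`. -/
theorem PotB_inv {r : ℝ} (hr : 0 < r) {z w : ℂ} (hz : r ≤ ‖z‖) (hw : ‖w‖ ≤ r / 2) :
    |1 / ‖z + w‖ - 1 / ‖z‖| ≤ 2 / r ^ 2 * ‖w‖ := by
  have hA1 : ‖z‖ ≤ ‖z + w‖ + ‖w‖ := by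
    calc ‖z‖ = ‖(z + w) - w‖ := by ring_nf
      _ ≤ _ := norm_sub_le _ _
  have hA2 : ‖z + w‖ ≤ ‖z‖ + ‖w‖ := norm_add_le _ _
  have hA0 : 0 < ‖z‖ := lt_of_lt_of_le hr hz
  have hBr : r / 2 ≤ ‖z + w‖ := by linarith
  have hB0 : 0 < ‖z + w‖ := by linarith
  have h1 : 1 / ‖z + w‖ - 1 / ‖z‖ = (‖z‖ - ‖z + w‖) / (‖z + w‖ * ‖z‖) := by
    field_simp
  rw [h1, abs_div, abs_of_pos (mul_pos hB0 hA0), div_le_iff₀ (mul_pos hB0 hA0)]
  have h2 : |‖z‖ - ‖z + w‖| ≤ ‖w‖ := by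
    rw [abs_le]
    constructor <;> linarith
  have h3 : r ^ 2 ≤ 2 * (‖z + w‖ * ‖z‖) := by
    calc r ^ 2 = 2 * (r / 2 * r) := by ring
      _ ≤ _ := by
        apply mul_le_mul_of_nonneg_left _ (by norm_num)
        exact mul_le_mul hBr hz hr.le hB0.le
  calc |‖z‖ - ‖z + w‖| ≤ ‖w‖ * 1 := by rw [mul_one]; exact h2
    _ ≤ ‖w‖ * ((2 * (‖z + w‖ * ‖z‖)) / r ^ 2) := by
      apply mul_le_mul_of_nonneg_left _ (norm_nonneg _)
      rw [one_le_div (by positivity)]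
      exact h3
    _ = _ := by ring

/-- the function `z / |z|³` is Lipschitz -/
theorem PotB_F {r : ℝ} (hr : 0 < r) {z w : ℂ} (hz : r ≤ ‖z‖) (hw : ‖w‖ ≤ r / 2) (c : ℝ) :
    ‖(c / ‖z + w‖ ^ 3) • (z + w) - (c / ‖z‖ ^ 3) • z‖ ≤ |c| * (22 / r ^ 3 * ‖w‖) := by
  have hA1 : ‖z‖ ≤ ‖z + w‖ + ‖w‖ := by
    calc ‖z‖ = ‖(z + w) - w‖ := by ring_nf
      _ ≤ _ := norm_sub_le _ _
  have hA2 : ‖z + w‖ ≤ ‖z‖ + ‖w‖ := norm_add_le _ _
  have hA0 : 0 < ‖z‖ := lt_of_lt_of_le hr hz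
  have hBr : r / 2 ≤ ‖z + w‖ := by linarith
  have hB0 : 0 < ‖z + w‖ := by linarith
  obtain ⟨A, hA⟩ : ∃ A, A = ‖z‖ := ⟨_, rfl⟩
  obtain ⟨B, hB⟩ : ∃ B, B = ‖z + w‖ := ⟨_, rfl⟩
  have h1 : (c / ‖z + w‖ ^ 3) • (z + w) - (c / ‖z‖ ^ 3) • z =
      c • ((1 / B ^ 3) • w + (1 / B ^ 3 - 1 / A ^ 3) • z) := by
    rw [← hA, ← hB]
    simp only [Complex.real_smul]
    push_cast
    ring
  rw [h1, norm_smul, Real.norm_eq_abs]
  apply mul_le_mul_of_nonneg_left _ (abs_nonneg c)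
  rw [← hA] at hz hA0
  rw [← hB] at hBr hB0
  rw [← hA, ← hB] at hA1 hA2
  have hB3 : 1 / B ^ 3 ≤ 8 / r ^ 3 := by
    rw [div_le_div_iff₀ (by positivity) (by positivity)]
    have : (r / 2) ^ 3 ≤ B ^ 3 := pow_le_pow_left₀ (by positivity) hBr 3
    calc 1 * r ^ 3 = 8 * (r / 2) ^ 3 := by ring
      _ ≤ 8 * B ^ 3 := by linarith
  have h2 : ‖(1 / B ^ 3) • w‖ ≤ 8 / r ^ 3 * ‖w‖ := by
    rw [norm_smul, Real.norm_eq_abs, abs_of_pos (by positivity)]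
    exact mul_le_mul_of_nonneg_right hB3 (norm_nonneg w)
  have h3 : |1 / B ^ 3 - 1 / A ^ 3| * A ≤ 14 / r ^ 3 * ‖w‖ := by
    have h4 : 1 / B ^ 3 - 1 / A ^ 3 = (A - B) * ((A ^ 2 + A * B + B ^ 2) / (A ^ 3 * B ^ 3)) := by
      field_simp
      ring
    have h5 : |A - B| ≤ ‖w‖ := by
      rw [abs_le]
      constructor <;> linarith
    rw [h4, abs_mul, abs_of_pos (show 0 < (A ^ 2 + A * B + B ^ 2) / (A ^ 3 * B ^ 3) by positivity)]
    have h6 : (A ^ 2 + A * B + B ^ 2) / (A ^ 3 * B ^ 3) * A = 1 / B ^ 3 + 1 / (A * B ^ 2) +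
        1 / (A ^ 2 * B) := by
      field_simp
    have h7 : 1 / (A * B ^ 2) ≤ 4 / r ^ 3 := by
      rw [div_le_div_iff₀ (by positivity) (by positivity)]
      have : r * (r / 2) ^ 2 ≤ A * B ^ 2 :=
        mul_le_mul hz (pow_le_pow_left₀ (by positivity) hBr 2) (by positivity) hA0.le
      calc 1 * r ^ 3 = 4 * (r * (r / 2) ^ 2) := by ring
        _ ≤ 4 * (A * B ^ 2) := by linarith
    have h8 : 1 / (A ^ 2 * B) ≤ 2 / r ^ 3 := by
      rw [div_le_div_iff₀ (by positivity) (by positivity)]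
      have : r ^ 2 * (r / 2) ≤ A ^ 2 * B :=
        mul_le_mul (pow_le_pow_left₀ (by positivity) hz 2) hBr (by positivity) (by positivity)
      calc 1 * r ^ 3 = 2 * (r ^ 2 * (r / 2)) := by ring
        _ ≤ 2 * (A ^ 2 * B) := by linarith
    rw [mul_assoc, h6]
    calc |A - B| * (1 / B ^ 3 + 1 / (A * B ^ 2) + 1 / (A ^ 2 * B))
        ≤ ‖w‖ * (8 / r ^ 3 + 4 / r ^ 3 + 2 / r ^ 3) := by
          apply mul_le_mul h5 _ (by positivity) (norm_nonneg w)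
          linarith
      _ = _ := by ring
  have h9 : ‖(1 / B ^ 3 - 1 / A ^ 3) • z‖ ≤ 14 / r ^ 3 * ‖w‖ := by
    rw [norm_smul, Real.norm_eq_abs, ← hA]
    exact h3
  calc _ ≤ 8 / r ^ 3 * ‖w‖ + 14 / r ^ 3 * ‖w‖ := (norm_add_le _ _).trans (add_le_add h2 h9)
    _ = _ := by ring

theorem PotB_pair {r : ℝ} {δ : Fin 3 → ℂ} (hδ : ∀ a, ‖δ a‖ ≤ r / 4) (a b : Fin 3) (hab : a ≠ b) :
    ‖δ a - δ b‖ ≤ r / 2 ∧ ‖δ a - δ b‖ ≤ ∑ c, ‖δ c‖ := by
  have h1 := norm_sub_le (δ a) (δ b)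
  have h2 := hδ a
  have h3 := hδ b
  constructor
  · linarith
  · rw [← Finset.sum_pair (f := fun c => ‖δ c‖) hab] at h1
    exact h1.trans (Finset.sum_le_univ_sum_of_nonneg fun c => norm_nonneg _)

theorem PotB_acc_bound {m : Fin 3 → ℝ} (hm : ∀ a, 0 < m a) {r : ℝ} (hr : 0 < r)
    {q : Fin 3 → ℂ} (hq : Sep r q) (a : Fin 3) : ‖acc m q a‖ ≤ (∑ b, m b) * (1 / r ^ 2) := by
  rw [acc]
  calc ‖∑ b ∈ Finset.univ.erase a, (m b / ‖q b - q a‖ ^ 3) • (q b - q a)‖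
      ≤ ∑ b ∈ Finset.univ.erase a, ‖(m b / ‖q b - q a‖ ^ 3) • (q b - q a)‖ := norm_sum_le _ _
    _ ≤ ∑ b ∈ Finset.univ.erase a, m b * (1 / r ^ 2) := by
        apply Finset.sum_le_sum
        intro b hb
        have hba : b ≠ a := Finset.ne_of_mem_erase hb
        have h1 := hq b a hba
        have h0 : 0 < ‖q b - q a‖ := lt_of_lt_of_le hr h1
        rw [norm_smul, Real.norm_eq_abs, abs_of_pos (div_pos (hm b) (by positivity))]
        have h2 : m b / ‖q b - q a‖ ^ 3 * ‖q b - q a‖ = m b * (1 / ‖q b - q a‖ ^ 2) := by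
          field_simp
        rw [h2]
        apply mul_le_mul_of_nonneg_left _ (hm b).le
        apply one_div_le_one_div_of_le (by positivity)
        exact pow_le_pow_left₀ hr.le h1 2
    _ ≤ ∑ b, m b * (1 / r ^ 2) :=
        Finset.sum_le_univ_sum_of_nonneg fun b => mul_nonneg (hm b).le (by positivity)
    _ = _ := by rw [Finset.sum_mul]

theorem PotB_acc_lip {m : Fin 3 → ℝ} (hm : ∀ a, 0 < m a) {r : ℝ} (hr : 0 < r)
    {q δ : Fin 3 → ℂ} (hq : Sep r q) (hδ : ∀ a, ‖δ a‖ ≤ r / 4) (a : Fin 3) :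
    ‖acc m (fun a => q a + δ a) a - acc m q a‖ ≤ (∑ b, m b) * (22 / r ^ 3) * ∑ b, ‖δ b‖ := by
  rw [acc, acc, ← Finset.sum_sub_distrib]
  have hS : 0 ≤ ∑ b, ‖δ b‖ := Finset.sum_nonneg fun c _ => norm_nonneg _
  calc _ ≤ ∑ b ∈ Finset.univ.erase a, ‖(m b / ‖q b + δ b - (q a + δ a)‖ ^ 3) •
        (q b + δ b - (q a + δ a)) - (m b / ‖q b - q a‖ ^ 3) • (q b - q a)‖ := norm_sum_le _ _
    _ ≤ ∑ b ∈ Finset.univ.erase a, m b * (22 / r ^ 3 * ∑ b, ‖δ b‖) := by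
        apply Finset.sum_le_sum
        intro b hb
        have hba : b ≠ a := Finset.ne_of_mem_erase hb
        obtain ⟨h1, h2⟩ := PotB_pair hδ b a hba
        have h3 : q b + δ b - (q a + δ a) = (q b - q a) + (δ b - δ a) := by ring
        rw [h3]
        refine (PotB_F hr (hq b a hba) h1 (m b)).trans ?_
        rw [abs_of_pos (hm b)]
        apply mul_le_mul_of_nonneg_left _ (hm b).le
        exact mul_le_mul_of_nonneg_left h2 (by positivity)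
    _ ≤ ∑ b, m b * (22 / r ^ 3 * ∑ b, ‖δ b‖) :=
        Finset.sum_le_univ_sum_of_nonneg fun b => mul_nonneg (hm b).le (by positivity)
    _ = _ := by rw [← Finset.sum_mul]; ring

theorem PotB_pot_lip {m : Fin 3 → ℝ} (hm : ∀ a, 0 < m a) {r : ℝ} (hr : 0 < r)
    {q δ : Fin 3 → ℂ} (hq : Sep r q) (hδ : ∀ a, ‖δ a‖ ≤ r / 4) :
    |pot m (fun a => q a + δ a) - pot m q| ≤
      (m 0 * m 1 + m 1 * m 2 + m 2 * m 0) * (2 / r ^ 2) * ∑ a, ‖δ a‖ := by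
  have key : ∀ a b : Fin 3, a ≠ b → |m a * m b * (1 / ‖(q a + δ a) - (q b + δ b)‖ -
      1 / ‖q a - q b‖)| ≤ m a * m b * (2 / r ^ 2 * ∑ a, ‖δ a‖) := by
    intro a b hab
    obtain ⟨h1, h2⟩ := PotB_pair hδ a b hab
    have h3 : q a + δ a - (q b + δ b) = (q a - q b) + (δ a - δ b) := by ring
    rw [h3, abs_mul, abs_of_pos (mul_pos (hm a) (hm b))]
    apply mul_le_mul_of_nonneg_left _ (mul_pos (hm a) (hm b)).le
    refine (PotB_inv hr (hq a b hab) h1).trans ?_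
    exact mul_le_mul_of_nonneg_left h2 (by positivity)
  have hkey : pot m (fun a => q a + δ a) - pot m q =
      m 0 * m 1 * (1 / ‖(q 0 + δ 0) - (q 1 + δ 1)‖ - 1 / ‖q 0 - q 1‖) +
      m 1 * m 2 * (1 / ‖(q 1 + δ 1) - (q 2 + δ 2)‖ - 1 / ‖q 1 - q 2‖) +
      m 2 * m 0 * (1 / ‖(q 2 + δ 2) - (q 0 + δ 0)‖ - 1 / ‖q 2 - q 0‖) := by
    rw [pot, pot]
    ring
  rw [hkey]
  calc _ ≤ _ := (abs_add_le _ _).trans (add_le_add_left (abs_add_le _ _) _)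
    _ ≤ _ := add_le_add (add_le_add (key 0 1 (by decide)) (key 1 2 (by decide)))
        (key 2 0 (by decide))
    _ = _ := by ring

theorem acc_lip (m : Fin 3 → ℝ) (hm : ∀ a, 0 < m a) (r : ℝ) (hr : 0 < r) :
    ∃ C > 0, (∀ q : Fin 3 → ℂ, Sep r q → ∀ a, ‖acc m q a‖ ≤ C) ∧
      (∀ q δ : Fin 3 → ℂ, Sep r q → (∀ a, ‖δ a‖ ≤ r / 4) → ∀ a,
        ‖acc m (fun a => q a + δ a) a - acc m q a‖ ≤ C * ∑ b, ‖δ b‖) ∧
      (∀ q δ : Fin 3 → ℂ, Sep r q → (∀ a, ‖δ a‖ ≤ r / 4) →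
        |pot m (fun a => q a + δ a) - pot m q| ≤ C * ∑ a, ‖δ a‖) ∧
      ∀ q : Fin 3 → ℂ, Sep r q → pot m q ≤ C := by
  have m0 := hm 0
  have m1 := hm 1
  have m2 := hm 2
  have hM : 0 < ∑ b, m b := Finset.sum_pos (fun b _ => hm b) ⟨0, Finset.mem_univ 0⟩
  obtain ⟨C1, hC1⟩ : ∃ C1, C1 = (∑ b, m b) * (1 / r ^ 2) := ⟨_, rfl⟩
  obtain ⟨C2, hC2⟩ : ∃ C2, C2 = (∑ b, m b) * (22 / r ^ 3) := ⟨_, rfl⟩
  obtain ⟨C3, hC3⟩ : ∃ C3, C3 = (m 0 * m 1 + m 1 * m 2 + m 2 * m 0) * (2 / r ^ 2) := ⟨_, rfl⟩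
  obtain ⟨C4, hC4⟩ : ∃ C4, C4 = (m 0 * m 1 + m 1 * m 2 + m 2 * m 0) * (1 / r) := ⟨_, rfl⟩
  have p1 : 0 < C1 := by rw [hC1]; positivity
  have p2 : 0 < C2 := by rw [hC2]; positivity
  have p3 : 0 < C3 := by rw [hC3]; positivity
  have p4 : 0 < C4 := by rw [hC4]; positivity
  refine ⟨C1 + C2 + C3 + C4, by positivity, ?_, ?_, ?_, ?_⟩
  · intro q hq a
    have := PotB_acc_bound hm hr hq a
    linarith
  · intro q δ hq hδ a
    have hS : 0 ≤ ∑ b, ‖δ b‖ := Finset.sum_nonneg fun c _ => norm_nonneg _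
    refine (PotB_acc_lip hm hr hq hδ a).trans ?_
    rw [← hC2]
    apply mul_le_mul_of_nonneg_right _ hS
    linarith
  · intro q δ hq hδ
    have hS : 0 ≤ ∑ b, ‖δ b‖ := Finset.sum_nonneg fun c _ => norm_nonneg _
    refine (PotB_pot_lip hm hr hq hδ).trans ?_
    rw [← hC3]
    apply mul_le_mul_of_nonneg_right _ hS
    linarith
  · intro q hq
    have key : ∀ a b : Fin 3, a ≠ b → m a * m b / ‖q a - q b‖ ≤ m a * m b * (1 / r) := by
      intro a b hab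
      rw [div_eq_mul_one_div]
      apply mul_le_mul_of_nonneg_left _ (mul_pos (hm a) (hm b)).le
      exact one_div_le_one_div_of_le hr (hq a b hab)
    have h1 := key 0 1 (by decide)
    have h2 := key 1 2 (by decide)
    have h3 := key 2 0 (by decide)
    have h4 : pot m q ≤ C4 := by
      rw [pot, hC4]
      calc _ ≤ _ := add_le_add (add_le_add h1 h2) h3
        _ = _ := by ring
    linarith

theorem pot_nonneg (m : Fin 3 → ℝ) (hm : ∀ a, 0 < m a) (q : Fin 3 → ℂ) : 0 ≤ pot m q := by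
  have m0 := hm 0
  have m1 := hm 1
  have m2 := hm 2
  rw [pot]
  positivity

theorem pot_smul (m : Fin 3 → ℝ) (c : ℂ) (hc : ‖c‖ = 1) (q : Fin 3 → ℂ) :
    pot m (fun a => c * q a) = pot m q := by
  simp only [pot, ← mul_sub, norm_mul, hc, one_mul]

theorem PotB_pot_eq (m : Fin 3 → ℝ) (q : Fin 3 → ℂ) :
    2 * pot m q = ∑ a, ∑ b, m a * m b / ‖q a - q b‖ := by
  have e10 : ‖q 1 - q 0‖ = ‖q 0 - q 1‖ := norm_sub_rev _ _
  have e21 : ‖q 2 - q 1‖ = ‖q 1 - q 2‖ := norm_sub_rev _ _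
  have e02 : ‖q 0 - q 2‖ = ‖q 2 - q 0‖ := norm_sub_rev _ _
  simp only [pot, Fin.sum_univ_three, e10, e21, e02, sub_self, norm_zero, div_zero]
  ring

theorem pot_perm (m : Fin 3 → ℝ) (σ : Equiv.Perm (Fin 3)) (hσ : ∀ a, m (σ a) = m a)
    (q : Fin 3 → ℂ) : pot m (fun a => q (σ a)) = pot m q := by
  have h1 := PotB_pot_eq m (fun a => q (σ a))
  have h2 := PotB_pot_eq m q
  have h3 : ∑ a, ∑ b, m a * m b / ‖q (σ a) - q (σ b)‖ = ∑ a, ∑ b, m a * m b / ‖q a - q b‖ := by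
    rw [← Equiv.sum_comp σ (fun a => ∑ b, m a * m b / ‖q a - q b‖)]
    refine Finset.sum_congr rfl fun a _ => ?_
    rw [← Equiv.sum_comp σ (fun b => m (σ a) * m b / ‖q (σ a) - q b‖)]
    refine Finset.sum_congr rfl fun b _ => ?_
    rw [hσ, hσ]
  linarith

theorem acc_perm (m : Fin 3 → ℝ) (σ : Equiv.Perm (Fin 3)) (hσ : ∀ a, m (σ a) = m a)
    (q : Fin 3 → ℂ) (a : Fin 3) : acc m (fun a => q (σ a)) a = acc m q (σ a) := by
  rw [acc_eq, acc_eq]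
  rw [← Equiv.sum_comp σ (fun b => (m b / ‖q b - q (σ a)‖ ^ 3) • (q b - q (σ a)))]
  refine Finset.sum_congr rfl fun b _ => ?_
  rw [hσ]

theorem continuousOn_pot (m : Fin 3 → ℝ) {D : Set ℝ} {w : ℝ → Fin 3 → ℂ} (hw : ContinuousOn w D)
    (h : ∀ t ∈ D, ∀ a b, a ≠ b → w t a ≠ w t b) :
    ContinuousOn (fun t => pot m (w t)) D ∧ ContinuousOn (fun t => acc m (w t)) D := by
  have hc : ∀ a, ContinuousOn (fun t => w t a) D := fun a => (continuousOn_pi.mp hw) a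
  have hn : ∀ a b, ContinuousOn (fun t => ‖w t a - w t b‖) D := fun a b =>
    ((hc a).sub (hc b)).norm
  have hne : ∀ t ∈ D, ∀ a b, a ≠ b → ‖w t a - w t b‖ ≠ 0 := fun t ht a b hab =>
    norm_ne_zero_iff.mpr (sub_ne_zero.mpr (h t ht a b hab))
  constructor
  · have key : ∀ a b : Fin 3, a ≠ b → ContinuousOn (fun t => m a * m b / ‖w t a - w t b‖) D :=
      fun a b hab => continuousOn_const.div (hn a b) fun t ht => hne t ht a b hab
    exact ((key 0 1 (by decide)).add (key 1 2 (by decide))).add (key 2 0 (by decide))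
  · rw [continuousOn_pi]
    intro a
    unfold acc
    apply continuousOn_finsetSum
    intro b hb
    have hba : b ≠ a := Finset.ne_of_mem_erase hb
    have h1 : ContinuousOn (fun t => m b / ‖w t b - w t a‖ ^ 3) D :=
      continuousOn_const.div ((hn b a).pow 3) fun t ht => pow_ne_zero 3 (hne t ht b a hba)
    exact h1.smul ((hc b).sub (hc a))

end Pool.Agent.MP_5027f4_min
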