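import Pool.Agent.Lib_MP_5027f4_min.Defs
import Pool.Agent.Lib_MP_5027f4_min.PotA
import Pool.Agent.Lib_MP_5027f4_min.PotB
import Pool.Agent.Lib_MP_5027f4_min.PathA
import Pool.Agent.Lib_MP_5027f4_min.PathB
import Pool.Agent.Lib_MP_5027f4_min.PathC

/-!
# LimA: limits of almost minimizing paths are weak solutions
-/

open Complex Set Filter Topology MeasureTheory
open scoped Real ComplexConjugate

namespace Pool.Agent.MP_5027f4_min

open Pool.Agent.MP_5027f4_mp

theorem LimA_ip_le (z w : ℂ) : |ip z w| ≤ ‖z‖ * ‖w‖ := by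
  have h : ip z w = (z * (starRingEnd ℂ) w).re := by
    simp [ip, Complex.mul_re]
  rw [h]
  calc |(z * (starRingEnd ℂ) w).re| ≤ ‖z * (starRingEnd ℂ) w‖ := Complex.abs_re_le_norm _
    _ = ‖z‖ * ‖w‖ := by rw [norm_mul, RCLike.norm_conj]

theorem LimA_ipm_le {m : Fin 3 → ℝ} (hm : ∀ a, 0 < m a) (p q : Fin 3 → ℂ) {A B : ℝ}
    (hp : ∀ a, ‖p a‖ ≤ A) (hq : ∀ a, ‖q a‖ ≤ B) : |ipm m p q| ≤ (∑ a, m a) * (A * B) := by
  unfold ipm
  calc |∑ a, m a * ip (p a) (q a)| ≤ ∑ a, |m a * ip (p a) (q a)| := Finset.abs_sum_le_sum_abs _ _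
    _ ≤ ∑ a, m a * (A * B) := by
        apply Finset.sum_le_sum
        intro a _
        rw [abs_mul, abs_of_pos (hm a)]
        apply mul_le_mul_of_nonneg_left _ (hm a).le
        exact (LimA_ip_le _ _).trans (mul_le_mul (hp a) (hq a) (norm_nonneg _)
          ((norm_nonneg _).trans (hp a)))
    _ = _ := by rw [Finset.sum_mul]

theorem LimA_ipm_sub (m : Fin 3 → ℝ) (p p' q : Fin 3 → ℂ) :
    ipm m p q - ipm m p' q = ipm m (fun a => p a - p' a) q := by
  unfold ipm ip
  rw [← Finset.sum_sub_distrib]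
  apply Finset.sum_congr rfl
  intro a _
  simp only [Complex.sub_re, Complex.sub_im]
  ring

theorem LimA_ipm_cont {m : Fin 3 → ℝ} {D : Set ℝ} {f g : ℝ → Fin 3 → ℂ} (hf : ContinuousOn f D)
    (hg : ContinuousOn g D) : ContinuousOn (fun t => ipm m (f t) (g t)) D := by
  unfold ipm ip
  have hf' : ∀ a, ContinuousOn (fun t => f t a) D := fun a => (continuousOn_pi.1 hf) a
  have hg' : ∀ a, ContinuousOn (fun t => g t a) D := fun a => (continuousOn_pi.1 hg) a
  apply continuousOn_finsetSum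
  intro a _
  apply ContinuousOn.mul continuousOn_const
  apply ContinuousOn.add
  · exact (Complex.continuous_re.comp_continuousOn (hf' a)).mul
      (Complex.continuous_re.comp_continuousOn (hg' a))
  · exact (Complex.continuous_im.comp_continuousOn (hf' a)).mul
      (Complex.continuous_im.comp_continuousOn (hg' a))

/-- a continuous function on `[0, τ]` is bounded -/
theorem LimA_bdd {τ : ℝ} {g : ℝ → Fin 3 → ℂ} (hg : ContinuousOn g (Icc 0 τ)) :
    ∃ B > 0, ∀ t ∈ Icc 0 τ, ∀ a, ‖g t a‖ ≤ B := by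
  obtain ⟨B, hB⟩ := isCompact_Icc.exists_bound_of_continuousOn hg
  refine ⟨max B 1, by positivity, fun t ht a => ?_⟩
  exact (norm_le_pi_norm (g t) a).trans ((hB t ht).trans (le_max_left _ _))

theorem LimA_tend {m : Fin 3 → ℝ} (hm : ∀ a, 0 < m a) {τ : ℝ} (hτ : 0 < τ)
    {f : ℕ → ℝ → Fin 3 → ℂ} {f0 g : ℝ → Fin 3 → ℂ} (hf : ∀ k, ContinuousOn (f k) (Icc 0 τ))
    (hf0 : ContinuousOn f0 (Icc 0 τ)) (hg : ContinuousOn g (Icc 0 τ)) (hu : Unif τ f f0) :
    Tendsto (fun k => ∫ t in (0 : ℝ)..τ, ipm m (f k t) (g t)) atTop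
      (𝓝 (∫ t in (0 : ℝ)..τ, ipm m (f0 t) (g t))) := by
  obtain ⟨B, hB0, hB⟩ := LimA_bdd hg
  have hM : 0 < ∑ a, m a := Finset.sum_pos (fun a _ => hm a) Finset.univ_nonempty
  rw [Metric.tendsto_atTop]
  intro ε hε
  have hden : 0 < (∑ a, m a) * B * τ := by positivity
  obtain ⟨N, hN⟩ := eventually_atTop.1 (hu (ε / (2 * ((∑ a, m a) * B * τ))) (by positivity))
  refine ⟨N, fun k hk => ?_⟩
  have hi : ∀ k, IntervalIntegrable (fun t => ipm m (f k t) (g t)) volume 0 τ := by
    intro k
    apply ContinuousOn.intervalIntegrable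
    rw [uIcc_of_le hτ.le]
    exact LimA_ipm_cont (hf k) hg
  have hi0 : IntervalIntegrable (fun t => ipm m (f0 t) (g t)) volume 0 τ := by
    apply ContinuousOn.intervalIntegrable
    rw [uIcc_of_le hτ.le]
    exact LimA_ipm_cont hf0 hg
  rw [Real.dist_eq, ← intervalIntegral.integral_sub (hi k) hi0]
  have hb : ∀ t ∈ Set.uIoc (0:ℝ) τ, ‖ipm m (f k t) (g t) - ipm m (f0 t) (g t)‖ ≤
      (∑ a, m a) * (ε / (2 * ((∑ a, m a) * B * τ)) * B) := by
    intro t ht
    rw [uIoc_of_le hτ.le] at ht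
    have ht' : t ∈ Icc 0 τ := ⟨ht.1.le, ht.2⟩
    rw [LimA_ipm_sub, Real.norm_eq_abs]
    exact LimA_ipm_le hm _ _ (fun a => hN k hk t ht' a) (fun a => hB t ht' a)
  have h1 := intervalIntegral.norm_integral_le_of_norm_le_const hb
  rw [Real.norm_eq_abs] at h1
  refine lt_of_le_of_lt h1 ?_
  rw [sub_zero, abs_of_pos hτ]
  have : (∑ a, m a) * (ε / (2 * ((∑ a, m a) * B * τ)) * B) * τ = ε / 2 := by
    field_simp
  rw [this]
  linarith

theorem LimA_pt {m : Fin 3 → ℝ} {τ : ℝ} {f : ℕ → ℝ → Fin 3 → ℂ} {f0 : ℝ → Fin 3 → ℂ}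
    (hu : Unif τ f f0) {t : ℝ} (ht : t ∈ Icc 0 τ) (q : Fin 3 → ℂ) :
    Tendsto (fun k => ipm m (f k t) q) atTop (𝓝 (ipm m (f0 t) q)) := by
  have h1 : ∀ a, Tendsto (fun k => f k t a) atTop (𝓝 (f0 t a)) := by
    intro a
    rw [Metric.tendsto_atTop]
    intro ε hε
    obtain ⟨N, hN⟩ := eventually_atTop.1 (hu (ε / 2) (by positivity))
    refine ⟨N, fun k hk => ?_⟩
    rw [dist_eq_norm]
    linarith [hN k hk t ht a]
  unfold ipm ip
  apply tendsto_finsetSum
  intro a _
  apply Tendsto.const_mul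
  exact (((Complex.continuous_re.tendsto _).comp (h1 a)).mul_const _).add
    (((Complex.continuous_im.tendsto _).comp (h1 a)).mul_const _)

theorem weak_of_limit {m : Fin 3 → ℝ} (hm : ∀ a, 0 < m a) {τ : ℝ} (hτ : 0 < τ)
    (y v : ℕ → ℝ → Fin 3 → ℂ) (w : ℝ → Fin 3 → ℂ) (hp : ∀ k, IsPath m τ (y k) (v k))
    (hw : ContinuousOn w (Icc 0 τ)) (hu : Unif τ y w) (r : ℝ) (hr : 0 < r)
    (hsep : ∀ t ∈ Icc 0 τ, Sep r (w t)) (hysep : ∀ k, ∀ t ∈ Icc 0 τ, Sep r (y k t)) (L : ℝ)
    (hL : Tendsto (fun k => action m τ (y k) (v k)) atTop (𝓝 L))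
    (η η1 η2 : ℝ → Fin 3 → ℂ) (hη : Test η η1 η2) (hcom : ∀ t, ∑ a, m a • η t a = 0)
    (hmin : ∃ s0 > 0, ∀ s : ℝ, |s| < s0 → ∀ κ > 0, ∀ᶠ k in atTop,
      L - κ ≤ action m τ (fun t a => y k t a + s • η t a) (fun t a => v k t a + s • η1 t a)) :
    weak m τ w η η1 η2 = 0 := by
  obtain ⟨s0, hs0, hmin⟩ := hmin
  obtain ⟨C1, hC1, hpot⟩ := pot_expand m hm r hr
  obtain ⟨C2, hC2, hacb, hacl, -, -⟩ := acc_lip m hm r hr
  have hηc : Continuous η := continuous_iff_continuousAt.2 fun t => (hη.d1 t).continuousAt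
  have hη1c : Continuous η1 := continuous_iff_continuousAt.2 fun t => (hη.d2 t).continuousAt
  obtain ⟨M, hM0, hM⟩ := LimA_bdd (τ := τ) hηc.continuousOn
  have hyc : ∀ k, ContinuousOn (y k) (Icc 0 τ) := fun k => path_cont (hp k) hτ
  have ne_of_sep : ∀ {q : Fin 3 → ℂ}, Sep r q → ∀ a b, a ≠ b → q a ≠ q b := by
    intro q hq a b hab h
    have := hq a b hab
    rw [h, sub_self, norm_zero] at this
    linarith
  have hync : ∀ k, ∀ t ∈ Icc 0 τ, ∀ a b, a ≠ b → y k t a ≠ y k t b :=
    fun k t ht => ne_of_sep (hysep k t ht)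
  have hwnc : ∀ t ∈ Icc 0 τ, ∀ a b, a ≠ b → w t a ≠ w t b := fun t ht => ne_of_sep (hsep t ht)
  have hyac : ∀ k, ContinuousOn (fun t => acc m (y k t)) (Icc 0 τ) :=
    fun k => (continuousOn_pot m (hyc k) (hync k)).2
  have hwac : ContinuousOn (fun t => acc m (w t)) (Icc 0 τ) := (continuousOn_pot m hw hwnc).2
  have hypc : ∀ k, ContinuousOn (fun t => pot m (y k t)) (Icc 0 τ) :=
    fun k => (continuousOn_pot m (hyc k) (hync k)).1
  -- uniform convergence of the accelerations
  have hacu : Unif τ (fun k t => acc m (y k t)) (fun t => acc m (w t)) := by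
    intro ε hε
    have h1 := hu (min (r / 4) (ε / (3 * C2))) (by positivity)
    filter_upwards [h1] with k hk t ht a
    have h2 := hacl (w t) (fun a => y k t a - w t a) (hsep t ht)
      (fun a => (hk t ht a).trans (min_le_left _ _)) a
    have e : (fun a => w t a + (y k t a - w t a)) = y k t := by
      funext a; ring
    rw [e] at h2
    refine h2.trans ?_
    have h3 : ∑ b, ‖y k t b - w t b‖ ≤ ∑ _b : Fin 3, ε / (3 * C2) :=
      Finset.sum_le_sum fun b _ => (hk t ht b).trans (min_le_right _ _)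
    rw [Finset.sum_const, Finset.card_univ, Fintype.card_fin, nsmul_eq_mul] at h3
    calc C2 * ∑ b, ‖y k t b - w t b‖ ≤ C2 * (((3 : ℕ) : ℝ) * (ε / (3 * C2))) :=
          mul_le_mul_of_nonneg_left h3 hC2.le
      _ = ε := by push_cast; field_simp
  -- the linear coefficient
  have hlin : Tendsto (fun k => (∫ t in (0 : ℝ)..τ, ipm m (v k t) (η1 t)) +
      ∫ t in (0 : ℝ)..τ, ipm m (acc m (y k t)) (η t)) atTop (𝓝 (weak m τ w η η1 η2)) := by
    have e : ∀ k, (∫ t in (0 : ℝ)..τ, ipm m (v k t) (η1 t)) =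
        ipm m (y k τ) (η1 τ) - ipm m (y k 0) (η1 0) - ∫ t in (0 : ℝ)..τ, ipm m (y k t) (η2 t) :=
      fun k => (path_ibp (hp k) hτ hη).2
    simp only [e]
    unfold weak
    exact (((LimA_pt hu (right_mem_Icc.2 hτ.le) _).sub (LimA_pt hu (left_mem_Icc.2 hτ.le) _)).sub
      (LimA_tend hm hτ hyc hw hη.c2.continuousOn hu)).add
      (LimA_tend hm hτ hyac hwac hηc.continuousOn hacu)
  -- the quadratic inequality
  set s1 := min (s0 / 2) (r / (4 * M)) with hs1
  have hs1p : 0 < s1 := by positivity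
  set C := |∫ t in (0 : ℝ)..τ, ipm m (η1 t) (η1 t)| / 2 + C1 * (3 * M ^ 2) * τ with hC
  have hCn : 0 ≤ C := by positivity
  have key : ∀ s : ℝ, |s| ≤ s1 → 0 ≤ s * weak m τ w η η1 η2 + C * s ^ 2 := by
    intro s hs
    have hsM : ∀ t ∈ Icc 0 τ, ∀ a, ‖s • η t a‖ ≤ r / 4 := by
      intro t ht a
      rw [norm_smul, Real.norm_eq_abs]
      have h1 : |s| ≤ r / (4 * M) := hs.trans (min_le_right _ _)
      calc |s| * ‖η t a‖ ≤ r / (4 * M) * M :=
            mul_le_mul h1 (hM t ht a) (norm_nonneg _) (by positivity)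
        _ = r / 4 := by field_simp
    -- upper estimate of the action of the varied path
    have hup : ∀ k, action m τ (fun t a => y k t a + s • η t a)
        (fun t a => v k t a + s • η1 t a) ≤ action m τ (y k) (v k) +
        s * ((∫ t in (0 : ℝ)..τ, ipm m (v k t) (η1 t)) +
          ∫ t in (0 : ℝ)..τ, ipm m (acc m (y k t)) (η t)) + C * s ^ 2 := by
      intro k
      have h1 := (action_add hm hr (hp k) hτ hη hcom (hysep k) s hsM).2
      rw [h1]
      have hnc2 : ∀ t ∈ Icc 0 τ, ∀ a b, a ≠ b →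
          (fun a => y k t a + s • η t a) a ≠ (fun a => y k t a + s • η t a) b := by
        intro t ht a b hab h
        dsimp only at h
        have h2 := hysep k t ht a b hab
        have h3 : y k t a - y k t b = s • η t b - s • η t a := by
          linear_combination h
        rw [h3] at h2
        have h4 := norm_sub_le (s • η t b) (s • η t a)
        linarith [hsM t ht a, hsM t ht b]
      have hc2 : ContinuousOn (fun t => (fun a => y k t a + s • η t a)) (Icc 0 τ) := by
        apply continuousOn_pi.2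
        intro a
        exact ((continuousOn_pi.1 (hyc k)) a).add
          (((continuous_apply a).comp hηc).const_smul s).continuousOn
      have hpc2 : ContinuousOn (fun t => pot m (fun a => y k t a + s • η t a)) (Icc 0 τ) :=
        (continuousOn_pot m hc2 hnc2).1
      have hlc : ContinuousOn (fun t => ipm m (acc m (y k t)) (η t)) (Icc 0 τ) :=
        LimA_ipm_cont (hyac k) hηc.continuousOn
      have hi1 : IntervalIntegrable
          (fun t => pot m (fun a => y k t a + s • η t a) - pot m (y k t)) volume 0 τ := by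
        apply ContinuousOn.intervalIntegrable
        rw [uIcc_of_le hτ.le]
        exact hpc2.sub (hypc k)
      have hi2 : IntervalIntegrable (fun t => s * ipm m (acc m (y k t)) (η t)) volume 0 τ := by
        apply ContinuousOn.intervalIntegrable
        rw [uIcc_of_le hτ.le]
        exact continuousOn_const.mul hlc
      have h5 : |(∫ t in (0 : ℝ)..τ, (pot m (fun a => y k t a + s • η t a) - pot m (y k t))) -
          ∫ t in (0 : ℝ)..τ, s * ipm m (acc m (y k t)) (η t)| ≤ C1 * (3 * M ^ 2) * s ^ 2 * τ := by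
        rw [← intervalIntegral.integral_sub hi1 hi2]
        have hb : ∀ t ∈ Set.uIoc (0:ℝ) τ, ‖pot m (fun a => y k t a + s • η t a) - pot m (y k t) -
            s * ipm m (acc m (y k t)) (η t)‖ ≤ C1 * (3 * M ^ 2) * s ^ 2 := by
          intro t ht
          rw [uIoc_of_le hτ.le] at ht
          have ht' : t ∈ Icc 0 τ := ⟨ht.1.le, ht.2⟩
          have h6 := hpot (y k t) (fun a => s • η t a) (hysep k t ht') (hsM t ht')
          have e : ipm m (acc m (y k t)) (fun a => s • η t a) =
              s * ipm m (acc m (y k t)) (η t) := by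
            unfold ipm ip
            rw [Finset.mul_sum]
            apply Finset.sum_congr rfl
            intro a _
            simp only [Complex.real_smul, Complex.re_ofReal_mul, Complex.im_ofReal_mul]
            ring
          rw [e] at h6
          rw [Real.norm_eq_abs]
          refine h6.trans ?_
          have h7 : ∑ a, ‖s • η t a‖ ^ 2 ≤ ∑ _a : Fin 3, s ^ 2 * M ^ 2 := by
            apply Finset.sum_le_sum
            intro a _
            rw [norm_smul, mul_pow, Real.norm_eq_abs, sq_abs]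
            exact mul_le_mul_of_nonneg_left
              (pow_le_pow_left₀ (norm_nonneg _) (hM t ht' a) 2) (sq_nonneg s)
          rw [Finset.sum_const, Finset.card_univ, Fintype.card_fin, nsmul_eq_mul] at h7
          calc C1 * ∑ a, ‖s • η t a‖ ^ 2 ≤ C1 * (((3 : ℕ) : ℝ) * (s ^ 2 * M ^ 2)) :=
                mul_le_mul_of_nonneg_left h7 hC1.le
            _ = _ := by push_cast; ring
        have h8 := intervalIntegral.norm_integral_le_of_norm_le_const hb
        rw [Real.norm_eq_abs, sub_zero, abs_of_pos hτ] at h8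
        exact h8
      rw [intervalIntegral.integral_const_mul] at h5
      have h9 := (abs_le.1 h5).2
      have h10 : s ^ 2 / 2 * (∫ t in (0 : ℝ)..τ, ipm m (η1 t) (η1 t)) ≤
          |∫ t in (0 : ℝ)..τ, ipm m (η1 t) (η1 t)| / 2 * s ^ 2 := by
        have := le_abs_self (∫ t in (0 : ℝ)..τ, ipm m (η1 t) (η1 t))
        nlinarith [sq_nonneg s]
      rw [hC]
      linarith
    -- pass to the limit
    apply le_of_forall_pos_le_add
    intro κ hκ
    have hss : |s| < s0 := lt_of_le_of_lt hs (lt_of_le_of_lt (min_le_left _ _) (by linarith))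
    have h1 := hmin s hss κ hκ
    have h2 : Tendsto (fun k => action m τ (y k) (v k) +
        s * ((∫ t in (0 : ℝ)..τ, ipm m (v k t) (η1 t)) +
          ∫ t in (0 : ℝ)..τ, ipm m (acc m (y k t)) (η t)) + C * s ^ 2) atTop
        (𝓝 (L + s * weak m τ w η η1 η2 + C * s ^ 2)) :=
      ((hL.add (hlin.const_mul s)).add_const _)
    have h3 : L - κ ≤ L + s * weak m τ w η η1 η2 + C * s ^ 2 := by
      apply ge_of_tendsto h2
      filter_upwards [h1] with k hk
      exact hk.trans (hup k)
    linarith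
  -- conclusion
  set W := weak m τ w η η1 η2 with hW
  by_contra hne
  rcases lt_or_gt_of_ne hne with hlt | hgt
  · -- W < 0, take s > 0 small
    set s := min s1 (-W / (2 * (C + 1))) with hs
    have hsp : 0 < s := lt_min hs1p (div_pos (by linarith) (by positivity))
    have h1 := key s (by rw [abs_of_pos hsp]; exact min_le_left _ _)
    have h2 : s ≤ -W / (2 * (C + 1)) := min_le_right _ _
    rw [le_div_iff₀ (by positivity)] at h2
    nlinarith
  · set s := min s1 (W / (2 * (C + 1))) with hs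
    have hsp : 0 < s := lt_min hs1p (div_pos (by linarith) (by positivity))
    have h1 := key (-s) (by rw [abs_neg, abs_of_pos hsp]; exact min_le_left _ _)
    have h2 : s ≤ W / (2 * (C + 1)) := min_le_right _ _
    rw [le_div_iff₀ (by positivity)] at h2
    nlinarith

end Pool.Agent.MP_5027f4_min
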