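import Pool.Agent.Lib_MP_5027f4_min.Defs

open Complex Set Filter Topology MeasureTheory
open scoped Real ComplexConjugate

namespace Pool.Agent.MP_5027f4_min

open Pool.Agent.MP_5027f4_mp

theorem sol_path {m : Fin 3 → ℝ} {τ : ℝ} (hτ : 0 < τ) {w w1 : ℝ → Fin 3 → ℂ} (h : Sol m τ w w1)
    (hcom : ∀ t ∈ Icc 0 τ, ∑ a, m a • w t a = 0) : IsPath m τ w w1 := by
  have hd : ∀ a, ∀ t ∈ Icc 0 τ, HasDerivWithinAt (fun t => w t a) (w1 t a) (Icc 0 τ) t :=
    fun a t ht => (hasDerivWithinAt_pi.mp (h t ht).1) a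
  have hd1 : ∀ a, ∀ t ∈ Icc 0 τ,
      HasDerivWithinAt (fun t => w1 t a) (acc m (w t) a) (Icc 0 τ) t :=
    fun a t ht => (hasDerivWithinAt_pi.mp (h t ht).2) a
  have hc : ∀ a, ContinuousOn (fun t => w t a) (Icc 0 τ) :=
    fun a t ht => (hd a t ht).continuousWithinAt
  have hc1 : ∀ a, ContinuousOn (fun t => w1 t a) (Icc 0 τ) :=
    fun a t ht => (hd1 a t ht).continuousWithinAt
  refine ⟨fun a => ?_, fun a => ?_, fun t ht a => ?_, hcom⟩
  · exact (hc1 a).intervalIntegrable_of_Icc hτ.le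
  · exact ((hc1 a).norm.pow 2).intervalIntegrable_of_Icc hτ.le
  · have hsub : Icc 0 t ⊆ Icc 0 τ := Icc_subset_Icc le_rfl ht.2
    have h1 := intervalIntegral.integral_eq_sub_of_hasDeriv_right_of_le ht.1
      ((hc a).mono hsub) (f' := fun s => w1 s a) (fun s hs => by
        have h2 : s ∈ Icc 0 τ := ⟨hs.1.le, hs.2.le.trans ht.2⟩
        have h3 : Icc 0 τ ∈ 𝓝 s := Icc_mem_nhds hs.1 (hs.2.trans_le ht.2)
        exact ((hd a s h2).hasDerivAt h3).hasDerivWithinAt)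
      (((hc1 a).mono hsub).intervalIntegrable_of_Icc ht.1)
    rw [h1]
    ring

theorem isSolution_sol {m : Fin 3 → ℝ} {x : ℝ → (Fin 3 → ℂ) × (Fin 3 → ℂ)}
    (hx : IsSolution m univ x) (τ s : ℝ) :
    Sol m τ (fun t => (x (t + s)).1) (fun t => (x (t + s)).2) := by
  intro t _
  have h1 : HasDerivAt x ((x (t + s)).2, acc m (x (t + s)).1) (t + s) :=
    hasDerivWithinAt_univ.mp (hx (t + s) (mem_univ _)).2
  have h2 : HasDerivAt (fun t => x (t + s)) ((x (t + s)).2, acc m (x (t + s)).1) t :=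
    h1.comp_add_const t s
  have h3 : HasDerivAt (fun t => (x (t + s)).1) ((x (t + s)).2) t := by
    have := ((ContinuousLinearMap.fst ℝ (Fin 3 → ℂ) (Fin 3 → ℂ)).hasFDerivAt
      (x := x (t + s))).comp_hasDerivAt t h2
    exact this
  have h4 : HasDerivAt (fun t => (x (t + s)).2) (acc m (x (t + s)).1) t := by
    have := ((ContinuousLinearMap.snd ℝ (Fin 3 → ℂ) (Fin 3 → ℂ)).hasFDerivAt
      (x := x (t + s))).comp_hasDerivAt t h2
    exact this
  exact ⟨h3.hasDerivWithinAt, h4.hasDerivWithinAt⟩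

end Pool.Agent.MP_5027f4_min
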