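import Pool.Agent.Lib_MP_5027f4_min.Defs
import Pool.Agent.Lib_MP_5027f4_min.PotB
import Pool.Agent.Lib_MP_5027f4_min.PathA
import Pool.Agent.Lib_MP_5027f4_min.PathB
import Pool.Agent.Lib_MP_5027f4_min.PathE

/-! Piece LimB: lower semicontinuity of the action at a solution. -/

open Complex Set Filter Topology MeasureTheory
open scoped Real ComplexConjugate

namespace Pool.Agent.MP_5027f4_min

open Pool.Agent.MP_5027f4_mp

theorem LimB_ip_le (z w : ℂ) : |ip z w| ≤ ‖z‖ * ‖w‖ := by
  unfold ip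
  have h1 : z.re * w.re + z.im * w.im = (z * conj w).re := by
    simp [Complex.mul_re]
  rw [h1]
  refine (Complex.abs_re_le_norm _).trans ?_
  rw [norm_mul, Complex.norm_conj]

theorem LimB_ip_self (z : ℂ) : ip z z = ‖z‖ ^ 2 := by
  unfold ip
  rw [Complex.sq_norm, Complex.normSq_apply]

theorem LimB_young (z w : ℂ) : ip z w - ip w w ≤ ‖z‖ ^ 2 / 2 - ‖w‖ ^ 2 / 2 := by
  rw [← LimB_ip_self z, ← LimB_ip_self w]
  unfold ip
  nlinarith [sq_nonneg (z.re - w.re), sq_nonneg (z.im - w.im)]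

theorem LimB_ipm_sub_le (m : Fin 3 → ℝ) (hm : ∀ a, 0 < m a) (p p' q : Fin 3 → ℂ) :
    |ipm m p q - ipm m p' q| ≤ ∑ a, m a * (‖p a - p' a‖ * ‖q a‖) := by
  have h1 : ipm m p q - ipm m p' q = ∑ a, m a * ip (p a - p' a) (q a) := by
    unfold ipm ip
    rw [← Finset.sum_sub_distrib]
    refine Finset.sum_congr rfl (fun a _ => ?_)
    simp only [Complex.sub_re, Complex.sub_im]
    ring
  rw [h1]
  refine (Finset.abs_sum_le_sum_abs _ _).trans (Finset.sum_le_sum (fun a _ => ?_))
  rw [abs_mul, abs_of_pos (hm a)]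
  exact mul_le_mul_of_nonneg_left (LimB_ip_le _ _) (hm a).le

/-- uniformly small integrands have small integrals -/
theorem LimB_tendsto {τ : ℝ} (hτ : 0 < τ) (F : ℕ → ℝ → ℝ)
    (hF : ∀ ε > 0, ∀ᶠ k in atTop, ∀ t ∈ Icc 0 τ, |F k t| ≤ ε) :
    Tendsto (fun k => ∫ t in (0 : ℝ)..τ, F k t) atTop (𝓝 0) := by
  rw [Metric.tendsto_nhds]
  intro ε hε
  filter_upwards [hF (ε / (2 * τ)) (by positivity)] with k hk
  rw [dist_zero_right]
  have h1 : ‖∫ t in (0 : ℝ)..τ, F k t‖ ≤ ε / (2 * τ) * |τ - 0| := by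
    apply intervalIntegral.norm_integral_le_of_norm_le_const
    intro t ht
    rw [uIoc_of_le hτ.le] at ht
    exact hk t ⟨ht.1.le, ht.2⟩
  refine h1.trans_lt ?_
  rw [sub_zero, abs_of_pos hτ]
  have h2 : ε / (2 * τ) * τ = ε / 2 := by field_simp
  rw [h2]
  linarith

theorem LimB_pointwise {τ : ℝ} {y : ℕ → ℝ → Fin 3 → ℂ} {w : ℝ → Fin 3 → ℂ}
    (hu : Unif τ y w) {t : ℝ} (ht : t ∈ Icc 0 τ) (a : Fin 3) :
    Tendsto (fun k => y k t a) atTop (𝓝 (w t a)) := by
  rw [Metric.tendsto_nhds]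
  intro ε hε
  filter_upwards [hu (ε / 2) (by positivity)] with k hk
  rw [dist_eq_norm]
  exact (hk t ht a).trans_lt (by linarith)

theorem LimB_ipm_tendsto {m : Fin 3 → ℝ} {p : ℕ → Fin 3 → ℂ} {p0 q : Fin 3 → ℂ}
    (h : ∀ a, Tendsto (fun k => p k a) atTop (𝓝 (p0 a))) :
    Tendsto (fun k => ipm m (p k) q) atTop (𝓝 (ipm m p0 q)) := by
  unfold ipm ip
  refine tendsto_finsetSum _ (fun a _ => ?_)
  refine Tendsto.const_mul _ (Tendsto.add ?_ ?_)
  · exact ((Complex.continuous_re.tendsto _).comp (h a)).mul_const _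
  · exact ((Complex.continuous_im.tendsto _).comp (h a)).mul_const _

theorem LimB_ipm_cont {m : Fin 3 → ℝ} {D : Set ℝ} {p q : ℝ → Fin 3 → ℂ} (hp : ContinuousOn p D)
    (hq : ContinuousOn q D) : ContinuousOn (fun t => ipm m (p t) (q t)) D := by
  unfold ipm ip
  refine continuousOn_finsetSum _ (fun a _ => ?_)
  have h1 : ContinuousOn (fun t => p t a) D := (continuous_apply a).comp_continuousOn hp
  have h2 : ContinuousOn (fun t => q t a) D := (continuous_apply a).comp_continuousOn hq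
  exact continuousOn_const.mul
    (((Complex.continuous_re.comp_continuousOn h1).mul
      (Complex.continuous_re.comp_continuousOn h2)).add
    ((Complex.continuous_im.comp_continuousOn h1).mul
      (Complex.continuous_im.comp_continuousOn h2)))

theorem LimB_sep_ne {r : ℝ} (hr : 0 < r) {q : Fin 3 → ℂ} (h : Sep r q) (a b : Fin 3)
    (hab : a ≠ b) : q a ≠ q b := by
  intro h'
  have := h a b hab
  rw [h', sub_self, norm_zero] at this
  linarith

theorem action_le_of_limit {m : Fin 3 → ℝ} (hm : ∀ a, 0 < m a) {τ : ℝ} (hτ : 0 < τ)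
    (y v : ℕ → ℝ → Fin 3 → ℂ) (w w1 : ℝ → Fin 3 → ℂ) (hp : ∀ k, IsPath m τ (y k) (v k))
    (hw : Sol m τ w w1) (hu : Unif τ y w) (r : ℝ) (hr : 0 < r)
    (hsep : ∀ t ∈ Icc 0 τ, Sep r (w t)) (hysep : ∀ k, ∀ t ∈ Icc 0 τ, Sep r (y k t)) (L : ℝ)
    (hL : Tendsto (fun k => action m τ (y k) (v k)) atTop (𝓝 L)) : action m τ w w1 ≤ L := by
  have h0 : (0 : ℝ) ∈ Icc 0 τ := ⟨le_refl 0, hτ.le⟩
  have hτ' : τ ∈ Icc 0 τ := ⟨hτ.le, le_refl τ⟩
  have huI : uIcc 0 τ = Icc 0 τ := uIcc_of_le hτ.le
  -- continuity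
  have cw : ContinuousOn w (Icc 0 τ) := fun t ht => (hw t ht).1.continuousWithinAt
  have cw1 : ContinuousOn w1 (Icc 0 τ) := fun t ht => (hw t ht).2.continuousWithinAt
  have hnc : ∀ t ∈ Icc 0 τ, ∀ a b, a ≠ b → w t a ≠ w t b := fun t ht a b hab =>
    LimB_sep_ne hr (hsep t ht) a b hab
  obtain ⟨cpot, cacc⟩ := continuousOn_pot m cw hnc
  have cy : ∀ k, ContinuousOn (y k) (Icc 0 τ) := fun k => path_cont (hp k) hτ
  have cpy : ∀ k, ContinuousOn (fun t => pot m (y k t)) (Icc 0 τ) := fun k =>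
    (continuousOn_pot m (cy k) (fun t ht a b hab => LimB_sep_ne hr (hysep k t ht) a b hab)).1
  -- the center of mass
  have hcom : ∀ t ∈ Icc 0 τ, ∑ a, m a • w t a = 0 := by
    intro t ht
    have h1 : Tendsto (fun k => ∑ a, m a • y k t a) atTop (𝓝 (∑ a, m a • w t a)) :=
      tendsto_finsetSum _ (fun a _ => (LimB_pointwise hu ht a).const_smul (m a))
    have h2 : (fun k => ∑ a, m a • y k t a) = fun _ => 0 := funext fun k => (hp k).com t ht
    rw [h2] at h1
    exact (tendsto_nhds_unique h1 tendsto_const_nhds)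
  have hwp : IsPath m τ w w1 := sol_path hτ hw hcom
  -- extension to the line
  set A : ℝ → Fin 3 → ℂ := fun t => acc m (w (projIcc 0 τ hτ.le t)) with hA
  have cA : Continuous A := by
    have h1 : Continuous (fun s : Icc (0 : ℝ) τ => acc m (w s)) :=
      continuousOn_iff_continuous_domRestrict.1 cacc
    exact h1.comp continuous_projIcc
  have eA : ∀ t ∈ Icc 0 τ, A t = acc m (w t) := by
    intro t ht
    rw [hA]
    simp only [projIcc_of_mem hτ.le ht]
  set W1 : ℝ → Fin 3 → ℂ := fun t => w1 0 + ∫ s in (0 : ℝ)..t, A s with hW1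
  have dW1 : ∀ t, HasDerivAt W1 (A t) t := by
    intro t
    exact (intervalIntegral.integral_hasDerivAt_right (cA.intervalIntegrable _ _)
      (cA.stronglyMeasurableAtFilter _ _) cA.continuousAt).const_add _
  have cW1 : Continuous W1 := continuous_iff_continuousAt.2 fun t => (dW1 t).continuousAt
  have eW1 : ∀ t ∈ Icc 0 τ, W1 t = w1 t := by
    intro t ht
    have h1 : ∫ s in (0 : ℝ)..t, A s = w1 t - w1 0 := by
      apply intervalIntegral.integral_eq_sub_of_hasDeriv_right_of_le ht.1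
      · exact cw1.mono (Icc_subset_Icc le_rfl ht.2)
      · intro s hs
        have hs' : s ∈ Icc 0 τ := ⟨hs.1.le, hs.2.le.trans ht.2⟩
        rw [eA s hs']
        have h2 := (hw s hs').2
        have h3 : Icc 0 τ ∈ 𝓝[>] s := mem_nhdsWithin_of_mem_nhds
          (Icc_mem_nhds hs.1 (hs.2.trans_le ht.2))
        exact h2.mono_of_mem_nhdsWithin h3
      · exact cA.intervalIntegrable _ _
    rw [hW1]
    simp only [h1]
    abel
  have hT : Test (fun t => w 0 + ∫ s in (0 : ℝ)..t, W1 s) W1 A := by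
    refine ⟨fun t => ?_, dW1, cA⟩
    exact (intervalIntegral.integral_hasDerivAt_right (cW1.intervalIntegrable _ _)
      (cW1.stronglyMeasurableAtFilter _ _) cW1.continuousAt).const_add _
  have ib1 : ∀ k, _ := fun k => path_ibp (hp k) hτ hT
  have ib2 := path_ibp hwp hτ hT
  -- the linear term tends to zero
  have lim1 : Tendsto (fun k => (∫ t in (0 : ℝ)..τ, ipm m (v k t) (W1 t)) -
      ∫ t in (0 : ℝ)..τ, ipm m (w1 t) (W1 t)) atTop (𝓝 0) := by
    have e1 : ∀ k, (∫ t in (0 : ℝ)..τ, ipm m (v k t) (W1 t)) -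
        ∫ t in (0 : ℝ)..τ, ipm m (w1 t) (W1 t) =
        (ipm m (y k τ) (W1 τ) - ipm m (w τ) (W1 τ)) - (ipm m (y k 0) (W1 0) -
          ipm m (w 0) (W1 0)) - ∫ t in (0 : ℝ)..τ, (ipm m (y k t) (A t) - ipm m (w t) (A t)) := by
      intro k
      rw [(ib1 k).2, ib2.2, intervalIntegral.integral_sub]
      · ring
      · apply ContinuousOn.intervalIntegrable
        rw [huI]
        exact LimB_ipm_cont (cy k) cA.continuousOn
      · apply ContinuousOn.intervalIntegrable
        rw [huI]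
        exact LimB_ipm_cont cw cA.continuousOn
    simp only [e1]
    have l1 : Tendsto (fun k => ipm m (y k τ) (W1 τ) - ipm m (w τ) (W1 τ)) atTop (𝓝 0) := by
      have := (LimB_ipm_tendsto (m := m) (q := W1 τ) (fun a => LimB_pointwise hu hτ' a)).sub_const
        (ipm m (w τ) (W1 τ))
      rwa [sub_self] at this
    have l2 : Tendsto (fun k => ipm m (y k 0) (W1 0) - ipm m (w 0) (W1 0)) atTop (𝓝 0) := by
      have := (LimB_ipm_tendsto (m := m) (q := W1 0) (fun a => LimB_pointwise hu h0 a)).sub_const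
        (ipm m (w 0) (W1 0))
      rwa [sub_self] at this
    have l3 : Tendsto (fun k => ∫ t in (0 : ℝ)..τ, (ipm m (y k t) (A t) - ipm m (w t) (A t)))
        atTop (𝓝 0) := by
      apply LimB_tendsto hτ
      intro ε hε
      obtain ⟨M, hM⟩ := (isCompact_Icc (a := (0 : ℝ)) (b := τ)).exists_bound_of_continuousOn
        (f := fun t => ∑ a, m a * ‖A t a‖) (by
          refine (continuous_finsetSum _ (fun a _ => ?_)).continuousOn
          exact continuous_const.mul ((continuous_apply a).comp cA).norm)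
      have hM0 : 0 ≤ M := (norm_nonneg _).trans (hM 0 h0)
      filter_upwards [hu (ε / (M + 1)) (by positivity)] with k hk t ht
      refine (LimB_ipm_sub_le m hm _ _ _).trans ?_
      have h1 : ∑ a, m a * (‖y k t a - w t a‖ * ‖A t a‖) ≤
          ε / (M + 1) * ∑ a, m a * ‖A t a‖ := by
        rw [Finset.mul_sum]
        refine Finset.sum_le_sum (fun a _ => ?_)
        have h2 : ‖y k t a - w t a‖ * ‖A t a‖ ≤ ε / (M + 1) * ‖A t a‖ :=
          mul_le_mul_of_nonneg_right (hk t ht a) (norm_nonneg _)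
        nlinarith [hm a, mul_le_mul_of_nonneg_left h2 (hm a).le]
      refine h1.trans ?_
      have h3 : ∑ a, m a * ‖A t a‖ ≤ M := (le_abs_self _).trans (hM t ht)
      have h4 : ε / (M + 1) * ∑ a, m a * ‖A t a‖ ≤ ε / (M + 1) * (M + 1) :=
        mul_le_mul_of_nonneg_left (h3.trans (by linarith)) (by positivity)
      refine h4.trans (le_of_eq ?_)
      field_simp
    have := (l1.sub l2).sub l3
    simpa using this
  -- the potential term tends to zero
  have lim2 : Tendsto (fun k => ∫ t in (0 : ℝ)..τ, (pot m (y k t) - pot m (w t))) atTop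
      (𝓝 0) := by
    obtain ⟨C, hC, -, -, hC3, -⟩ := acc_lip m hm r hr
    apply LimB_tendsto hτ
    intro ε hε
    filter_upwards [hu (min (r / 4) (ε / (3 * C))) (by positivity)] with k hk t ht
    have h1 := hC3 (w t) (fun a => y k t a - w t a) (hsep t ht)
      (fun a => (hk t ht a).trans (min_le_left _ _))
    have h2 : (fun a => w t a + (y k t a - w t a)) = y k t := by
      funext a; ring
    rw [h2] at h1
    refine h1.trans ?_
    have h3 : ∑ a : Fin 3, ‖y k t a - w t a‖ ≤ ∑ a : Fin 3, ε / (3 * C) :=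
      Finset.sum_le_sum (fun a _ => (hk t ht a).trans (min_le_right _ _))
    have h4 : ∑ a : Fin 3, ε / (3 * C) = ε / C := by
      rw [Finset.sum_const, Finset.card_univ, Fintype.card_fin, nsmul_eq_mul]
      push_cast
      field_simp
    rw [h4] at h3
    refine (mul_le_mul_of_nonneg_left h3 hC.le).trans (le_of_eq ?_)
    field_simp
  -- the inequality
  have key : ∀ k, action m τ w w1 + (((∫ t in (0 : ℝ)..τ, ipm m (v k t) (W1 t)) -
      ∫ t in (0 : ℝ)..τ, ipm m (w1 t) (W1 t)) +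
      ∫ t in (0 : ℝ)..τ, (pot m (y k t) - pot m (w t))) ≤ action m τ (y k) (v k) := by
    intro k
    have i1 : IntervalIntegrable (fun t => (∑ a, m a * ‖v k t a‖ ^ 2) / 2) volume 0 τ := by
      apply IntervalIntegrable.div_const
      have : (fun t => ∑ a, m a * ‖v k t a‖ ^ 2) = ∑ a, fun t => m a * ‖v k t a‖ ^ 2 := by
        funext t; simp
      rw [this]
      exact IntervalIntegrable.sum _ (fun a _ => ((hp k).sq a).const_mul (m a))
    have i1' : IntervalIntegrable (fun t => (∑ a, m a * ‖w1 t a‖ ^ 2) / 2) volume 0 τ := by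
      apply IntervalIntegrable.div_const
      have : (fun t => ∑ a, m a * ‖w1 t a‖ ^ 2) = ∑ a, fun t => m a * ‖w1 t a‖ ^ 2 := by
        funext t; simp
      rw [this]
      exact IntervalIntegrable.sum _ (fun a _ => (hwp.sq a).const_mul (m a))
    have i2 : IntervalIntegrable (fun t => pot m (y k t)) volume 0 τ := by
      apply ContinuousOn.intervalIntegrable
      rw [huI]
      exact cpy k
    have i2' : IntervalIntegrable (fun t => pot m (w t)) volume 0 τ := by
      apply ContinuousOn.intervalIntegrable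
      rw [huI]
      exact cpot
    have i3 := (ib1 k).1
    have i3' := ib2.1
    unfold action
    rw [← intervalIntegral.integral_sub i3 i3', ← intervalIntegral.integral_add (i3.sub i3')
      (i2.sub i2'), ← intervalIntegral.integral_add (i1'.add i2') ((i3.sub i3').add (i2.sub i2'))]
    apply intervalIntegral.integral_mono_on hτ.le
      ((i1'.add i2').add ((i3.sub i3').add (i2.sub i2'))) (i1.add i2)
    intro t ht
    rw [eW1 t ht]
    have h5 : ipm m (v k t) (w1 t) - ipm m (w1 t) (w1 t) ≤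
        (∑ a, m a * ‖v k t a‖ ^ 2) / 2 - (∑ a, m a * ‖w1 t a‖ ^ 2) / 2 := by
      unfold ipm
      rw [← Finset.sum_sub_distrib, Finset.sum_div, Finset.sum_div, ← Finset.sum_sub_distrib]
      refine Finset.sum_le_sum (fun a _ => ?_)
      have := mul_le_mul_of_nonneg_left (LimB_young (v k t a) (w1 t a)) (hm a).le
      linarith
    linarith
  have hfin := tendsto_const_nhds (x := action m τ w w1) (f := (atTop : Filter ℕ))
  have := hfin.add (lim1.add lim2)
  rw [add_zero, add_zero] at this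
  exact le_of_tendsto_of_tendsto' this hL key

end Pool.Agent.MP_5027f4_min
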