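import Pool.Agent.Lib_MP_5027f4_min.MinC
import Pool.Agent.Lib_MP_5027f4_min.PathE
import Pool.Agent.Lib_MP_5027f4_min.FinA
import Pool.Agent.Lib_MP_5027f4_min.FinB
import Pool.Agent.Lib_MP_5027f4_min.FinC
import Pool.Agent.Lib_MP_5027f4_min.FinD
import Pool.Agent.Lib_MP_5027f4_min.FinE

/-!
# Strict local minimizers of the action are not Lyapunov stable: assembly
-/

open Complex Set Filter Topology MeasureTheory
open scoped Real ComplexConjugate

namespace Pool.Agent.MP_5027f4_min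

open Pool.Agent.MP_5027f4_mp

namespace Mn

theorem iter_pos {τ : ℝ} {u : ℂ} {σ : Equiv.Perm (Fin 3)} {x : ℝ → (Fin 3 → ℂ) × (Fin 3 → ℂ)}
    (hper : ∀ t a, (x (t + τ)).1 a = u * (x t).1 (σ a)) (n : ℕ) :
    ∀ t a, (x (t + n * τ)).1 a = u ^ n * (x t).1 ((σ ^ n) a) := by
  induction n with
  | zero => intro t a; simp
  | succ n ih =>
    intro t a
    have e : t + ((n + 1 : ℕ) : ℝ) * τ = (t + n * τ) + τ := by
      push_cast
      ring
    rw [e, hper, ih, pow_succ u, pow_succ' σ, Equiv.Perm.mul_apply]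
    have : (σ ^ n) (σ a) = σ ((σ ^ n) a) := by
      rw [← Equiv.Perm.mul_apply, ← Equiv.Perm.mul_apply, ← pow_succ, ← pow_succ']
    rw [this]
    ring

theorem sixth (σ : Equiv.Perm (Fin 3)) : σ ^ 6 = 1 := by
  have h : σ ^ Fintype.card (Equiv.Perm (Fin 3)) = 1 := pow_card_eq_one
  have h6 : Fintype.card (Equiv.Perm (Fin 3)) = 6 := by
    rw [Fintype.card_perm, Fintype.card_fin]
    rfl
  rwa [h6] at h

theorem final {m : Fin 3 → ℝ} (hm : ∀ a, 0 < m a) (σ ϖ : Equiv.Perm (Fin 3))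
    (hσ : ∀ a, m (σ a) = m a) {b : Prop} (hϖ : b → ∀ a, m (ϖ a) = m a)
    (h2 : b → ∀ a, ϖ (ϖ a) = a) (h3 : b → ∀ a, σ (ϖ (σ a)) = ϖ a) {τ : ℝ} (hτ : 0 < τ) {u ω : ℂ}
    (hu : ‖u‖ = 1) (hω : ‖ω‖ = 1) {x : ℝ → (Fin 3 → ℂ) × (Fin 3 → ℂ)}
    (hx : IsSolution m univ x) (hper : ∀ t a, (x (t + τ)).1 a = u * (x t).1 (σ a))
    (hrev : b → ∀ t ∈ Icc 0 τ, ∀ a, (x (τ - t)).1 a = ω * conj ((x t).1 (ϖ a)))
    {K : Set (ℝ × ℝ)} (hK : IsCompact K) (h0 : (0, 0) ∈ K)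
    (hiso : ∃ ρ > 0, ∀ y v, Adm m τ u σ b ω ϖ y v → Near τ x K ρ y →
      action m τ (fun t => (x t).1) (fun t => (x t).2) ≤ action m τ y v ∧
      (action m τ y v = action m τ (fun t => (x t).1) (fun t => (x t).2) → Near τ x K 0 y))
    (hst : LyapunovStable m (range x)) :
    ∀ a b t, ‖(x t).1 a - (x t).1 b‖ = ‖(x 0).1 a - (x 0).1 b‖ := by
  by_contra hnc
  have h6 : ∀ t a, (x (t + 6 * τ)).1 a = u ^ 6 * (x t).1 a := by
    intro t a
    have := iter_pos hper 6 t a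
    rw [sixth] at this
    simpa using this
  have hdist : ∀ a b, ∃ T > 0, ∀ t, ‖(x (t + T)).1 a - (x (t + T)).1 b‖ =
      ‖(x t).1 a - (x t).1 b‖ := by
    intro a b
    refine ⟨6 * τ, by positivity, fun t => ?_⟩
    rw [h6, h6, ← mul_sub, norm_mul, norm_pow, hu, one_pow, one_mul]
  obtain ⟨r, hr, R', hxr, hxR'⟩ := bounds_of_periodic hx hdist
  obtain ⟨K', hK', -, hxK'⟩ := exists_compact hm hx hr hxr hxR'
  obtain ⟨R, hR⟩ := hK'.isBounded.exists_norm_le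
  have hxR : ∀ t a, ‖(x t).1 a‖ ≤ R := fun t a =>
    (norm_le_pi_norm _ a).trans ((norm_fst_le _).trans (hR _ (hxK' t)))
  obtain ⟨P, hP, hPx⟩ := periodic_of_lyapunovStable hm hx hr hxr hxR' hst
  obtain ⟨N, hN, U, hU, hxU, hlock⟩ := lock_arc hx hP hPx hst hnc
  have hxc : Continuous x := solution_continuous hx
  have hcomp : IsCompact (range x) := by
    have : range x = x '' Icc 0 P := by
      apply subset_antisymm
      · rintro _ ⟨t, rfl⟩
        have hp : Function.Periodic x P := hPx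
        obtain ⟨s, hs, hst⟩ := hp.exists_mem_Ico₀ hP t
        exact ⟨s, Ico_subset_Icc_self hs, hst.symm⟩
      · exact image_subset_range _ _
    rw [this]
    exact isCompact_Icc.image hxc
  obtain ⟨δ, hδ, hδU⟩ := hcomp.exists_thickening_subset_open hU hxU
  obtain ⟨C, hC, hvel⟩ := velocity_close hm hτ hr
  obtain ⟨ε, hε, hεr, hεδ, hCε⟩ : ∃ ε > 0, ε ≤ r / 4 ∧ ε < δ ∧ C * ε < δ := by
    refine ⟨min (r / 4) (min (δ / 2) (δ / (2 * C))), by positivity, min_le_left _ _, ?_, ?_⟩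
    · calc min (r / 4) (min (δ / 2) (δ / (2 * C))) ≤ δ / 2 :=
          (min_le_right _ _).trans (min_le_left _ _)
        _ < δ := by linarith
    · calc C * min (r / 4) (min (δ / 2) (δ / (2 * C))) ≤ C * (δ / (2 * C)) := by
            gcongr
            exact (min_le_right _ _).trans (min_le_right _ _)
        _ = δ / 2 := by field_simp
        _ < δ := by linarith
  have hp0 : ∀ a, (x τ).1 a = u * (x 0).1 (σ a) := by
    intro a
    have := hper 0 a
    rwa [zero_add] at this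
  obtain ⟨θ0, hθ0, hper'⟩ := persist hm hτ hσ hϖ h2 h3 hx hr hxr hxR hK h0 hu hω hp0 hrev hiso hε
  obtain ⟨θ, hθ, hroot⟩ := exists_nonroot hu hθ0
  obtain ⟨w, w1, hadm, hsol, hw1, p, hpK, hnear⟩ := hper' θ hθ
  have hc : ‖exp ((-p.1 : ℝ) * I)‖ = 1 := Complex.norm_exp_ofReal_mul_I _
  have hu' : ‖exp (θ * I) * u‖ = 1 := by
    rw [norm_mul, hu, mul_one, Complex.norm_exp_ofReal_mul_I]
  have hcc : exp ((-p.1 : ℝ) * I) * exp (p.1 * I) = 1 := by
    rw [← Complex.exp_add]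
    push_cast
    rw [show -(p.1 : ℂ) * I + p.1 * I = 0 by ring, Complex.exp_zero]
  set c := exp ((-p.1 : ℝ) * I) with hcdef
  have hsol' := rotate_sol hc hsol
  have hsolx := isSolution_sol hx τ p.2
  have hclose : ∀ t ∈ Icc 0 τ, ∀ a, ‖c * w t a - (x (t + p.2)).1 a‖ ≤ ε := by
    intro t ht a
    have e : c * w t a - (x (t + p.2)).1 a = c * (w t a - cp x p t a) := by
      unfold cp
      rw [mul_sub, ← mul_assoc, hcc, one_mul]
    rw [e, norm_mul, hc, one_mul]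
    exact hnear t ht a
  have h0τ : (0 : ℝ) ∈ Icc 0 τ := ⟨le_rfl, hτ.le⟩
  have hv := hvel _ _ _ _ ε hsol' hsolx (fun t _ => hxr (t + p.2)) hεr hclose
  have hcom : ∀ t ∈ Icc 0 τ, ∑ a, m a • (c * w t a) = 0 := by
    intro t ht
    have := hadm.path.com t ht
    have e : ∑ a, m a • (c * w t a) = c * ∑ a, m a • w t a := by
      rw [Finset.mul_sum]
      exact Finset.sum_congr rfl fun a _ => (mul_smul_comm _ _ _).symm
    rw [e, this, mul_zero]
  have hncw : ∀ t ∈ Icc 0 τ, ∀ a b, a ≠ b → c * w t a ≠ c * w t b := by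
    intro t ht a b hab h
    have h1 := hclose t ht a
    have h2 := hclose t ht b
    have h3 := hxr (t + p.2) a b hab
    rw [h] at h1
    have h4 : ‖(x (t + p.2)).1 a - (x (t + p.2)).1 b‖ ≤ ε + ε := by
      calc ‖(x (t + p.2)).1 a - (x (t + p.2)).1 b‖
          = ‖(c * w t b - (x (t + p.2)).1 b) - (c * w t b - (x (t + p.2)).1 a)‖ := by
            congr 1
            ring
        _ ≤ ε + ε := (norm_sub_le _ _).trans (add_le_add h2 h1)
    linarith
  obtain ⟨y, hy, hy0, hyT⟩ := exists_twisted_arc hτ hu' hσ hsol' hcom hncw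
    (fun a => by
      show c * w τ a = exp (θ * I) * u * (c * w 0 (σ a))
      rw [hadm.per a]
      ring)
    (fun a => by
      show c * w1 τ a = exp (θ * I) * u * (c * w1 0 (σ a))
      rw [hw1 a]
      ring)
  have hyU : y 0 ∈ U := by
    apply hδU
    rw [Metric.mem_thickening_iff]
    refine ⟨x p.2, mem_range_self _, ?_⟩
    rw [hy0, Prod.dist_eq, max_lt_iff]
    constructor
    · rw [dist_pi_lt_iff hδ]
      intro a
      rw [dist_eq_norm]
      have := hclose 0 h0τ a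
      rw [zero_add] at this
      exact this.trans_lt hεδ
    · rw [dist_pi_lt_iff hδ]
      intro a
      rw [dist_eq_norm]
      have := hv a
      simp only [zero_add] at this
      exact this.trans_lt hCε
  have h6τ : 0 < 6 * τ := by positivity
  have hw6 : ‖(exp (θ * I) * u) ^ 6‖ = 1 := by rw [norm_pow, hu', one_pow]
  have hfin := hlock (6 * τ) h6τ _ hw6 y hy hyU hyT
  rw [← pow_mul] at hfin
  exact hroot (6 * N) (by positivity) hfin

theorem near_zero {τ : ℝ} {x : ℝ → (Fin 3 → ℂ) × (Fin 3 → ℂ)} {ρ : ℝ} {y : ℝ → Fin 3 → ℂ}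
    (h : Near τ x {(0, 0)} ρ y) : ∀ t ∈ Icc 0 τ, ∀ a, ‖y t a - (x t).1 a‖ ≤ ρ := by
  obtain ⟨p, hp, h⟩ := h
  rw [mem_singleton_iff] at hp
  subst hp
  intro t ht a
  have := h t ht a
  simpa [cp] using this

end Mn

theorem main {m : Fin 3 → ℝ} (hm : ∀ a, 0 < m a) (σ : Equiv.Perm (Fin 3))
    (hσ : ∀ a, m (σ a) = m a) {τ : ℝ} (hτ : 0 < τ) {u : ℂ} (hu : ‖u‖ = 1)
    {x : ℝ → (Fin 3 → ℂ) × (Fin 3 → ℂ)} (hx : IsSolution m univ x)
    (hper : ∀ t a, (x (t + τ)).1 a = u * (x t).1 (σ a))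
    (hmin : StrictMin m τ u σ x ∨ ∃ (ω : ℂ) (ϖ : Equiv.Perm (Fin 3)), ‖ω‖ = 1 ∧
      (∀ a, m (ϖ a) = m a) ∧
      (∀ t ∈ Icc 0 τ, ∀ a, (x (τ - t)).1 a = ω * conj ((x t).1 (ϖ a))) ∧
      StrictRevMin m τ u σ ω ϖ x)
    (hst : LyapunovStable m (range x)) :
    ∀ a b t, ‖(x t).1 a - (x t).1 b‖ = ‖(x 0).1 a - (x 0).1 b‖ := by
  rcases hmin with ⟨ρ, hρ, hmin⟩ | ⟨ω, ϖ, hω, hϖ, hrev, ρ, hρ, hmin⟩
  · refine Mn.final (K := Icc (0 : ℝ) (2 * π) ×ˢ Icc (0 : ℝ) (6 * τ)) (b := False) hm σ 1 hσ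
      (fun h => h.elim) (fun h => h.elim) (fun h => h.elim) hτ hu (ω := 1) norm_one hx hper
      (fun h => h.elim) (isCompact_Icc.prod isCompact_Icc) ?_ ⟨ρ, hρ, ?_⟩ hst
    · exact ⟨⟨le_rfl, by positivity⟩, ⟨le_rfl, by positivity⟩⟩
    · rintro y v hadm ⟨p, hp, hnear⟩
      obtain ⟨z, zv, hz, hzp, hzn, hza, hzc⟩ := shift_path hm hτ hu hσ hper hadm.path hadm.per p
        hnear
      obtain ⟨h1, h2⟩ := hmin z zv hz hzp hzn
      rw [hza] at h1 h2
      refine ⟨h1, fun h => ?_⟩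
      obtain ⟨α, s, hαs⟩ := h2 h
      obtain ⟨α', s', h'⟩ := hzc α s hαs
      obtain ⟨q, hq, hq'⟩ := reduce_param hτ hu σ hper α' s'
      refine ⟨q, hq, fun t ht a => ?_⟩
      rw [h' t ht a, hq' t a, sub_self, norm_zero]
  · obtain ⟨h2, h3⟩ := perm_relations (q := (x 0).1) (q' := (x τ).1) hu hω (hx 0 (mem_univ _)).1.1
      (fun a => by
        have := hper 0 a
        rwa [zero_add] at this)
      (fun a => by
        have := hrev 0 ⟨le_rfl, hτ.le⟩ a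
        rwa [sub_zero] at this)
      (fun a => by
        have := hrev τ ⟨hτ.le, le_rfl⟩ a
        rwa [sub_self] at this)
    refine Mn.final (K := {(0, 0)}) (b := True) hm σ ϖ hσ (fun _ => hϖ) (fun _ => h2)
      (fun _ => h3) hτ hu hω hx hper (fun _ => hrev) isCompact_singleton (mem_singleton _)
      ⟨ρ, hρ, ?_⟩ hst
    intro y v hadm hnear
    obtain ⟨k1, k2⟩ := hmin y v hadm.path hadm.per (hadm.rev trivial) (Mn.near_zero hnear)
    refine ⟨k1, fun h => ⟨(0, 0), mem_singleton _, fun t ht a => ?_⟩⟩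
    rw [k2 h t ht]
    simp [cp]

end Pool.Agent.MP_5027f4_min
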