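import Pool.Agent.Lib_MP_5027f4_min.Defs

/-!
# Passage to the limit for closeness and admissibility
-/

open Complex Set Filter Topology MeasureTheory
open scoped Real ComplexConjugate

namespace Pool.Agent.MP_5027f4_min

open Pool.Agent.MP_5027f4_mp

theorem MinA_cp_cont {x : ℝ → (Fin 3 → ℂ) × (Fin 3 → ℂ)} (hx : Continuous x) (t : ℝ) (a : Fin 3) :
    Continuous fun p : ℝ × ℝ => cp x p t a := by
  unfold cp
  have h1 : Continuous fun p : ℝ × ℝ => exp (p.1 * I) := by fun_prop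
  have h2 : Continuous fun p : ℝ × ℝ => (x (t + p.2)).1 a :=
    (continuous_apply a).comp (continuous_fst.comp (hx.comp (by fun_prop)))
  exact h1.mul h2

theorem near_limit {τ : ℝ} {x : ℝ → (Fin 3 → ℂ) × (Fin 3 → ℂ)} (hx : Continuous x)
    {K : Set (ℝ × ℝ)} (hK : IsCompact K) {y : ℕ → ℝ → Fin 3 → ℂ} {w : ℝ → Fin 3 → ℂ}
    (hu : Unif τ y w) {ε : ℝ} (h : ∀ δ > 0, ∃ᶠ k in atTop, Near τ x K (ε + δ) (y k)) :
    Near τ x K ε w := by
  have h1 : ∀ n : ℕ, ∃ p ∈ K, ∀ t ∈ Icc 0 τ, ∀ a, ‖w t a - cp x p t a‖ ≤ ε + 2 / ((n : ℝ) + 1) := by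
    intro n
    have hn : (0 : ℝ) < 1 / ((n : ℝ) + 1) := by positivity
    obtain ⟨k, ⟨p, hp, hk1⟩, hk2⟩ := ((h _ hn).and_eventually (hu _ hn)).exists
    refine ⟨p, hp, fun t ht a => ?_⟩
    have e1 := hk1 t ht a
    have e2 := hk2 t ht a
    have e3 : w t a - cp x p t a = (y k t a - cp x p t a) - (y k t a - w t a) := by ring
    rw [e3]
    refine (norm_sub_le _ _).trans ?_
    have e4 : 2 / ((n : ℝ) + 1) = 1 / ((n : ℝ) + 1) + 1 / ((n : ℝ) + 1) := by ring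
    rw [e4]
    linarith
  choose p hpK hp using h1
  obtain ⟨q, hq, φ, hφ, hlim⟩ := hK.tendsto_subseq hpK
  refine ⟨q, hq, fun t ht a => ?_⟩
  have h2 : Tendsto (fun n => ‖w t a - cp x (p (φ n)) t a‖) atTop (𝓝 ‖w t a - cp x q t a‖) :=
    (tendsto_const_nhds.sub (((MinA_cp_cont hx t a).tendsto q).comp hlim)).norm
  have h3 : Tendsto (fun n : ℕ => ε + 2 / (((φ n : ℕ) : ℝ) + 1)) atTop (𝓝 (ε + 0)) := by
    refine tendsto_const_nhds.add ?_
    have h4 : Tendsto (fun n : ℕ => (((φ n : ℕ) : ℝ) + 1)) atTop atTop :=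
      tendsto_atTop_add_const_right _ _ (tendsto_natCast_atTop_atTop.comp hφ.tendsto_atTop)
    exact h4.const_div_atTop 2
  rw [add_zero] at h3
  exact le_of_tendsto_of_tendsto' h2 h3 fun n => hp (φ n) t ht a

theorem MinA_tendsto {τ : ℝ} {y : ℕ → ℝ → Fin 3 → ℂ} {w : ℝ → Fin 3 → ℂ} (hu : Unif τ y w)
    {t : ℝ} (ht : t ∈ Icc 0 τ) (a : Fin 3) : Tendsto (fun k => y k t a) atTop (𝓝 (w t a)) := by
  rw [Metric.tendsto_nhds]
  intro ε hε
  filter_upwards [hu (ε / 2) (by positivity)] with k hk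
  rw [dist_eq_norm]
  have := hk t ht a
  linarith

theorem adm_limit {m : Fin 3 → ℝ} {τ : ℝ} (hτ : 0 < τ) {u ω : ℂ} {σ ϖ : Equiv.Perm (Fin 3)}
    {b : Prop} {y v : ℕ → ℝ → Fin 3 → ℂ} {w : ℝ → Fin 3 → ℂ} (hu : Unif τ y w)
    (h : ∀ k, Adm m τ u σ b ω ϖ (y k) (v k)) :
    (∀ t ∈ Icc 0 τ, ∑ a, m a • w t a = 0) ∧ (∀ a, w τ a = u * w 0 (σ a)) ∧
    (b → ∀ t ∈ Icc 0 τ, ∀ a, w (τ - t) a = ω * conj (w t (ϖ a))) := by
  have h0 : (0 : ℝ) ∈ Icc 0 τ := ⟨le_rfl, hτ.le⟩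
  have h1 : τ ∈ Icc 0 τ := ⟨hτ.le, le_rfl⟩
  refine ⟨fun t ht => ?_, fun a => ?_, fun hb t ht a => ?_⟩
  · have e1 : Tendsto (fun k => ∑ a, m a • y k t a) atTop (𝓝 (∑ a, m a • w t a)) :=
      tendsto_finset_sum _ fun a _ => (MinA_tendsto hu ht a).const_smul (m a)
    have e2 : (fun k => ∑ a, m a • y k t a) = fun _ => (0 : ℂ) :=
      funext fun k => (h k).path.com t ht
    rw [e2] at e1
    exact tendsto_nhds_unique e1 tendsto_const_nhds
  · have e1 := MinA_tendsto hu h1 a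
    have e2 : Tendsto (fun k => u * y k 0 (σ a)) atTop (𝓝 (u * w 0 (σ a))) :=
      (MinA_tendsto hu h0 (σ a)).const_mul u
    have e3 : (fun k => y k τ a) = fun k => u * y k 0 (σ a) := funext fun k => (h k).per a
    rw [e3] at e1
    exact tendsto_nhds_unique e1 e2
  · have ht' : τ - t ∈ Icc 0 τ := ⟨by linarith [ht.2], by linarith [ht.1]⟩
    have e1 := MinA_tendsto hu ht' a
    have e2 : Tendsto (fun k => ω * conj (y k t (ϖ a))) atTop (𝓝 (ω * conj (w t (ϖ a)))) :=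
      ((Complex.continuous_conj.tendsto _).comp (MinA_tendsto hu ht (ϖ a))).const_mul ω
    have e3 : (fun k => y k (τ - t) a) = fun k => ω * conj (y k t (ϖ a)) :=
      funext fun k => (h k).rev hb t ht a
    rw [e3] at e1
    exact tendsto_nhds_unique e1 e2

end Pool.Agent.MP_5027f4_min
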