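import Pool.Agent.Lib_MP_5027f4_min.Defs

/-!
# Twisting a path (piece PathD)
-/

open Complex Set Filter Topology MeasureTheory
open scoped Real ComplexConjugate

namespace Pool.Agent.MP_5027f4_min

open Pool.Agent.MP_5027f4_mp

theorem PathD_ac {a b : ℝ} {f : ℝ → ℂ} {g : ℝ → ℝ} (hg : AbsolutelyContinuousOnInterval g a b)
    (h : ∀ x ∈ uIcc a b, ∀ y ∈ uIcc a b, dist (f x) (f y) ≤ dist (g x) (g y)) :
    AbsolutelyContinuousOnInterval f a b := by
  rw [absolutelyContinuousOnInterval_iff] at hg ⊢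
  intro ε hε
  obtain ⟨δ, hδ, hE⟩ := hg ε hε
  refine ⟨δ, hδ, fun E h1 h2 => lt_of_le_of_lt ?_ (hE E h1 h2)⟩
  refine Finset.sum_le_sum fun i hi => h _ ?_ _ ?_
  · exact (h1.1 i hi).1
  · exact (h1.1 i hi).2

theorem PathD_prim {a b : ℝ} {v : ℝ → ℂ} (hv : IntervalIntegrable v volume a b) :
    AbsolutelyContinuousOnInterval (fun x => ∫ s in a..x, v s) a b := by
  refine PathD_ac (hv.norm.absolutelyContinuousOnInterval_intervalIntegral (c := a) (by simp))
    fun x hx y hy => ?_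
  have hx1 : IntervalIntegrable v volume a x := hv.mono_set (uIcc_subset_uIcc left_mem_uIcc hx)
  have hy1 : IntervalIntegrable v volume a y := hv.mono_set (uIcc_subset_uIcc left_mem_uIcc hy)
  rw [dist_eq_norm, dist_eq_norm, intervalIntegral.integral_interval_sub_left hx1 hy1,
    intervalIntegral.integral_interval_sub_left hx1.norm hy1.norm, Real.norm_eq_abs]
  exact intervalIntegral.norm_integral_le_abs_integral_norm

/-- product rule for a primitive and a `C¹` function -/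
theorem PathD_mul {τ : ℝ} (hτ : 0 < τ) {v : ℝ → ℂ} (hv : IntervalIntegrable v volume 0 τ) (y0 : ℂ)
    {e e1 : ℝ → ℂ} (he : ∀ t, HasDerivAt e (e1 t) t) (he1 : Continuous e1) :
    ContinuousOn (fun t => y0 + ∫ s in (0 : ℝ)..t, v s) (Icc 0 τ) ∧
    ∀ t ∈ Icc 0 τ, e t * (y0 + ∫ s in (0 : ℝ)..t, v s) = e 0 * y0 +
      ∫ s in (0 : ℝ)..t, (e s * v s + e1 s * (y0 + ∫ r in (0 : ℝ)..s, v r)) := by
  set Y : ℝ → ℂ := fun t => y0 + ∫ s in (0 : ℝ)..t, v s with hY
  have hu : uIcc 0 τ = Icc 0 τ := uIcc_of_le hτ.le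
  have hYac : AbsolutelyContinuousOnInterval Y 0 τ := by
    have h1 : AbsolutelyContinuousOnInterval (fun _ : ℝ => y0) 0 τ :=
      contDiffOn_const.absolutelyContinuousOnInterval
    exact h1.add (PathD_prim hv)
  have hYc : ContinuousOn Y (Icc 0 τ) := by
    have := hYac.continuousOn
    rwa [hu] at this
  refine ⟨hYc, ?_⟩
  have hec : Continuous e := continuous_iff_continuousAt.mpr fun t => (he t).continuousAt
  have heac : AbsolutelyContinuousOnInterval e 0 τ := by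
    have h1 : ContDiff ℝ 1 e := by
      rw [contDiff_one_iff_deriv]
      refine ⟨fun t => (he t).differentiableAt, ?_⟩
      have h2 : deriv e = e1 := funext fun t => (he t).deriv
      rw [h2]
      exact he1
    exact h1.contDiffOn.absolutelyContinuousOnInterval
  set g : ℝ → ℂ := fun s => e s * v s + e1 s * Y s with hg
  have hgi : IntervalIntegrable g volume 0 τ := by
    refine (hv.continuousOn_mul hec.continuousOn).add ?_
    apply ContinuousOn.intervalIntegrable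
    rw [hu]
    exact he1.continuousOn.mul hYc
  have hac : AbsolutelyContinuousOnInterval (fun t => e t • Y t - ∫ s in (0 : ℝ)..t, g s) 0 τ :=
    (heac.fun_smul hYac).fun_sub (PathD_prim hgi)
  obtain ⟨C, hC⟩ := hac.const_of_ae_hasDerivAt_zero (by
    filter_upwards [hv.ae_hasDerivAt_integral, hgi.ae_hasDerivAt_integral] with t h1 h2 ht
    have h3 : HasDerivAt Y (v t) t := (h1 ht 0 left_mem_uIcc).const_add y0
    have h4 := ((he t).mul h3).sub (h2 ht 0 left_mem_uIcc)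
    have h5 : e1 t * Y t + e t * v t - g t = 0 := by
      rw [hg]
      ring
    rw [h5] at h4
    exact h4)
  intro t ht
  have h0 := hC 0 left_mem_uIcc
  have ht' := hC t (by rw [hu]; exact ht)
  simp only [intervalIntegral.integral_same, sub_zero, smul_eq_mul] at h0 ht'
  have hY0 : Y 0 = y0 := by simp [hY]
  rw [hY0] at h0
  linear_combination ht' - h0

/-- the twisting factor -/
noncomputable def PathD_e (τ θ t : ℝ) : ℂ := exp ((θ * t / τ : ℝ) * I)

theorem PathD_norm (τ θ t : ℝ) : ‖PathD_e τ θ t‖ = 1 := norm_exp_ofReal_mul_I _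

theorem PathD_deriv (τ θ t : ℝ) :
    HasDerivAt (PathD_e τ θ) (PathD_e τ θ t * ((θ / τ : ℝ) * I)) t := by
  have h1 : HasDerivAt (fun t : ℝ => ((θ * t / τ : ℝ) : ℂ)) ((θ / τ : ℝ) : ℂ) t := by
    have h2 : HasDerivAt (fun t : ℝ => θ * t / τ) (θ / τ) t := by
      have := ((hasDerivAt_id t).const_mul θ).div_const τ
      simpa using this
    exact h2.ofReal_comp
  exact (h1.mul_const I).cexp

theorem PathD_cont (τ θ : ℝ) : Continuous (PathD_e τ θ) :=
  continuous_iff_continuousAt.mpr fun t => (PathD_deriv τ θ t).continuousAt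

theorem PathD_contOn {m : Fin 3 → ℝ} {τ : ℝ} {y v : ℝ → Fin 3 → ℂ} (hτ : 0 < τ)
    (h : IsPath m τ y v) (a : Fin 3) : ContinuousOn (fun t => y t a) (Icc 0 τ) :=
  (PathD_mul hτ (h.int a) (y 0 a) (e := fun _ => 1) (e1 := fun _ => 0)
    (fun t => hasDerivAt_const t 1) continuous_const).1.congr fun t ht => h.eq t ht a

theorem PathD_normsq (z w : ℂ) : ‖z + w‖ ^ 2 = ‖z‖ ^ 2 + 2 * (z * conj w).re + ‖w‖ ^ 2 := by
  rw [← Complex.normSq_eq_norm_sq, ← Complex.normSq_eq_norm_sq, ← Complex.normSq_eq_norm_sq,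
    Complex.normSq_add]
  ring

theorem PathD_isPath {m : Fin 3 → ℝ} {τ θ : ℝ} {y v : ℝ → Fin 3 → ℂ} (hτ : 0 < τ)
    (h : IsPath m τ y v) : IsPath m τ (tw τ θ y) (twv τ θ y v) := by
  have hu : uIcc 0 τ = Icc 0 τ := uIcc_of_le hτ.le
  have hyc := PathD_contOn hτ h
  have hyi : ∀ a, ContinuousOn (fun t => ((θ / τ : ℝ) : ℂ) * I * y t a) (uIcc 0 τ) := by
    intro a
    rw [hu]
    exact continuousOn_const.mul (hyc a)
  have hint : ∀ a, IntervalIntegrable (fun t => v t a + ((θ / τ : ℝ) : ℂ) * I * y t a)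
      volume 0 τ := fun a => (h.int a).add (hyi a).intervalIntegrable
  refine ⟨fun a => ?_, fun a => ?_, fun t ht a => ?_, fun t ht => ?_⟩
  · exact (hint a).continuousOn_mul (PathD_cont τ θ).continuousOn
  · have h1 : (fun t => ‖twv τ θ y v t a‖ ^ 2) = fun t => ‖v t a‖ ^ 2 +
        2 * (v t a * conj (((θ / τ : ℝ) : ℂ) * I * y t a)).re +
          ‖((θ / τ : ℝ) : ℂ) * I * y t a‖ ^ 2 := by
      funext t
      rw [← PathD_normsq]
      change ‖PathD_e τ θ t * (v t a + ((θ / τ : ℝ) : ℂ) * I * y t a)‖ ^ 2 = _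
      rw [norm_mul, PathD_norm, one_mul]
    rw [h1]
    refine ((h.sq a).add ?_).add ?_
    · have h2 : IntervalIntegrable (fun t => v t a * conj (((θ / τ : ℝ) : ℂ) * I * y t a))
          volume 0 τ := (h.int a).mul_continuousOn
        (Complex.continuous_conj.comp_continuousOn (hyi a))
      have h3 : IntervalIntegrable (fun t => (v t a * conj (((θ / τ : ℝ) : ℂ) * I * y t a)).re)
          volume 0 τ := ⟨h2.1.re, h2.2.re⟩
      exact h3.const_mul 2
    · exact ((hyi a).norm.pow 2).intervalIntegrable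
  · have h1 := (PathD_mul hτ (h.int a) (y 0 a) (e := PathD_e τ θ)
      (e1 := fun t => PathD_e τ θ t * ((θ / τ : ℝ) * I)) (PathD_deriv τ θ)
      ((PathD_cont τ θ).mul continuous_const)).2 t ht
    rw [← h.eq t ht a] at h1
    have e0 : tw τ θ y 0 a = PathD_e τ θ 0 * y 0 a := rfl
    have e1 : tw τ θ y t a = PathD_e τ θ t * y t a := rfl
    rw [e0, e1, h1]
    congr 1
    apply intervalIntegral.integral_congr
    intro s hs
    rw [uIcc_of_le ht.1] at hs
    have hs' : s ∈ Icc 0 τ := ⟨hs.1, hs.2.trans ht.2⟩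
    simp only
    rw [← h.eq s hs' a]
    change _ = PathD_e τ θ s * (v s a + ((θ / τ : ℝ) : ℂ) * I * y s a)
    ring
  · have h1 : ∑ a, m a • tw τ θ y t a = PathD_e τ θ t * ∑ a, m a • y t a := by
      rw [Finset.mul_sum]
      refine Finset.sum_congr rfl fun a _ => ?_
      change m a • (PathD_e τ θ t * y t a) = _
      rw [mul_smul_comm]
    rw [h1, h.com t ht, mul_zero]

theorem PathD_pot (m : Fin 3 → ℝ) (c : ℂ) (hc : ‖c‖ = 1) (q : Fin 3 → ℂ) :
    pot m (fun a => c * q a) = pot m q := by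
  unfold pot
  simp only [← mul_sub, norm_mul, hc, one_mul]

theorem PathD_potc {m : Fin 3 → ℝ} {τ r : ℝ} (hr : 0 < r) {y : ℝ → Fin 3 → ℂ}
    (hy : ∀ a, ContinuousOn (fun t => y t a) (Icc 0 τ)) (hs : ∀ t ∈ Icc 0 τ, Sep r (y t)) :
    ContinuousOn (fun t => pot m (y t)) (Icc 0 τ) := by
  have h1 : ∀ a b, a ≠ b → ∀ c : ℝ, ContinuousOn (fun t => c / ‖y t a - y t b‖) (Icc 0 τ) := by
    intro a b hab c
    refine continuousOn_const.div ((hy a).sub (hy b)).norm fun t ht => ?_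
    have := hs t ht a b hab
    linarith
  exact ((h1 0 1 (by decide) _).add (h1 1 2 (by decide) _)).add (h1 2 0 (by decide) _)

theorem PathD_dens {τ θ R : ℝ} (hτ : 0 < τ) (hθ : |θ| ≤ 1) {z w : ℂ} (hw : ‖w‖ ≤ R) :
    |‖z + ((θ / τ : ℝ) : ℂ) * I * w‖ ^ 2 - ‖z‖ ^ 2| ≤
      |θ| * (‖z‖ ^ 2 / τ + R ^ 2 / τ + R ^ 2 / τ ^ 2) := by
  have hR : 0 ≤ R := (norm_nonneg w).trans hw
  have hn : ‖((θ / τ : ℝ) : ℂ) * I * w‖ = |θ| / τ * ‖w‖ := by
    rw [norm_mul, norm_mul, Complex.norm_I, mul_one, Complex.norm_real, Real.norm_eq_abs, abs_div,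
      abs_of_pos hτ]
  have h1 : |‖z + ((θ / τ : ℝ) : ℂ) * I * w‖ ^ 2 - ‖z‖ ^ 2| ≤
      2 * (‖z‖ * (|θ| / τ * ‖w‖)) + (|θ| / τ * ‖w‖) ^ 2 := by
    rw [PathD_normsq, hn]
    have h2 : |(z * conj (((θ / τ : ℝ) : ℂ) * I * w)).re| ≤ ‖z‖ * (|θ| / τ * ‖w‖) := by
      refine (Complex.abs_re_le_norm _).trans ?_
      rw [norm_mul, RCLike.norm_conj, hn]
    have h3 := abs_le.mp h2
    rw [abs_le]
    have h4 : 0 ≤ (|θ| / τ * ‖w‖) ^ 2 := sq_nonneg _
    have h5 : 0 ≤ ‖z‖ * (|θ| / τ * ‖w‖) := by positivity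
    constructor <;> linarith [h3.1, h3.2]
  refine h1.trans ?_
  have h2 : 2 * (‖z‖ * (|θ| / τ * ‖w‖)) ≤ |θ| * (‖z‖ ^ 2 / τ + R ^ 2 / τ) := by
    have h3 : 2 * (‖z‖ * ‖w‖) ≤ ‖z‖ ^ 2 + R ^ 2 := by
      nlinarith [sq_nonneg (‖z‖ - ‖w‖), mul_self_le_mul_self (norm_nonneg w) hw]
    calc 2 * (‖z‖ * (|θ| / τ * ‖w‖)) = |θ| / τ * (2 * (‖z‖ * ‖w‖)) := by ring
      _ ≤ |θ| / τ * (‖z‖ ^ 2 + R ^ 2) := mul_le_mul_of_nonneg_left h3 (by positivity)
      _ = _ := by ring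
  have h3 : (|θ| / τ * ‖w‖) ^ 2 ≤ |θ| * (R ^ 2 / τ ^ 2) := by
    have h4 : ‖w‖ ^ 2 ≤ R ^ 2 := pow_le_pow_left₀ (norm_nonneg w) hw 2
    have h5 : |θ| ^ 2 ≤ |θ| := by nlinarith [abs_nonneg θ]
    calc (|θ| / τ * ‖w‖) ^ 2 = |θ| ^ 2 * (‖w‖ ^ 2 / τ ^ 2) := by ring
      _ ≤ |θ| * (R ^ 2 / τ ^ 2) := by
        apply mul_le_mul h5 _ (by positivity) (abs_nonneg _)
        gcongr
  linarith

theorem twist_action {m : Fin 3 → ℝ} (hm : ∀ a, 0 < m a) {τ : ℝ} (hτ : 0 < τ) (B R : ℝ) (r : ℝ)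
    (hr : 0 < r) :
    ∃ C > 0, ∀ (y v : ℝ → Fin 3 → ℂ) (θ : ℝ), IsPath m τ y v → |θ| ≤ 1 →
      (∀ t ∈ Icc 0 τ, Sep r (y t)) → (∀ t ∈ Icc 0 τ, ∀ a, ‖y t a‖ ≤ R) →
      (∀ a, ∫ t in (0 : ℝ)..τ, ‖v t a‖ ^ 2 ≤ B) →
      IsPath m τ (tw τ θ y) (twv τ θ y v) ∧
      |action m τ (tw τ θ y) (twv τ θ y v) - action m τ y v| ≤ C * |θ| ∧
      (∀ t ∈ Icc 0 τ, Sep r (tw τ θ y t)) ∧
      ∀ t ∈ Icc 0 τ, ∀ a, ‖tw τ θ y t a - y t a‖ ≤ C * |θ| := by
  set D : ℝ := B / τ + R ^ 2 + R ^ 2 / τ with hD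
  refine ⟨1 + |R| + (∑ a, m a) * |D|, by
    have : 0 ≤ ∑ a, m a := Finset.sum_nonneg fun a _ => (hm a).le
    positivity, fun y v θ h hθ hs hR hB => ?_⟩
  have hM : 0 ≤ ∑ a, m a := Finset.sum_nonneg fun a _ => (hm a).le
  have hu : uIcc 0 τ = Icc 0 τ := uIcc_of_le hτ.le
  have hp := PathD_isPath (θ := θ) hτ h
  refine ⟨hp, ?_, fun t ht a b hab => ?_, fun t ht a => ?_⟩
  · have hpoti : IntervalIntegrable (fun t => pot m (y t)) volume 0 τ := by
      apply ContinuousOn.intervalIntegrable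
      rw [hu]
      exact PathD_potc hr (PathD_contOn hτ h) hs
    have hk0 : IntervalIntegrable (fun t => (∑ a, m a * ‖v t a‖ ^ 2) / 2) volume 0 τ := by
      have h1 := IntervalIntegrable.sum Finset.univ
        (f := fun a t => m a * ‖v t a‖ ^ 2) (fun a _ => (h.sq a).const_mul (m a))
      have h2 : (∑ a, fun t => m a * ‖v t a‖ ^ 2) = fun t => ∑ a, m a * ‖v t a‖ ^ 2 := by
        funext t
        rw [Finset.sum_apply]
      rw [h2] at h1
      exact h1.div_const 2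
    have hk1 : IntervalIntegrable (fun t => (∑ a, m a * ‖twv τ θ y v t a‖ ^ 2) / 2)
        volume 0 τ := by
      have h1 := IntervalIntegrable.sum Finset.univ
        (f := fun a t => m a * ‖twv τ θ y v t a‖ ^ 2) (fun a _ => (hp.sq a).const_mul (m a))
      have h2 : (∑ a, fun t => m a * ‖twv τ θ y v t a‖ ^ 2) =
          fun t => ∑ a, m a * ‖twv τ θ y v t a‖ ^ 2 := by
        funext t
        rw [Finset.sum_apply]
      rw [h2] at h1
      exact h1.div_const 2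
    have hpt : ∀ t, pot m (tw τ θ y t) = pot m (y t) := fun t =>
      PathD_pot m _ (PathD_norm τ θ t) (y t)
    have e1 : action m τ (tw τ θ y) (twv τ θ y v) - action m τ y v =
        ∫ t in (0 : ℝ)..τ, ((∑ a, m a * ‖twv τ θ y v t a‖ ^ 2) / 2 -
          (∑ a, m a * ‖v t a‖ ^ 2) / 2) := by
      unfold action
      simp only [hpt]
      rw [intervalIntegral.integral_add hk1 hpoti, intervalIntegral.integral_add hk0 hpoti,
        intervalIntegral.integral_sub hk1 hk0]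
      ring
    have hbi : ∀ a, IntervalIntegrable (fun t => ‖v t a‖ ^ 2 / τ + R ^ 2 / τ + R ^ 2 / τ ^ 2)
        volume 0 τ := fun a => (((h.sq a).div_const τ).add intervalIntegrable_const).add
      intervalIntegrable_const
    have hbi2 : IntervalIntegrable (fun t => |θ| * ∑ a, m a *
        (‖v t a‖ ^ 2 / τ + R ^ 2 / τ + R ^ 2 / τ ^ 2)) volume 0 τ := by
      have h1 := IntervalIntegrable.sum Finset.univ
        (f := fun a t => m a * (‖v t a‖ ^ 2 / τ + R ^ 2 / τ + R ^ 2 / τ ^ 2))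
        (fun a _ => (hbi a).const_mul (m a))
      have h2 : (∑ a, fun t => m a * (‖v t a‖ ^ 2 / τ + R ^ 2 / τ + R ^ 2 / τ ^ 2)) =
          fun t => ∑ a, m a * (‖v t a‖ ^ 2 / τ + R ^ 2 / τ + R ^ 2 / τ ^ 2) := by
        funext t
        rw [Finset.sum_apply]
      rw [h2] at h1
      exact h1.const_mul |θ|
    have e2 : |∫ t in (0 : ℝ)..τ, ((∑ a, m a * ‖twv τ θ y v t a‖ ^ 2) / 2 -
          (∑ a, m a * ‖v t a‖ ^ 2) / 2)| ≤ ∫ t in (0 : ℝ)..τ, |θ| * ∑ a, m a *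
            (‖v t a‖ ^ 2 / τ + R ^ 2 / τ + R ^ 2 / τ ^ 2) := by
      rw [← Real.norm_eq_abs]
      refine intervalIntegral.norm_integral_le_of_norm_le hτ.le (ae_of_all _ fun t ht => ?_) hbi2
      have ht' : t ∈ Icc 0 τ := ⟨ht.1.le, ht.2⟩
      rw [Real.norm_eq_abs, ← sub_div, ← Finset.sum_sub_distrib, abs_div, abs_two]
      have h3 : |∑ a, (m a * ‖twv τ θ y v t a‖ ^ 2 - m a * ‖v t a‖ ^ 2)| ≤
          |θ| * ∑ a, m a * (‖v t a‖ ^ 2 / τ + R ^ 2 / τ + R ^ 2 / τ ^ 2) := by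
        refine (Finset.abs_sum_le_sum_abs _ _).trans ?_
        rw [Finset.mul_sum]
        refine Finset.sum_le_sum fun a _ => ?_
        have h4 : ‖twv τ θ y v t a‖ = ‖v t a + ((θ / τ : ℝ) : ℂ) * I * y t a‖ := by
          change ‖PathD_e τ θ t * (v t a + ((θ / τ : ℝ) : ℂ) * I * y t a)‖ = _
          rw [norm_mul, PathD_norm, one_mul]
        rw [← mul_sub, abs_mul, abs_of_pos (hm a), h4, mul_left_comm]
        exact mul_le_mul_of_nonneg_left (PathD_dens hτ hθ (hR t ht' a)) (hm a).le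
      have h5 : 0 ≤ |∑ a, (m a * ‖twv τ θ y v t a‖ ^ 2 - m a * ‖v t a‖ ^ 2)| := abs_nonneg _
      linarith
    have e3 : ∫ t in (0 : ℝ)..τ, |θ| * ∑ a, m a *
            (‖v t a‖ ^ 2 / τ + R ^ 2 / τ + R ^ 2 / τ ^ 2) ≤ |θ| * ((∑ a, m a) * |D|) := by
      rw [intervalIntegral.integral_const_mul]
      refine mul_le_mul_of_nonneg_left ?_ (abs_nonneg θ)
      rw [intervalIntegral.integral_finsetSum fun a _ => (hbi a).const_mul (m a),
        Finset.sum_mul]
      refine Finset.sum_le_sum fun a _ => ?_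
      rw [intervalIntegral.integral_const_mul]
      refine mul_le_mul_of_nonneg_left ?_ (hm a).le
      rw [intervalIntegral.integral_add (((h.sq a).div_const τ).add intervalIntegrable_const)
        intervalIntegrable_const, intervalIntegral.integral_add ((h.sq a).div_const τ)
        intervalIntegrable_const, intervalIntegral.integral_div,
        intervalIntegral.integral_const, intervalIntegral.integral_const, sub_zero, smul_eq_mul,
        smul_eq_mul]
      have h6 : (∫ t in (0 : ℝ)..τ, ‖v t a‖ ^ 2) / τ ≤ B / τ := by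
        have := hB a
        gcongr
      have h7 : τ * (R ^ 2 / τ) = R ^ 2 := by field_simp
      have h8 : τ * (R ^ 2 / τ ^ 2) = R ^ 2 / τ := by field_simp
      rw [h7, h8]
      refine le_trans ?_ (le_abs_self D)
      rw [hD]
      linarith
    rw [e1]
    refine (e2.trans e3).trans ?_
    have h9 : 0 ≤ (1 + |R|) * |θ| := by positivity
    nlinarith [h9]
  · have h1 : ‖tw τ θ y t a - tw τ θ y t b‖ = ‖y t a - y t b‖ := by
      change ‖PathD_e τ θ t * y t a - PathD_e τ θ t * y t b‖ = _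
      rw [← mul_sub, norm_mul, PathD_norm, one_mul]
    rw [h1]
    exact hs t ht a b hab
  · have h1 : ‖tw τ θ y t a - y t a‖ = ‖PathD_e τ θ t - 1‖ * ‖y t a‖ := by
      change ‖PathD_e τ θ t * y t a - y t a‖ = _
      rw [← sub_one_mul, norm_mul]
    have h2 : ‖PathD_e τ θ t - 1‖ ≤ |θ| := by
      unfold PathD_e
      rw [mul_comm]
      refine Real.norm_exp_I_mul_ofReal_sub_one_le.trans ?_
      rw [Real.norm_eq_abs, abs_div, abs_mul, abs_of_pos hτ, abs_of_nonneg ht.1,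
        div_le_iff₀ hτ]
      exact mul_le_mul_of_nonneg_left ht.2 (abs_nonneg θ)
    have hR' : ‖y t a‖ ≤ |R| := (hR t ht a).trans (le_abs_self R)
    rw [h1]
    have h3 : ‖PathD_e τ θ t - 1‖ * ‖y t a‖ ≤ |θ| * |R| :=
      mul_le_mul h2 hR' (norm_nonneg _) (abs_nonneg _)
    have h4 : 0 ≤ (1 + (∑ a, m a) * |D|) * |θ| := by positivity
    nlinarith [h3, h4]

theorem twist_adm {m : Fin 3 → ℝ} {τ : ℝ} (hτ : 0 < τ) {u : ℂ} {σ : Equiv.Perm (Fin 3)}
    {b : Prop} {ω : ℂ} {ϖ : Equiv.Perm (Fin 3)} {y v : ℝ → Fin 3 → ℂ} (θ : ℝ)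
    (h : Adm m τ u σ b ω ϖ y v) (hp : IsPath m τ (tw τ θ y) (twv τ θ y v)) :
    Adm m τ (exp (θ * I) * u) σ b (exp (θ * I) * ω) ϖ (tw τ θ y) (twv τ θ y v) := by
  refine ⟨hp, fun a => ?_, fun hb t ht a => ?_⟩
  · unfold tw
    rw [h.per a, mul_zero, zero_div, Complex.ofReal_zero, zero_mul, Complex.exp_zero, one_mul,
      mul_div_assoc, div_self hτ.ne', mul_one, mul_assoc]
  · unfold tw
    rw [h.rev hb t ht a, map_mul, ← Complex.exp_conj, map_mul, Complex.conj_ofReal,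
      Complex.conj_I]
    have h1 : exp (((θ * (τ - t) / τ : ℝ) : ℂ) * I) =
        exp (θ * I) * exp (((θ * t / τ : ℝ) : ℂ) * -I) := by
      rw [← Complex.exp_add]
      congr 1
      have hτ' : (τ : ℂ) ≠ 0 := by exact_mod_cast hτ.ne'
      push_cast
      field_simp
      ring
    rw [h1]
    ring

end Pool.Agent.MP_5027f4_min
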