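import Pool.Agent.Lib_MP_5027f4_min.Defs

/-! Piece PathF: Arzela-Ascoli for sequences of Hoelder paths. -/

open Complex Set Filter Topology MeasureTheory
open scoped Real ComplexConjugate

namespace Pool.Agent.MP_5027f4_min

open Pool.Agent.MP_5027f4_mp

theorem exists_limit {τ : ℝ} (hτ : 0 < τ) (y : ℕ → ℝ → Fin 3 → ℂ) (B R : ℝ)
    (hB : ∀ k, ∀ s ∈ Icc 0 τ, ∀ t ∈ Icc 0 τ, ∀ a, ‖y k t a - y k s a‖ ^ 2 ≤ |t - s| * B)
    (hR : ∀ k, ∀ t ∈ Icc 0 τ, ∀ a, ‖y k t a‖ ≤ R) :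
    ∃ φ : ℕ → ℕ, StrictMono φ ∧ ∃ w : ℝ → Fin 3 → ℂ, ContinuousOn w (Icc 0 τ) ∧
      Unif τ (fun k => y (φ k)) w := by
  have h0 : (0 : ℝ) ∈ Icc 0 τ := ⟨le_refl 0, hτ.le⟩
  have hRn : 0 ≤ R := (norm_nonneg _).trans (hR 0 0 h0 0)
  -- modulus of continuity
  set b : ℝ → ℝ := fun r => Real.sqrt (r * |B|) with hb
  have hblim : Tendsto b (𝓝 0) (𝓝 0) := by
    have hc : Continuous b := Real.continuous_sqrt.comp (continuous_id.mul continuous_const)
    have := hc.tendsto 0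
    have h1 : b 0 = 0 := by rw [hb]; simp
    rwa [h1] at this
  have hmod : ∀ k, ∀ s t : Icc (0 : ℝ) τ, dist (y k s) (y k t) ≤ b (dist s t) := by
    intro k s t
    rw [dist_pi_le_iff (Real.sqrt_nonneg _)]
    intro a
    apply Real.le_sqrt_of_sq_le
    have h1 := hB k t.1 t.2 s.1 s.2 a
    rw [dist_eq_norm]
    refine h1.trans ?_
    have h2 : dist s t = |s.1 - t.1| := rfl
    rw [h2]
    exact mul_le_mul_of_nonneg_left (le_abs_self B) (abs_nonneg _)
  have hcont : ∀ k, Continuous (fun t : Icc (0 : ℝ) τ => y k t) := by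
    intro k
    have he : Equicontinuous (fun _ : Unit => fun t : Icc (0 : ℝ) τ => y k t) :=
      Metric.equicontinuous_of_continuity_modulus b hblim _ (fun s t _ => hmod k s t)
    exact he.continuous ()
  let f : ℕ → BoundedContinuousFunction (Icc (0 : ℝ) τ) (Fin 3 → ℂ) := fun k =>
    BoundedContinuousFunction.mkOfCompact ⟨fun t => y k t, hcont k⟩
  have hf : ∀ k (t : Icc (0 : ℝ) τ), f k t = y k t := fun k t => rfl
  have hcomp : IsCompact (closure (range f)) := by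
    refine BoundedContinuousFunction.arzela_ascoli (Metric.closedBall 0 R)
      (isCompact_closedBall 0 R) (range f) ?_ ?_
    · rintro g t ⟨k, rfl⟩
      rw [mem_closedBall_zero_iff, hf, pi_norm_le_iff_of_nonneg hRn]
      exact hR k t.1 t.2
    · refine Metric.equicontinuous_of_continuity_modulus b hblim _ ?_
      rintro s t ⟨g, ⟨k, rfl⟩⟩
      exact hmod k s t
  obtain ⟨g, -, φ, hφ, hlim⟩ := hcomp.isSeqCompact
    (fun k => subset_closure (mem_range_self k) : ∀ k, f k ∈ closure (range f))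
  refine ⟨φ, hφ, fun t => g (projIcc 0 τ hτ.le t), ?_, ?_⟩
  · exact (g.continuous.comp continuous_projIcc).continuousOn
  · intro ε hε
    have h1 := (Metric.tendsto_nhds.1 hlim) ε hε
    filter_upwards [h1] with k hk t ht a
    have h2 : dist (f (φ k) ⟨t, ht⟩) (g ⟨t, ht⟩) ≤ dist (f (φ k)) g :=
      BoundedContinuousFunction.dist_coe_le_dist _
    have h3 : dist (y (φ k) t a) (g ⟨t, ht⟩ a) ≤ dist (f (φ k) ⟨t, ht⟩) (g ⟨t, ht⟩) :=
      dist_le_pi_dist (y (φ k) t) (g ⟨t, ht⟩) a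
    rw [projIcc_of_mem hτ.le ht, ← dist_eq_norm]
    exact (h3.trans h2).trans hk.le

end Pool.Agent.MP_5027f4_min
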