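import Pool.Agent.Lib_MP_5027f4_min.RegA

/-!
# Regularity of the weak solutions (piece RegB)
-/

open Complex Set Filter Topology MeasureTheory
open scoped Real ComplexConjugate

namespace Pool.Agent.MP_5027f4_min

open Pool.Agent.MP_5027f4_mp

theorem RegB_ip_deriv {f g : ℝ → ℂ} {f' g' : ℂ} {t : ℝ} (hf : HasDerivAt f f' t)
    (hg : HasDerivAt g g' t) :
    HasDerivAt (fun t => ip (f t) (g t)) (ip f' (g t) + ip (f t) g') t := by
  have r : ∀ {f : ℝ → ℂ} {f' : ℂ}, HasDerivAt f f' t → HasDerivAt (fun t => (f t).re) f'.re t :=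
    fun h => Complex.reCLM.hasFDerivAt.comp_hasDerivAt t h
  have i : ∀ {f : ℝ → ℂ} {f' : ℂ}, HasDerivAt f f' t → HasDerivAt (fun t => (f t).im) f'.im t :=
    fun h => Complex.imCLM.hasFDerivAt.comp_hasDerivAt t h
  have h := ((r hf).mul (r hg)).add ((i hf).mul (i hg))
  unfold ip
  exact h.congr_deriv (by ring)

theorem RegB_acc_cont (m : Fin 3 → ℝ) {τ : ℝ} {w : ℝ → Fin 3 → ℂ}
    (hw : ContinuousOn w (Icc 0 τ))
    (hnc : ∀ t ∈ Icc 0 τ, ∀ a b, a ≠ b → w t a ≠ w t b) (a : Fin 3) :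
    ContinuousOn (fun t => acc m (w t) a) (Icc 0 τ) := by
  unfold acc
  have hwa : ∀ c, ContinuousOn (fun t => w t c) (Icc 0 τ) := fun c =>
    (continuous_apply c).comp_continuousOn hw
  apply continuousOn_finsetSum
  intro b hb
  have hba : b ≠ a := Finset.ne_of_mem_erase hb
  apply ContinuousOn.fun_smul
  · apply ContinuousOn.div continuousOn_const
    · exact (((hwa b).sub (hwa a)).norm).pow 3
    · intro t ht
      have := hnc t ht b a hba
      exact pow_ne_zero 3 (norm_ne_zero_iff.2 (sub_ne_zero.2 this))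
  · exact (hwa b).sub (hwa a)

/-- The coefficients of the variation of the pair `a, b`. -/
noncomputable def RegB_K (m : Fin 3 → ℝ) (a b c : Fin 3) : ℝ :=
  (m c)⁻¹ * ((if c = a then 1 else 0) - (if c = b then 1 else 0))

theorem RegB_mK {m : Fin 3 → ℝ} (hm : ∀ a, 0 < m a) (a b c : Fin 3) :
    m c * RegB_K m a b c = (if c = a then 1 else 0) - (if c = b then 1 else 0) := by
  unfold RegB_K
  rw [← mul_assoc, mul_inv_cancel₀ (hm c).ne', one_mul]

theorem RegB_sum {m : Fin 3 → ℝ} (hm : ∀ a, 0 < m a) (a b : Fin 3) (z : ℂ) :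
    ∑ c, m c • (RegB_K m a b c • z) = 0 := by
  simp_rw [smul_smul, RegB_mK hm, sub_smul]
  rw [Finset.sum_sub_distrib]
  simp

theorem RegB_ipm {m : Fin 3 → ℝ} (hm : ∀ a, 0 < m a) (a b : Fin 3) (q : Fin 3 → ℂ) (z : ℂ) :
    ipm m q (fun c => RegB_K m a b c • z) = ip (q a - q b) z := by
  unfold ipm
  have e : ∀ c, m c * ip (q c) (RegB_K m a b c • z) =
      ((if c = a then 1 else 0) - (if c = b then 1 else 0)) * ip (q c) z := by
    intro c
    rw [← RegB_mK hm]
    unfold ip
    simp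
    ring
  simp_rw [e, sub_mul]
  rw [Finset.sum_sub_distrib, RegA_ip_sub]
  simp

theorem RegB_pair {m : Fin 3 → ℝ} (hm : ∀ a, 0 < m a) {τ : ℝ} (hτ : 0 < τ)
    {w : ℝ → Fin 3 → ℂ} (hw : ContinuousOn w (Icc 0 τ))
    (hnc : ∀ t ∈ Icc 0 τ, ∀ a b, a ≠ b → w t a ≠ w t b)
    (hweak : ∀ η η1 η2, Test η η1 η2 → (∀ t, ∑ a, m a • η t a = 0) → η 0 = 0 → η τ = 0 →
      η1 0 = 0 → η1 τ = 0 → weak m τ w η η1 η2 = 0) (a b : Fin 3) :
    ∃ D : ℝ → ℂ, ∀ t ∈ Icc 0 τ,
      HasDerivWithinAt (fun t => w t a - w t b) (D t) (Icc 0 τ) t ∧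
      HasDerivWithinAt D (acc m (w t) a - acc m (w t) b) (Icc 0 τ) t := by
  have hwa : ∀ c, ContinuousOn (fun t => w t c) (Icc 0 τ) := fun c =>
    (continuous_apply c).comp_continuousOn hw
  have hfc : ContinuousOn (fun t => acc m (w t) a - acc m (w t) b) (Icc 0 τ) :=
    (RegB_acc_cont m hw hnc a).sub (RegB_acc_cont m hw hnc b)
  set F := RegA_ext τ (fun t => acc m (w t) a - acc m (w t) b) with hF
  have hFc : Continuous F := RegA_ext_cont hτ hfc
  set G1 : ℝ → ℂ := fun t => ∫ s in (0 : ℝ)..t, F s with hG1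
  have hG1d : ∀ t, HasDerivAt G1 (F t) t := fun t =>
    intervalIntegral.integral_hasDerivAt_right (hFc.intervalIntegrable _ _)
      (hFc.stronglyMeasurableAtFilter _ _) hFc.continuousAt
  have hG1c : Continuous G1 := continuous_iff_continuousAt.2 fun t => (hG1d t).continuousAt
  set G : ℝ → ℂ := fun t => ∫ s in (0 : ℝ)..t, G1 s with hG
  have hGd : ∀ t, HasDerivAt G (G1 t) t := fun t =>
    intervalIntegral.integral_hasDerivAt_right (hG1c.intervalIntegrable _ _)
      (hG1c.stronglyMeasurableAtFilter _ _) hG1c.continuousAt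
  have hGc : Continuous G := continuous_iff_continuousAt.2 fun t => (hGd t).continuousAt
  obtain ⟨c0, c1, hc⟩ := bois_reymond hτ (fun t => w t a - w t b - G t)
    (((hwa a).sub (hwa b)).sub hGc.continuousOn) (by
      intro ζ ζ1 ζ2 hζ hζ1 hζ2 z0 zτ z10 z1τ
      have hζc : Continuous ζ := continuous_iff_continuousAt.2 fun t => (hζ t).continuousAt
      have hζ1c : Continuous ζ1 := continuous_iff_continuousAt.2 fun t => (hζ1 t).continuousAt
      have hdd : ∀ {f : ℝ → ℂ} {f' : ℂ} {t : ℝ}, HasDerivAt f f' t →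
          HasDerivAt (fun t => (fun c => RegB_K m a b c • f t : Fin 3 → ℂ))
            (fun c => RegB_K m a b c • f') t := by
        intro f f' t h
        rw [hasDerivAt_pi]
        exact fun c => h.fun_const_smul _
      have hwk := hweak (fun t c => RegB_K m a b c • ζ t) (fun t c => RegB_K m a b c • ζ1 t)
        (fun t c => RegB_K m a b c • ζ2 t)
        ⟨fun t => hdd (hζ t), fun t => hdd (hζ1 t), by fun_prop⟩
        (fun t => RegB_sum hm a b (ζ t)) (by funext c; simp [z0]) (by funext c; simp [zτ])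
        (by funext c; simp [z10]) (by funext c; simp [z1τ])
      unfold weak at hwk
      simp only [RegB_ipm hm] at hwk
      rw [z10, z1τ] at hwk
      have e0 : ∀ z : ℂ, ip z 0 = 0 := by intro z; simp [ip]
      rw [e0, e0] at hwk
      -- integration by parts
      have hφ : ∀ t ∈ uIcc 0 τ, HasDerivAt (fun t => ip (G1 t) (ζ t) - ip (G t) (ζ1 t))
          (ip (F t) (ζ t) - ip (G t) (ζ2 t)) t := by
        intro t _
        have h := (RegB_ip_deriv (hG1d t) (hζ t)).sub (RegB_ip_deriv (hGd t) (hζ1 t))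
        exact h.congr_deriv (by ring)
      have cF : Continuous (fun t => ip (F t) (ζ t)) := by
        rw [← continuousOn_univ]
        exact RegA_ip_cont hFc.continuousOn hζc.continuousOn
      have cG : Continuous (fun t => ip (G t) (ζ2 t)) := by
        rw [← continuousOn_univ]
        exact RegA_ip_cont hGc.continuousOn hζ2.continuousOn
      have h1 := intervalIntegral.integral_eq_sub_of_hasDerivAt hφ
        ((cF.sub cG).intervalIntegrable _ _)
      rw [z0, zτ, z10, z1τ, intervalIntegral.integral_sub (cF.intervalIntegrable _ _)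
        (cG.intervalIntegrable _ _)] at h1
      simp only [e0, sub_self] at h1
      have h2 : ∫ t in (0 : ℝ)..τ, ip (acc m (w t) a - acc m (w t) b) (ζ t) =
          ∫ t in (0 : ℝ)..τ, ip (F t) (ζ t) := by
        apply intervalIntegral.integral_congr
        intro t ht
        rw [uIcc_of_le hτ.le] at ht
        show ip (acc m (w t) a - acc m (w t) b) (ζ t) = ip (F t) (ζ t)
        rw [hF, RegA_ext_eq ht]
      have cw : IntervalIntegrable (fun t => ip (w t a - w t b) (ζ2 t)) volume 0 τ := by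
        apply ContinuousOn.intervalIntegrable
        rw [uIcc_of_le hτ.le]
        exact RegA_ip_cont ((hwa a).sub (hwa b)) hζ2.continuousOn
      have h3 : ∫ t in (0 : ℝ)..τ, ip (w t a - w t b - G t) (ζ2 t) =
          (∫ t in (0 : ℝ)..τ, ip (w t a - w t b) (ζ2 t)) -
            ∫ t in (0 : ℝ)..τ, ip (G t) (ζ2 t) := by
        rw [← intervalIntegral.integral_sub cw (cG.intervalIntegrable _ _)]
        apply intervalIntegral.integral_congr
        intro t _
        exact RegA_ip_sub _ _ _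
      rw [h3]
      rw [h2] at hwk
      linarith)
  refine ⟨fun t => G1 t + c1, fun t ht => ⟨?_, ?_⟩⟩
  · have h1 : HasDerivAt (fun t : ℝ => G t + (c0 + t * c1)) (G1 t + c1) t := by
      have h2 : HasDerivAt (fun t : ℝ => (t : ℂ)) 1 t := Complex.ofRealCLM.hasDerivAt
      have h3 := (hGd t).add ((h2.mul_const c1).const_add c0)
      rw [one_mul] at h3
      exact h3
    apply h1.hasDerivWithinAt.congr_of_mem _ ht
    intro s hs
    have := hc s hs
    rw [← this]; ring
  · have h1 : HasDerivAt (fun t : ℝ => G1 t + c1) (F t) t := (hG1d t).add_const c1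
    have h2 : F t = acc m (w t) a - acc m (w t) b := by rw [hF, RegA_ext_eq ht]
    rw [h2] at h1
    exact h1.hasDerivWithinAt

theorem weak_regular {m : Fin 3 → ℝ} (hm : ∀ a, 0 < m a) {τ : ℝ} (hτ : 0 < τ)
    {w : ℝ → Fin 3 → ℂ} (hw : ContinuousOn w (Icc 0 τ))
    (hnc : ∀ t ∈ Icc 0 τ, ∀ a b, a ≠ b → w t a ≠ w t b)
    (hcom : ∀ t ∈ Icc 0 τ, ∑ a, m a • w t a = 0)
    (hweak : ∀ η η1 η2, Test η η1 η2 → (∀ t, ∑ a, m a • η t a = 0) → η 0 = 0 → η τ = 0 →
      η1 0 = 0 → η1 τ = 0 → weak m τ w η η1 η2 = 0) : ∃ w1, Sol m τ w w1 := by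
  choose D hD using RegB_pair hm hτ hw hnc hweak
  set M : ℝ := ∑ b, m b with hM
  have hMpos : 0 < M := Finset.sum_pos (fun b _ => hm b) Finset.univ_nonempty
  have hsub : ∀ (z : Fin 3 → ℂ) (a : Fin 3), ∑ b, m b • z b = 0 →
      M⁻¹ • ∑ b, m b • (z a - z b) = z a := by
    intro z a hz
    simp_rw [smul_sub]
    rw [Finset.sum_sub_distrib, hz, sub_zero, ← Finset.sum_smul, ← hM, smul_smul,
      inv_mul_cancel₀ hMpos.ne', one_smul]
  refine ⟨fun t a => M⁻¹ • ∑ b, m b • D a b t, fun t ht => ⟨?_, ?_⟩⟩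
  · rw [hasDerivWithinAt_pi]
    intro a
    have h1 : HasDerivWithinAt (fun t => M⁻¹ • ∑ b, m b • (w t a - w t b))
        (M⁻¹ • ∑ b, m b • D a b t) (Icc 0 τ) t := by
      apply HasDerivWithinAt.fun_const_smul
      apply HasDerivWithinAt.fun_sum
      intro b _
      exact ((hD a b t ht).1).fun_const_smul (m b)
    apply h1.congr_of_mem _ ht
    intro s hs
    exact (hsub (w s) a (hcom s hs)).symm
  · rw [hasDerivWithinAt_pi]
    intro a
    have h1 : HasDerivWithinAt (fun t => M⁻¹ • ∑ b, m b • D a b t)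
        (M⁻¹ • ∑ b, m b • (acc m (w t) a - acc m (w t) b)) (Icc 0 τ) t := by
      apply HasDerivWithinAt.fun_const_smul
      apply HasDerivWithinAt.fun_sum
      intro b _
      exact ((hD a b t ht).2).fun_const_smul (m b)
    rw [hsub (acc m (w t)) a (sum_acc m (w t))] at h1
    exact h1

end Pool.Agent.MP_5027f4_min
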