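import Pool.Agent.Lib_MP_5027f4_min.RegB

/-!
# The natural boundary condition (piece RegC)
-/

open Complex Set Filter Topology MeasureTheory
open scoped Real ComplexConjugate

namespace Pool.Agent.MP_5027f4_min

open Pool.Agent.MP_5027f4_mp

theorem RegC_weak {m : Fin 3 → ℝ} {τ : ℝ} (hτ : 0 < τ) {w w1 : ℝ → Fin 3 → ℂ}
    (hw : Sol m τ w w1)
    (hnc : ∀ t ∈ Icc 0 τ, ∀ a b, a ≠ b → w t a ≠ w t b) {η η1 η2 : ℝ → Fin 3 → ℂ}
    (hη : Test η η1 η2) :
    weak m τ w η η1 η2 = ipm m (w1 τ) (η τ) - ipm m (w1 0) (η 0) := by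
  have hwc : ContinuousOn w (Icc 0 τ) := fun t ht => (hw t ht).1.continuousWithinAt
  have hw1c : ContinuousOn w1 (Icc 0 τ) := fun t ht => (hw t ht).2.continuousWithinAt
  have hηc : Continuous η := continuous_iff_continuousAt.2 fun t => (hη.d1 t).continuousAt
  have hη1c : Continuous η1 := continuous_iff_continuousAt.2 fun t => (hη.d2 t).continuousAt
  have hp : ∀ {f : ℝ → Fin 3 → ℂ}, ContinuousOn f (Icc 0 τ) → ∀ a,
      ContinuousOn (fun t => f t a) (Icc 0 τ) := fun hf a =>
    (continuous_apply a).comp_continuousOn hf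
  have hipm : ∀ {f g : ℝ → Fin 3 → ℂ}, ContinuousOn f (Icc 0 τ) → ContinuousOn g (Icc 0 τ) →
      ContinuousOn (fun t => ipm m (f t) (g t)) (Icc 0 τ) := by
    intro f g hf hg
    unfold ipm
    apply continuousOn_finsetSum
    intro a _
    exact continuousOn_const.mul (RegA_ip_cont (hp hf a) (hp hg a))
  have hacc : ContinuousOn (fun t => acc m (w t)) (Icc 0 τ) :=
    continuousOn_pi.2 fun a => RegB_acc_cont m hwc hnc a
  set φ : ℝ → ℝ := fun t => ipm m (w t) (η1 t) - ipm m (w1 t) (η t) with hφ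
  have hφc : ContinuousOn φ (Icc 0 τ) :=
    (hipm hwc hη1c.continuousOn).sub (hipm hw1c hηc.continuousOn)
  have hφd : ∀ t ∈ Ioo 0 τ, HasDerivAt φ
      (ipm m (w t) (η2 t) - ipm m (acc m (w t)) (η t)) t := by
    intro t ht
    have hn : Icc 0 τ ∈ 𝓝 t := Icc_mem_nhds ht.1 ht.2
    have h1 := ((hw t (Ioo_subset_Icc_self ht)).1).hasDerivAt hn
    have h2 := ((hw t (Ioo_subset_Icc_self ht)).2).hasDerivAt hn
    have h3 := hη.d1 t
    have h4 := hη.d2 t
    rw [hasDerivAt_pi] at h1 h2 h3 h4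
    have h5 : HasDerivAt φ (∑ a, m a * (ip (w1 t a) (η1 t a) + ip (w t a) (η2 t a)) -
        ∑ a, m a * (ip (acc m (w t) a) (η t a) + ip (w1 t a) (η1 t a))) t := by
      rw [hφ]
      unfold ipm
      apply HasDerivAt.sub
      · apply HasDerivAt.fun_sum
        intro a _
        exact (RegB_ip_deriv (h1 a) (h4 a)).const_mul _
      · apply HasDerivAt.fun_sum
        intro a _
        exact (RegB_ip_deriv (h2 a) (h3 a)).const_mul _
    refine h5.congr_deriv ?_
    unfold ipm
    rw [← Finset.sum_sub_distrib, ← Finset.sum_sub_distrib]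
    apply Finset.sum_congr rfl
    intro a _
    ring
  have i1 : IntervalIntegrable (fun t => ipm m (w t) (η2 t)) volume 0 τ := by
    apply ContinuousOn.intervalIntegrable
    rw [uIcc_of_le hτ.le]
    exact hipm hwc hη.c2.continuousOn
  have i2 : IntervalIntegrable (fun t => ipm m (acc m (w t)) (η t)) volume 0 τ := by
    apply ContinuousOn.intervalIntegrable
    rw [uIcc_of_le hτ.le]
    exact hipm hacc hηc.continuousOn
  have h := intervalIntegral.integral_eq_sub_of_hasDerivAt_of_le hτ.le hφc hφd (i1.sub i2)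
  rw [intervalIntegral.integral_sub i1 i2] at h
  unfold weak
  simp only [hφ] at h
  linarith

theorem RegC_ip_mul (u z h : ℂ) : ip z (u * h) = ip (conj u * z) h := by
  unfold ip
  simp
  ring

theorem seam {m : Fin 3 → ℝ} (hm : ∀ a, 0 < m a) {τ : ℝ} (hτ : 0 < τ) {u : ℂ} (hu : ‖u‖ = 1)
    {σ : Equiv.Perm (Fin 3)} (hσ : ∀ a, m (σ a) = m a) {w w1 : ℝ → Fin 3 → ℂ}
    (hw : Sol m τ w w1) (hcom : ∀ t ∈ Icc 0 τ, ∑ a, m a • w t a = 0)
    (hnc : ∀ t ∈ Icc 0 τ, ∀ a b, a ≠ b → w t a ≠ w t b)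
    (hweak : ∀ η η1 η2, Test η η1 η2 → (∀ t, ∑ a, m a • η t a = 0) →
      (∀ a, η τ a = u * η 0 (σ a)) → weak m τ w η η1 η2 = 0) (a : Fin 3) :
    w1 τ a = u * w1 0 (σ a) := by
  have hsm : ∀ z : Fin 3 → ℂ, ∑ a, m a • z (σ a) = ∑ a, m a • z a := by
    intro z
    rw [← Equiv.sum_comp σ (fun a => m a • z a)]
    simp_rw [hσ]
  -- the velocities are in the frame
  have hcom1 : ∀ t ∈ Icc 0 τ, ∑ a, m a • w1 t a = 0 := by
    intro t ht
    have h1 : HasDerivWithinAt (fun t => ∑ a, m a • w t a) (∑ a, m a • w1 t a) (Icc 0 τ) t := by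
      apply HasDerivWithinAt.fun_sum
      intro a _
      exact (((hasDerivWithinAt_pi.1 (hw t ht).1) a)).fun_const_smul (m a)
    have h2 : HasDerivWithinAt (fun t => ∑ a, m a • w t a) 0 (Icc 0 τ) t := by
      apply (hasDerivWithinAt_const t (Icc 0 τ) (0 : ℂ)).congr_of_mem _ ht
      intro s hs
      exact hcom s hs
    exact UniqueDiffWithinAt.eq_deriv _ (uniqueDiffOn_Icc hτ t ht) h1 h2
  have key : ∀ h : Fin 3 → ℂ, ∑ a, m a • h a = 0 →
      ipm m (w1 τ) (fun a => u * h (σ a)) = ipm m (w1 0) h := by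
    intro h hh
    have hτ' : (τ : ℂ) ≠ 0 := by exact_mod_cast hτ.ne'
    set k : Fin 3 → ℂ := fun a => (τ : ℂ)⁻¹ * (u * h (σ a) - h a) with hk
    have hksum : ∑ a, m a • k a = 0 := by
      have e : ∀ a, m a • k a = ((τ : ℂ)⁻¹ * u) * (m a • h (σ a)) - (τ : ℂ)⁻¹ * (m a • h a) := by
        intro a
        rw [hk]
        simp only [Complex.real_smul]
        ring
      simp_rw [e]
      rw [Finset.sum_sub_distrib, ← Finset.mul_sum, ← Finset.mul_sum, hsm h, hh]
      simp
    have hT : Test (fun (t : ℝ) a => h a + t * k a) (fun _ => k) (fun _ => 0) := by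
      refine ⟨fun t => ?_, fun t => hasDerivAt_const _ _, continuous_const⟩
      rw [hasDerivAt_pi]
      intro a
      have h2 : HasDerivAt (fun t : ℝ => (t : ℂ)) 1 t := Complex.ofRealCLM.hasDerivAt
      have h3 := (h2.mul_const (k a)).const_add (h a)
      rw [one_mul] at h3
      exact h3
    have eτ : ∀ a, h a + (τ : ℂ) * k a = u * h (σ a) := by
      intro a
      rw [hk]
      simp only
      rw [← mul_assoc, mul_inv_cancel₀ hτ', one_mul]
      ring
    have h1 := hweak _ _ _ hT (by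
      intro t
      have e : ∀ a, m a • (h a + (t : ℂ) * k a) = m a • h a + (t : ℂ) * (m a • k a) := by
        intro a
        simp only [Complex.real_smul]
        ring
      simp_rw [e]
      rw [Finset.sum_add_distrib, ← Finset.mul_sum, hh, hksum]
      simp) (by
      intro a
      simp only [Complex.ofReal_zero, zero_mul, add_zero]
      exact eτ a)
    rw [RegC_weak hτ hw hnc hT] at h1
    have e1 : (fun a => h a + ((τ : ℝ) : ℂ) * k a) = fun a => u * h (σ a) := funext eτ
    have e2 : (fun a => h a + ((0 : ℝ) : ℂ) * k a) = h := by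
      funext a; simp
    rw [e1, e2] at h1
    linarith
  -- the difference
  set d : Fin 3 → ℂ := fun b => conj u * w1 τ (σ.symm b) - w1 0 b with hd
  have hsm' : ∀ z : Fin 3 → ℂ, ∑ b, m b • z (σ.symm b) = ∑ b, m b • z b := by
    intro z
    have := hsm (fun b => z (σ.symm b))
    simp only [Equiv.symm_apply_apply] at this
    exact this.symm
  have hdsum : ∑ b, m b • d b = 0 := by
    have e : ∀ b, m b • d b = conj u * (m b • w1 τ (σ.symm b)) - m b • w1 0 b := by
      intro b
      rw [hd]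
      simp only [Complex.real_smul]
      ring
    simp_rw [e]
    rw [Finset.sum_sub_distrib, ← Finset.mul_sum, hsm' (w1 τ),
      hcom1 τ (right_mem_Icc.2 hτ.le), hcom1 0 (left_mem_Icc.2 hτ.le)]
    simp
  have h1 := key d hdsum
  have h2 : ipm m (w1 τ) (fun a => u * d (σ a)) = ∑ b, m b * ip (conj u * w1 τ (σ.symm b)) (d b) := by
    unfold ipm
    rw [← Equiv.sum_comp σ (fun b => m b * ip (conj u * w1 τ (σ.symm b)) (d b))]
    apply Finset.sum_congr rfl
    intro a _
    rw [hσ, Equiv.symm_apply_apply, RegC_ip_mul]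
  have h3 : ∑ b, m b * ip (d b) (d b) = 0 := by
    have e : ∀ b, m b * ip (d b) (d b) = m b * ip (conj u * w1 τ (σ.symm b)) (d b) -
        m b * ip (w1 0 b) (d b) := by
      intro b
      rw [← mul_sub, ← RegA_ip_sub]
    simp_rw [e]
    rw [Finset.sum_sub_distrib, ← h2, h1]
    unfold ipm
    ring
  have h4 : ∀ b, d b = 0 := by
    intro b
    have h5 := (Finset.sum_eq_zero_iff_of_nonneg (fun b _ => by
      apply mul_nonneg (hm b).le
      unfold ip
      nlinarith [mul_self_nonneg (d b).re, mul_self_nonneg (d b).im])).1 h3 b (Finset.mem_univ b)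
    rcases mul_eq_zero.1 h5 with h6 | h6
    · exact absurd h6 (hm b).ne'
    · have : Complex.normSq (d b) = 0 := by
        rw [Complex.normSq_apply]; exact h6
      exact Complex.normSq_eq_zero.1 this
  have h5 := h4 (σ a)
  rw [hd] at h5
  simp only [Equiv.symm_apply_apply] at h5
  have h6 : w1 0 (σ a) = conj u * w1 τ a := (sub_eq_zero.1 h5).symm
  rw [h6, ← mul_assoc, Complex.mul_conj, Complex.normSq_eq_norm_sq, hu]
  simp

end Pool.Agent.MP_5027f4_min
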