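import Pool.Agent.Lib_MP_5027f4_min.Defs

/-!
# Averaging over the reversing symmetry (piece RegD)
-/

open Complex Set Filter Topology MeasureTheory
open scoped Real ComplexConjugate

namespace Pool.Agent.MP_5027f4_min

open Pool.Agent.MP_5027f4_mp

/-- The reflected configuration. -/
noncomputable def RegD_R (ω : ℂ) (ϖ : Equiv.Perm (Fin 3)) (q : Fin 3 → ℂ) : Fin 3 → ℂ :=
  fun a => ω * conj (q (ϖ a))

theorem RegD_ip_conj {ω : ℂ} (hω : ‖ω‖ = 1) (z w : ℂ) :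
    ip (ω * conj z) (ω * conj w) = ip z w := by
  have h : ω.re * ω.re + ω.im * ω.im = 1 := by
    have := Complex.normSq_eq_norm_sq ω
    rw [hω, one_pow, Complex.normSq_apply] at this
    exact this
  simp only [ip, mul_re, mul_im, conj_re, conj_im]
  linear_combination (z.re * w.re + z.im * w.im) * h

theorem RegD_acc_perm (m : Fin 3 → ℝ) (σ : Equiv.Perm (Fin 3)) (hσ : ∀ a, m (σ a) = m a)
    (q : Fin 3 → ℂ) (a : Fin 3) : acc m (fun a => q (σ a)) a = acc m q (σ a) := by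
  rw [acc_eq, acc_eq, ← Equiv.sum_comp σ (fun b => (m b / ‖q b - q (σ a)‖ ^ 3) • (q b - q (σ a)))]
  refine Finset.sum_congr rfl fun b _ => ?_
  rw [hσ]

theorem RegD_ipm {m : Fin 3 → ℝ} {ω : ℂ} (hω : ‖ω‖ = 1) {ϖ : Equiv.Perm (Fin 3)}
    (hϖ : ∀ a, m (ϖ a) = m a) (p q : Fin 3 → ℂ) :
    ipm m (RegD_R ω ϖ p) (RegD_R ω ϖ q) = ipm m p q := by
  simp only [ipm, RegD_R, RegD_ip_conj hω]
  rw [← Equiv.sum_comp ϖ (fun a => m a * ip (p a) (q a))]
  refine Finset.sum_congr rfl fun a _ => ?_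
  rw [hϖ]

theorem RegD_acc {m : Fin 3 → ℝ} {ω : ℂ} (hω : ‖ω‖ = 1) {ϖ : Equiv.Perm (Fin 3)}
    (hϖ : ∀ a, m (ϖ a) = m a) (q : Fin 3 → ℂ) :
    acc m (RegD_R ω ϖ q) = RegD_R ω ϖ (acc m q) := by
  funext a
  have h1 := acc_smul m hω (fun a => conj (q (ϖ a))) a
  have h2 := acc_conj m (fun a => q (ϖ a)) a
  have h3 := RegD_acc_perm m ϖ hϖ q a
  show acc m (fun a => ω * conj (q (ϖ a))) a = ω * conj (acc m q (ϖ a))
  rw [h1, h2, h3]

theorem RegD_ipm_neg (m : Fin 3 → ℝ) (p q : Fin 3 → ℂ) : ipm m p (-q) = -ipm m p q := by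
  simp only [ipm, ip, Pi.neg_apply, neg_re, neg_im]
  rw [← Finset.sum_neg_distrib]
  refine Finset.sum_congr rfl fun a _ => ?_
  ring

theorem RegD_ipm_add (m : Fin 3 → ℝ) (p q r : Fin 3 → ℂ) :
    ipm m p (q + r) = ipm m p q + ipm m p r := by
  simp only [ipm, ip, Pi.add_apply, add_re, add_im]
  rw [← Finset.sum_add_distrib]
  refine Finset.sum_congr rfl fun a _ => ?_
  ring

theorem RegD_R_cont (ω : ℂ) (ϖ : Equiv.Perm (Fin 3)) : Continuous (RegD_R ω ϖ) := by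
  unfold RegD_R
  fun_prop

theorem RegD_deriv (ω : ℂ) (ϖ : Equiv.Perm (Fin 3)) {f f1 : ℝ → Fin 3 → ℂ}
    (h : ∀ t, HasDerivAt f (f1 t) t) (τ t : ℝ) :
    HasDerivAt (fun t => RegD_R ω ϖ (f (τ - t))) (-RegD_R ω ϖ (f1 (τ - t))) t := by
  rw [hasDerivAt_pi]
  intro a
  have h1 := hasDerivAt_pi.1 (h (τ - t)) (ϖ a)
  have h2 : HasDerivAt (fun t => f (τ - t) (ϖ a)) (-(f1 (τ - t) (ϖ a))) t :=
    HasDerivAt.comp_const_sub τ t h1
  have h3 : HasDerivAt (fun t => conj (f (τ - t) (ϖ a))) (conj (-(f1 (τ - t) (ϖ a)))) t :=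
    h2.star
  have h4 := h3.const_mul ω
  refine h4.congr_deriv ?_
  simp [RegD_R]

theorem RegD_test (ω : ℂ) (ϖ : Equiv.Perm (Fin 3)) {η η1 η2 : ℝ → Fin 3 → ℂ} (h : Test η η1 η2)
    (τ : ℝ) : Test (fun t => RegD_R ω ϖ (η (τ - t))) (fun t => -RegD_R ω ϖ (η1 (τ - t)))
      (fun t => RegD_R ω ϖ (η2 (τ - t))) := by
  refine ⟨fun t => RegD_deriv ω ϖ h.d1 τ t, fun t => ?_, ?_⟩
  · have := (RegD_deriv ω ϖ h.d2 τ t).neg
    rwa [neg_neg] at this
  · exact (RegD_R_cont ω ϖ).comp (h.c2.comp (continuous_const.sub continuous_id))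

theorem RegD_test_add {η η1 η2 ζ ζ1 ζ2 : ℝ → Fin 3 → ℂ} (h : Test η η1 η2) (h' : Test ζ ζ1 ζ2) :
    Test (fun t => η t + ζ t) (fun t => η1 t + ζ1 t) (fun t => η2 t + ζ2 t) :=
  ⟨fun t => (h.d1 t).add (h'.d1 t), fun t => (h.d2 t).add (h'.d2 t), h.c2.add h'.c2⟩

theorem RegD_cont_acc (m : Fin 3 → ℝ) {D : Set ℝ} {w : ℝ → Fin 3 → ℂ} (hw : ContinuousOn w D)
    (h : ∀ t ∈ D, ∀ a b, a ≠ b → w t a ≠ w t b) : ContinuousOn (fun t => acc m (w t)) D := by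
  rw [continuousOn_pi]
  intro a
  simp only [acc]
  refine continuousOn_finsetSum _ fun b hb => ?_
  have hb' : b ≠ a := Finset.ne_of_mem_erase hb
  have c1 : ContinuousOn (fun t => w t b - w t a) D :=
    ((continuousOn_pi.1 hw) b).sub ((continuousOn_pi.1 hw) a)
  refine ContinuousOn.smul (ContinuousOn.div continuousOn_const (c1.norm.pow 3) ?_) c1
  intro t ht
  exact pow_ne_zero 3 (norm_ne_zero_iff.2 (sub_ne_zero.2 (h t ht b a hb')))

theorem RegD_ipm_cont (m : Fin 3 → ℝ) {D : Set ℝ} {p q : ℝ → Fin 3 → ℂ} (hp : ContinuousOn p D)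
    (hq : ContinuousOn q D) : ContinuousOn (fun t => ipm m (p t) (q t)) D := by
  simp only [ipm, ip]
  refine continuousOn_finsetSum _ fun a _ => ?_
  have c1 := (continuousOn_pi.1 hp) a
  have c2 := (continuousOn_pi.1 hq) a
  have r1 : ContinuousOn (fun t => (p t a).re) D := Complex.continuous_re.comp_continuousOn c1
  have r2 : ContinuousOn (fun t => (q t a).re) D := Complex.continuous_re.comp_continuousOn c2
  have i1 : ContinuousOn (fun t => (p t a).im) D := Complex.continuous_im.comp_continuousOn c1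
  have i2 : ContinuousOn (fun t => (q t a).im) D := Complex.continuous_im.comp_continuousOn c2
  exact continuousOn_const.mul ((r1.mul r2).add (i1.mul i2))

theorem RegD_weak_add {m : Fin 3 → ℝ} {τ : ℝ} (hτ : 0 < τ) {w : ℝ → Fin 3 → ℂ}
    (hw : ContinuousOn w (Icc 0 τ)) (hnc : ∀ t ∈ Icc 0 τ, ∀ a b, a ≠ b → w t a ≠ w t b)
    {η η1 η2 ζ ζ1 ζ2 : ℝ → Fin 3 → ℂ} (h : Test η η1 η2) (h' : Test ζ ζ1 ζ2) :
    weak m τ w (fun t => η t + ζ t) (fun t => η1 t + ζ1 t) (fun t => η2 t + ζ2 t) =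
      weak m τ w η η1 η2 + weak m τ w ζ ζ1 ζ2 := by
  have key : ∀ {p q : ℝ → Fin 3 → ℂ}, ContinuousOn p (Icc 0 τ) → Continuous q →
      IntervalIntegrable (fun t => ipm m (p t) (q t)) volume 0 τ := by
    intro p q hp hq
    apply ContinuousOn.intervalIntegrable
    rw [uIcc_of_le hτ.le]
    exact RegD_ipm_cont m hp hq.continuousOn
  have hacc := RegD_cont_acc m hw hnc
  have cη : Continuous η := continuous_iff_continuousAt.2 fun t => (h.d1 t).continuousAt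
  have cζ : Continuous ζ := continuous_iff_continuousAt.2 fun t => (h'.d1 t).continuousAt
  unfold weak
  simp only [RegD_ipm_add]
  rw [intervalIntegral.integral_add (key hw h.c2) (key hw h'.c2),
    intervalIntegral.integral_add (key hacc cη) (key hacc cζ)]
  ring

theorem RegD_weak_refl {m : Fin 3 → ℝ} {τ : ℝ} {ω : ℂ} (hω : ‖ω‖ = 1)
    {ϖ : Equiv.Perm (Fin 3)} (hϖ : ∀ a, m (ϖ a) = m a) (hτ : 0 < τ)
    {w : ℝ → Fin 3 → ℂ} (hrev : ∀ t ∈ Icc 0 τ, ∀ a, w (τ - t) a = ω * conj (w t (ϖ a)))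
    (η η1 η2 : ℝ → Fin 3 → ℂ) :
    weak m τ w (fun t => RegD_R ω ϖ (η (τ - t))) (fun t => -RegD_R ω ϖ (η1 (τ - t)))
      (fun t => RegD_R ω ϖ (η2 (τ - t))) = weak m τ w η η1 η2 := by
  have hR : ∀ t ∈ Icc 0 τ, w t = RegD_R ω ϖ (w (τ - t)) := by
    intro t ht
    funext a
    have := hrev (τ - t) ⟨by linarith [ht.2], by linarith [ht.1]⟩ a
    rw [sub_sub_cancel] at this
    exact this
  have h0 : w 0 = RegD_R ω ϖ (w τ) := by
    have := hR 0 ⟨le_refl _, hτ.le⟩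
    rwa [sub_zero] at this
  have h1 : w τ = RegD_R ω ϖ (w 0) := by
    have := hR τ ⟨hτ.le, le_refl _⟩
    rwa [sub_self] at this
  have e1 : ipm m (w τ) (-RegD_R ω ϖ (η1 (τ - τ))) = -ipm m (w 0) (η1 0) := by
    rw [RegD_ipm_neg, sub_self, h1, RegD_ipm hω hϖ]
  have e2 : ipm m (w 0) (-RegD_R ω ϖ (η1 (τ - 0))) = -ipm m (w τ) (η1 τ) := by
    rw [RegD_ipm_neg, sub_zero, h0, RegD_ipm hω hϖ]
  have e3 : ∫ t in (0 : ℝ)..τ, ipm m (w t) (RegD_R ω ϖ (η2 (τ - t))) =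
      ∫ t in (0 : ℝ)..τ, ipm m (w t) (η2 t) := by
    have a1 : ∫ t in (0 : ℝ)..τ, ipm m (w t) (RegD_R ω ϖ (η2 (τ - t))) =
        ∫ t in (0 : ℝ)..τ, ipm m (w (τ - t)) (η2 (τ - t)) := by
      apply intervalIntegral.integral_congr
      intro t ht
      rw [uIcc_of_le hτ.le] at ht
      show ipm m (w t) (RegD_R ω ϖ (η2 (τ - t))) = ipm m (w (τ - t)) (η2 (τ - t))
      rw [hR t ht, RegD_ipm hω hϖ]
    rw [a1, intervalIntegral.integral_comp_sub_left (fun t => ipm m (w t) (η2 t)) τ, sub_self,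
      sub_zero]
  have e4 : ∫ t in (0 : ℝ)..τ, ipm m (acc m (w t)) (RegD_R ω ϖ (η (τ - t))) =
      ∫ t in (0 : ℝ)..τ, ipm m (acc m (w t)) (η t) := by
    have a1 : ∫ t in (0 : ℝ)..τ, ipm m (acc m (w t)) (RegD_R ω ϖ (η (τ - t))) =
        ∫ t in (0 : ℝ)..τ, ipm m (acc m (w (τ - t))) (η (τ - t)) := by
      apply intervalIntegral.integral_congr
      intro t ht
      rw [uIcc_of_le hτ.le] at ht
      show ipm m (acc m (w t)) (RegD_R ω ϖ (η (τ - t))) = ipm m (acc m (w (τ - t))) (η (τ - t))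
      rw [hR t ht, RegD_acc hω hϖ, RegD_ipm hω hϖ]
    rw [a1, intervalIntegral.integral_comp_sub_left (fun t => ipm m (acc m (w t)) (η t)) τ, sub_self,
      sub_zero]
  unfold weak
  rw [e1, e2, e3, e4]
  ring

theorem symmetrize {m : Fin 3 → ℝ} {τ : ℝ} (hτ : 0 < τ) {u ω : ℂ} (hu : ‖u‖ = 1)
    (hω : ‖ω‖ = 1) {σ ϖ : Equiv.Perm (Fin 3)} (hσ : ∀ a, m (σ a) = m a)
    (hϖ : ∀ a, m (ϖ a) = m a) (h2 : ∀ a, ϖ (ϖ a) = a) (h3 : ∀ a, σ (ϖ (σ a)) = ϖ a)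
    {w : ℝ → Fin 3 → ℂ} (hw : ContinuousOn w (Icc 0 τ))
    (hnc : ∀ t ∈ Icc 0 τ, ∀ a b, a ≠ b → w t a ≠ w t b)
    (hrev : ∀ t ∈ Icc 0 τ, ∀ a, w (τ - t) a = ω * conj (w t (ϖ a)))
    (hweak : ∀ η η1 η2, Test η η1 η2 → Var m τ u σ True ω ϖ η → weak m τ w η η1 η2 = 0)
    (η η1 η2 : ℝ → Fin 3 → ℂ) (hη : Test η η1 η2) (hcom : ∀ t, ∑ a, m a • η t a = 0)
    (hper : ∀ a, η τ a = u * η 0 (σ a)) : weak m τ w η η1 η2 = 0 := by
  have hu1 : u * conj u = 1 := by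
    rw [mul_conj, Complex.normSq_eq_norm_sq, hu]
    norm_num
  have hω1 : ω * conj ω = 1 := by
    rw [mul_conj, Complex.normSq_eq_norm_sq, hω]
    norm_num
  have hT := RegD_test ω ϖ hη τ
  have hV : Var m τ u σ True ω ϖ (fun t => η t + RegD_R ω ϖ (η (τ - t))) := by
    refine ⟨fun t => ?_, fun a => ?_, fun _ t ht a => ?_⟩
    · have e1 : ∑ a, m a • RegD_R ω ϖ (η (τ - t)) a = ω * conj (∑ a, m a • η (τ - t) a) := by
        rw [← Equiv.sum_comp ϖ (fun a => m a • η (τ - t) a), map_sum, Finset.mul_sum]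
        refine Finset.sum_congr rfl fun a _ => ?_
        rw [hϖ, RegD_R, Complex.real_smul, Complex.real_smul, map_mul, conj_ofReal]
        ring
      simp only [Pi.add_apply, smul_add, Finset.sum_add_distrib]
      rw [e1, hcom, hcom, map_zero, mul_zero, add_zero]
    · show η τ a + ω * conj (η (τ - τ) (ϖ a)) = u * (η 0 (σ a) + ω * conj (η (τ - 0) (ϖ (σ a))))
      rw [sub_self, sub_zero, hper a, hper (ϖ (σ a)), h3 a, map_mul]
      linear_combination (-ω * conj (η 0 (ϖ a))) * hu1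
    · show η (τ - t) a + ω * conj (η (τ - (τ - t)) (ϖ a)) =
        ω * conj (η t (ϖ a) + ω * conj (η (τ - t) (ϖ (ϖ a))))
      rw [sub_sub_cancel, h2 a, map_add, map_mul, conj_conj]
      linear_combination (-η (τ - t) a) * hω1
  have key := hweak _ _ _ (RegD_test_add hη hT) hV
  rw [RegD_weak_add hτ hw hnc hη hT, RegD_weak_refl hω hϖ hτ hrev] at key
  linarith

end Pool.Agent.MP_5027f4_min
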