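import Pool.Agent.Lib_MP_5027f4_min.PathA
import Pool.Agent.Lib_MP_5027f4_min.PathC
import Pool.Agent.Lib_MP_5027f4_min.PathD
import Pool.Agent.Lib_MP_5027f4_min.PathE
import Pool.Agent.Lib_MP_5027f4_min.PathF
import Pool.Agent.Lib_MP_5027f4_min.RegB
import Pool.Agent.Lib_MP_5027f4_min.RegC
import Pool.Agent.Lib_MP_5027f4_min.RegD
import Pool.Agent.Lib_MP_5027f4_min.LimA
import Pool.Agent.Lib_MP_5027f4_min.LimB
import Pool.Agent.Lib_MP_5027f4_min.MinA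

open Complex Set Filter Topology MeasureTheory
open scoped Real ComplexConjugate

namespace Pool.Agent.MP_5027f4_min

open Pool.Agent.MP_5027f4_mp

/-! ### elementary facts on `Near` and `Sep` -/

theorem MinB_near_mono {τ : ℝ} {x : ℝ → (Fin 3 → ℂ) × (Fin 3 → ℂ)} {K : Set (ℝ × ℝ)} {ε ε' : ℝ}
    {y : ℝ → Fin 3 → ℂ} (h : Near τ x K ε y) (hε : ε ≤ ε') : Near τ x K ε' y := by
  obtain ⟨p, hp, h⟩ := h
  exact ⟨p, hp, fun t ht a => (h t ht a).trans hε⟩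

theorem MinB_near_add {τ : ℝ} {x : ℝ → (Fin 3 → ℂ) × (Fin 3 → ℂ)} {K : Set (ℝ × ℝ)} {ε δ : ℝ}
    {y z : ℝ → Fin 3 → ℂ} (h : Near τ x K ε y) (hz : ∀ t ∈ Icc 0 τ, ∀ a, ‖z t a - y t a‖ ≤ δ) :
    Near τ x K (ε + δ) z := by
  obtain ⟨p, hp, h⟩ := h
  refine ⟨p, hp, fun t ht a => ?_⟩
  have h1 := h t ht a
  have h2 := hz t ht a
  calc ‖z t a - cp x p t a‖ = ‖(z t a - y t a) + (y t a - cp x p t a)‖ := by
        congr 1
        ring
    _ ≤ ‖z t a - y t a‖ + ‖y t a - cp x p t a‖ := norm_add_le _ _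
    _ ≤ ε + δ := by linarith

theorem MinB_norm_exp (θ : ℝ) : ‖exp (θ * I)‖ = 1 := Complex.norm_exp_ofReal_mul_I θ

theorem MinB_near_sep {τ : ℝ} {x : ℝ → (Fin 3 → ℂ) × (Fin 3 → ℂ)} {K : Set (ℝ × ℝ)} {r ε : ℝ}
    (hxr : ∀ t, Sep r (x t).1) {y : ℝ → Fin 3 → ℂ} (h : Near τ x K ε y) (hε : ε ≤ r / 4) :
    ∀ t ∈ Icc 0 τ, Sep (r / 2) (y t) := by
  obtain ⟨p, hp, h⟩ := h
  intro t ht a b hab
  have h1 := h t ht a
  have h2 := h t ht b
  have h3 : r ≤ ‖cp x p t a - cp x p t b‖ := by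
    unfold cp
    rw [← mul_sub, norm_mul, MinB_norm_exp, one_mul]
    exact hxr (t + p.2) a b hab
  have h4 : ‖cp x p t a - cp x p t b‖ ≤ ‖y t a - cp x p t a‖ + ‖y t a - y t b‖ +
      ‖y t b - cp x p t b‖ := by
    have e : cp x p t a - cp x p t b = -(y t a - cp x p t a) + (y t a - y t b) +
        (y t b - cp x p t b) := by ring
    rw [e]
    refine (norm_add_le _ _).trans ?_
    have := norm_add_le (-(y t a - cp x p t a)) (y t a - y t b)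
    rw [norm_neg] at this
    linarith
  linarith

theorem MinB_near_bdd {τ : ℝ} {x : ℝ → (Fin 3 → ℂ) × (Fin 3 → ℂ)} {K : Set (ℝ × ℝ)} {R ε : ℝ}
    (hxR : ∀ t a, ‖(x t).1 a‖ ≤ R) {y : ℝ → Fin 3 → ℂ} (h : Near τ x K ε y) :
    ∀ t ∈ Icc 0 τ, ∀ a, ‖y t a‖ ≤ R + ε := by
  obtain ⟨p, hp, h⟩ := h
  intro t ht a
  have h1 := h t ht a
  have h3 : ‖cp x p t a‖ ≤ R := by
    unfold cp
    rw [norm_mul, MinB_norm_exp, one_mul]
    exact hxR (t + p.2) a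
  calc ‖y t a‖ = ‖(y t a - cp x p t a) + cp x p t a‖ := by
        congr 1
        ring
    _ ≤ ‖y t a - cp x p t a‖ + ‖cp x p t a‖ := norm_add_le _ _
    _ ≤ R + ε := by linarith

theorem MinB_sep_mono {r r' : ℝ} {q : Fin 3 → ℂ} (h : Sep r q) (hr : r' ≤ r) : Sep r' q :=
  fun a b hab => hr.trans (h a b hab)

theorem MinB_sol_continuous {m : Fin 3 → ℝ} {x : ℝ → (Fin 3 → ℂ) × (Fin 3 → ℂ)}
    (hx : IsSolution m univ x) : Continuous x := by
  rw [continuous_iff_continuousAt]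
  intro t
  have h := (hx t (mem_univ t)).2.continuousWithinAt
  rwa [continuousWithinAt_univ] at h

theorem MinB_action_nonneg {m : Fin 3 → ℝ} (hm : ∀ a, 0 < m a) {τ r : ℝ} (hr : 0 < r)
    {y v : ℝ → Fin 3 → ℂ} (h : IsPath m τ y v) (hτ : 0 < τ) (hy : ∀ t ∈ Icc 0 τ, Sep r (y t)) :
    0 ≤ action m τ y v := by
  have h1 := energy_le_action hm hr h hτ hy 0
  have h2 : 0 ≤ ∫ t in (0 : ℝ)..τ, ‖v t 0‖ ^ 2 :=
    intervalIntegral.integral_nonneg hτ.le fun t _ => by positivity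
  have h3 := mul_nonneg (hm 0).le h2
  linarith

/-- the energies of paths of bounded action are bounded -/
theorem MinB_energy {m : Fin 3 → ℝ} (hm : ∀ a, 0 < m a) {τ r : ℝ} (hr : 0 < r)
    {y v : ℝ → Fin 3 → ℂ} (h : IsPath m τ y v) (hτ : 0 < τ) (hy : ∀ t ∈ Icc 0 τ, Sep r (y t))
    {B : ℝ} (hB : action m τ y v ≤ B) (a : Fin 3) :
    ∫ t in (0 : ℝ)..τ, ‖v t a‖ ^ 2 ≤ ∑ c, 2 * B / m c := by
  have h0 := MinB_action_nonneg hm hr h hτ hy
  have hB0 : 0 ≤ B := h0.trans hB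
  have h1 := energy_le_action hm hr h hτ hy a
  have h2 : ∫ t in (0 : ℝ)..τ, ‖v t a‖ ^ 2 ≤ 2 * B / m a := by
    rw [le_div_iff₀ (hm a)]
    linarith
  refine h2.trans ?_
  exact Finset.single_le_sum (f := fun c => 2 * B / m c)
    (fun c _ => div_nonneg (by linarith) (hm c).le) (Finset.mem_univ a)

/-- a small variation of an admissible path is admissible -/
theorem MinB_adm_add {m : Fin 3 → ℝ} (hm : ∀ a, 0 < m a) {τ r : ℝ} (hr : 0 < r) (hτ : 0 < τ)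
    {u ω : ℂ} {σ ϖ : Equiv.Perm (Fin 3)} {b : Prop} {y v η η1 η2 : ℝ → Fin 3 → ℂ}
    (h : Adm m τ u σ b ω ϖ y v) (hη : Test η η1 η2) (hV : Var m τ u σ b ω ϖ η)
    (hy : ∀ t ∈ Icc 0 τ, Sep r (y t)) (s : ℝ) (hs : ∀ t ∈ Icc 0 τ, ∀ a, ‖s • η t a‖ ≤ r / 4) :
    Adm m τ u σ b ω ϖ (fun t a => y t a + s • η t a) (fun t a => v t a + s • η1 t a) := by
  refine ⟨(action_add hm hr h.path hτ hη hV.com hy s hs).1, ?_, ?_⟩
  · intro a
    rw [h.per a, hV.per a, Complex.real_smul, Complex.real_smul]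
    ring
  · intro hb t ht a
    rw [h.rev hb t ht a, hV.rev hb t ht a, Complex.real_smul, Complex.real_smul, map_add, map_mul,
      Complex.conj_ofReal]
    ring

theorem MinB_test_bound {η η1 η2 : ℝ → Fin 3 → ℂ} (hη : Test η η1 η2) (τ : ℝ) :
    ∃ M > 0, ∀ t ∈ Icc 0 τ, ∀ a, ‖η t a‖ ≤ M := by
  have hc : Continuous η := by
    rw [continuous_iff_continuousAt]
    intro t
    exact (hη.d1 t).continuousAt
  obtain ⟨M, hM⟩ := (isCompact_Icc (a := (0 : ℝ)) (b := τ)).exists_bound_of_continuousOn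
    hc.continuousOn
  refine ⟨max M 1, lt_max_of_lt_right one_pos, fun t ht a => ?_⟩
  exact (norm_le_pi_norm (η t) a).trans ((hM t ht).trans (le_max_left _ _))

/-- The compactness part of the direct method: a sequence of admissible paths, whose actions
converge to a lower bound `L` of the action near them, has a subsequence converging uniformly
to a solution of the same type. -/
theorem MinB_core {m : Fin 3 → ℝ} (hm : ∀ a, 0 < m a) {τ : ℝ} (hτ : 0 < τ)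
    {σ ϖ : Equiv.Perm (Fin 3)} (hσ : ∀ a, m (σ a) = m a) {b : Prop} (hϖ : b → ∀ a, m (ϖ a) = m a)
    (h2 : b → ∀ a, ϖ (ϖ a) = a) (h3 : b → ∀ a, σ (ϖ (σ a)) = ϖ a)
    {x : ℝ → (Fin 3 → ℂ) × (Fin 3 → ℂ)} (hx : IsSolution m univ x) {r R : ℝ} (hr : 0 < r)
    (hxr : ∀ t, Sep r (x t).1) (hxR : ∀ t a, ‖(x t).1 a‖ ≤ R) {K : Set (ℝ × ℝ)}
    (hK : IsCompact K) {u ω : ℂ} (hu : ‖u‖ = 1) (hω : ‖ω‖ = 1) {ε1 ε2 L : ℝ} (h12 : ε1 < ε2)
    (hε2 : ε2 ≤ r / 8) {y v : ℕ → ℝ → Fin 3 → ℂ} (hA : ∀ k, Adm m τ u σ b ω ϖ (y k) (v k))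
    (hN : ∀ k, Near τ x K ε1 (y k)) (hL : Tendsto (fun k => action m τ (y k) (v k)) atTop (𝓝 L))
    (hmin : ∀ y v, Adm m τ u σ b ω ϖ y v → Near τ x K ε2 y → L ≤ action m τ y v) :
    ∃ (φ : ℕ → ℕ) (w w1 : ℝ → Fin 3 → ℂ), StrictMono φ ∧ Unif τ (fun k => y (φ k)) w ∧
      Adm m τ u σ b ω ϖ w w1 ∧ Sol m τ w w1 ∧ (∀ a, w1 τ a = u * w1 0 (σ a)) ∧
      Near τ x K ε1 w ∧ action m τ w w1 ≤ L := by
  have hr2 : 0 < r / 2 := by linarith
  have hε1 : ε1 ≤ r / 4 := by linarith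
  -- separation and bounds
  have hsep : ∀ k, ∀ t ∈ Icc 0 τ, Sep (r / 2) (y k t) := fun k =>
    MinB_near_sep hxr (hN k) hε1
  have hbdd : ∀ k, ∀ t ∈ Icc 0 τ, ∀ a, ‖y k t a‖ ≤ R + ε1 := fun k => MinB_near_bdd hxR (hN k)
  -- bounded actions
  obtain ⟨B0, hB0⟩ := hL.bddAbove_range
  have hB1 : ∀ k, action m τ (y k) (v k) ≤ B0 := fun k => hB0 (mem_range_self k)
  have hE : ∀ k a, ∫ t in (0 : ℝ)..τ, ‖v k t a‖ ^ 2 ≤ ∑ c, 2 * B0 / m c := fun k a =>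
    MinB_energy hm hr2 (hA k).path hτ (hsep k) (hB1 k) a
  have hH : ∀ k, ∀ s ∈ Icc 0 τ, ∀ t ∈ Icc 0 τ, ∀ a,
      ‖y k t a - y k s a‖ ^ 2 ≤ |t - s| * ∑ c, 2 * B0 / m c := by
    intro k s hs t ht a
    refine (path_holder (hA k).path hτ hs ht a).trans ?_
    exact mul_le_mul_of_nonneg_left (hE k a) (abs_nonneg _)
  obtain ⟨φ, hφ, w, hw, hU⟩ := exists_limit hτ y _ _ hH hbdd
  obtain ⟨hcom, hper, hrev⟩ := adm_limit hτ hU (fun k => hA (φ k))
  have hNw : Near τ x K ε1 w := by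
    refine near_limit (MinB_sol_continuous hx) hK hU ?_
    intro δ hδ
    exact Frequently.of_forall fun k => MinB_near_mono (hN (φ k)) (by linarith)
  have hwsep : ∀ t ∈ Icc 0 τ, Sep (r / 2) (w t) := MinB_near_sep hxr hNw hε1
  have hnc : ∀ t ∈ Icc 0 τ, ∀ a b, a ≠ b → w t a ≠ w t b := by
    intro t ht a b hab he
    have := hwsep t ht a b hab
    rw [he, sub_self, norm_zero] at this
    linarith
  have hLφ : Tendsto (fun k => action m τ (y (φ k)) (v (φ k))) atTop (𝓝 L) :=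
    hL.comp hφ.tendsto_atTop
  -- weak equation for admissible variations
  have hweak0 : ∀ η η1 η2, Test η η1 η2 → Var m τ u σ b ω ϖ η → weak m τ w η η1 η2 = 0 := by
    intro η η1 η2 hη hV
    refine weak_of_limit hm hτ (fun k => y (φ k)) (fun k => v (φ k)) w (fun k => (hA (φ k)).path)
      hw hU (r / 2) hr2 hwsep (fun k => hsep (φ k)) L hLφ η η1 η2 hη hV.com ?_
    obtain ⟨M, hM0, hM⟩ := MinB_test_bound hη τ
    refine ⟨min ((ε2 - ε1) / M) (r / 8 / M), ?_, ?_⟩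
    · apply lt_min
      · exact div_pos (by linarith) hM0
      · exact div_pos (by linarith) hM0
    intro s hs κ hκ
    have hs1 : |s| * M ≤ ε2 - ε1 := by
      rw [← le_div_iff₀ hM0]
      exact (hs.le.trans (min_le_left _ _))
    have hs2 : |s| * M ≤ r / 8 := by
      rw [← le_div_iff₀ hM0]
      exact (hs.le.trans (min_le_right _ _))
    have hsη : ∀ t ∈ Icc 0 τ, ∀ a, ‖s • η t a‖ ≤ |s| * M := by
      intro t ht a
      rw [norm_smul, Real.norm_eq_abs]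
      exact mul_le_mul_of_nonneg_left (hM t ht a) (abs_nonneg s)
    refine Eventually.of_forall fun k => ?_
    have hadm := MinB_adm_add hm hr2 hτ (hA (φ k)) hη hV (hsep (φ k)) s
      (fun t ht a => (hsη t ht a).trans (by linarith))
    have hnear : Near τ x K ε2 (fun t a => y (φ k) t a + s • η t a) := by
      refine MinB_near_mono (MinB_near_add (hN (φ k)) (δ := |s| * M) ?_) (by linarith)
      intro t ht a
      rw [add_sub_cancel_left]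
      exact hsη t ht a
    have := hmin _ _ hadm hnear
    linarith
  -- weak equation for all variations
  have hweak1 : ∀ η η1 η2, Test η η1 η2 → (∀ t, ∑ a, m a • η t a = 0) →
      (∀ a, η τ a = u * η 0 (σ a)) → weak m τ w η η1 η2 = 0 := by
    intro η η1 η2 hη hc hp
    by_cases hb : b
    · refine symmetrize hτ hu hω hσ (hϖ hb) (h2 hb) (h3 hb) hw hnc (hrev hb) ?_ η η1 η2 hη hc hp
      intro ζ ζ1 ζ2 hζ hV
      exact hweak0 ζ ζ1 ζ2 hζ ⟨hV.com, hV.per, fun _ => hV.rev trivial⟩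
    · exact hweak0 η η1 η2 hη ⟨hc, hp, fun h => absurd h hb⟩
  obtain ⟨w1, hSol⟩ := weak_regular hm hτ hw hnc hcom (by
    intro η η1 η2 hη hc h0 h0' _ _
    refine hweak1 η η1 η2 hη hc ?_
    intro a
    rw [h0, h0']
    simp)
  have hseam := seam hm hτ hu hσ hSol hcom hnc hweak1
  have hpath : IsPath m τ w w1 := sol_path hτ hSol hcom
  refine ⟨φ, w, w1, hφ, hU, ⟨hpath, hper, hrev⟩, hSol, hseam, hNw, ?_⟩
  exact action_le_of_limit hm hτ (fun k => y (φ k)) (fun k => v (φ k)) w w1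
    (fun k => (hA (φ k)).path) hSol hU (r / 2) hr2 hwsep (fun k => hsep (φ k)) L hLφ

theorem dichotomy {m : Fin 3 → ℝ} (hm : ∀ a, 0 < m a) {τ : ℝ} (hτ : 0 < τ)
    {σ ϖ : Equiv.Perm (Fin 3)} (hσ : ∀ a, m (σ a) = m a) {b : Prop} (hϖ : b → ∀ a, m (ϖ a) = m a)
    (h2 : b → ∀ a, ϖ (ϖ a) = a) (h3 : b → ∀ a, σ (ϖ (σ a)) = ϖ a)
    {x : ℝ → (Fin 3 → ℂ) × (Fin 3 → ℂ)} (hx : IsSolution m univ x) {r R : ℝ} (hr : 0 < r)
    (hxr : ∀ t, Sep r (x t).1) (hxR : ∀ t a, ‖(x t).1 a‖ ≤ R) {K : Set (ℝ × ℝ)}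
    (hK : IsCompact K) {u ω : ℂ} (hu : ‖u‖ = 1) (hω : ‖ω‖ = 1) {ε κ J : ℝ} (hκ : 0 < κ)
    (hκε : κ ≤ ε) (hε : ε ≤ r / 8)
    (hJ : ∀ y v, Adm m τ u σ b ω ϖ y v → Near τ x K ε y → J ≤ action m τ y v)
    (hinf : ∀ δ > 0, ∃ y v, Adm m τ u σ b ω ϖ y v ∧ Near τ x K ε y ∧ action m τ y v ≤ J + δ)
    (hint : ∀ y v, Adm m τ u σ b ω ϖ y v → Near τ x K ε y → action m τ y v ≤ J + κ →
      Near τ x K (ε - κ) y) :
    ∃ w w1, Adm m τ u σ b ω ϖ w w1 ∧ Sol m τ w w1 ∧ (∀ a, w1 τ a = u * w1 0 (σ a)) ∧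
      Near τ x K ε w := by
  have hk : ∀ k : ℕ, 0 < κ / ((k : ℝ) + 1) := fun k => div_pos hκ (by positivity)
  choose y v hA hN hact using fun k : ℕ => hinf (κ / ((k : ℝ) + 1)) (hk k)
  have hκk : ∀ k : ℕ, κ / ((k : ℝ) + 1) ≤ κ := by
    intro k
    apply div_le_self hκ.le
    have : (0 : ℝ) ≤ (k : ℝ) := Nat.cast_nonneg k
    linarith
  have hN' : ∀ k, Near τ x K (ε - κ) (y k) := by
    intro k
    refine hint _ _ (hA k) (hN k) ?_
    have := hact k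
    have := hκk k
    linarith
  have hT : Tendsto (fun k : ℕ => J + κ / ((k : ℝ) + 1)) atTop (𝓝 J) := by
    have h1 : Tendsto (fun k : ℕ => κ / ((k : ℝ) + 1)) atTop (𝓝 0) := by
      have := tendsto_one_div_add_atTop_nhds_zero_nat (𝕜 := ℝ)
      have h2 := this.const_mul κ
      simp only [mul_zero] at h2
      refine h2.congr fun k => ?_
      ring
    have := h1.const_add J
    rwa [add_zero] at this
  have hL : Tendsto (fun k => action m τ (y k) (v k)) atTop (𝓝 J) :=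
    tendsto_of_tendsto_of_tendsto_of_le_of_le tendsto_const_nhds hT
      (fun k => hJ _ _ (hA k) (hN k)) hact
  obtain ⟨φ, w, w1, hφ, hU, hAw, hSol, hseam, hNw, -⟩ :=
    MinB_core hm hτ hσ hϖ h2 h3 hx hr hxr hxR hK hu hω (by linarith : ε - κ < ε) hε hA hN' hL hJ
  exact ⟨w, w1, hAw, hSol, hseam, MinB_near_mono hNw (by linarith)⟩

end Pool.Agent.MP_5027f4_min
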