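import Pool.Agent.Lib_MP_5027f4_min.MinB

open Complex Set Filter Topology MeasureTheory
open scoped Real ComplexConjugate

namespace Pool.Agent.MP_5027f4_min

open Pool.Agent.MP_5027f4_mp

/-- twisting back -/
theorem MinC_untwist {θ : ℝ} (u : ℂ) : exp ((-θ : ℝ) * I) * (exp (θ * I) * u) = u := by
  rw [← mul_assoc, ← Complex.exp_add]
  have : ((-θ : ℝ) : ℂ) * I + (θ : ℂ) * I = 0 := by
    push_cast
    ring
  rw [this, Complex.exp_zero, one_mul]

theorem MinC_norm {θ : ℝ} {u : ℂ} (hu : ‖u‖ = 1) : ‖exp (θ * I) * u‖ = 1 := by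
  rw [norm_mul, MinB_norm_exp, one_mul, hu]

/-- the infimum argument: for each small twist `θ` without solution nearby there is an almost
minimizing path which is not well inside the neighbourhood -/
theorem MinC_bad {m : Fin 3 → ℝ} (hm : ∀ a, 0 < m a) {τ : ℝ} (hτ : 0 < τ)
    {σ ϖ : Equiv.Perm (Fin 3)} (hσ : ∀ a, m (σ a) = m a) {b : Prop} (hϖ : b → ∀ a, m (ϖ a) = m a)
    (h2 : b → ∀ a, ϖ (ϖ a) = a) (h3 : b → ∀ a, σ (ϖ (σ a)) = ϖ a)
    {x : ℝ → (Fin 3 → ℂ) × (Fin 3 → ℂ)} (hx : IsSolution m univ x) {r R : ℝ} (hr : 0 < r)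
    (hxr : ∀ t, Sep r (x t).1) (hxR : ∀ t a, ‖(x t).1 a‖ ≤ R) {K : Set (ℝ × ℝ)}
    (hK : IsCompact K) {u ω : ℂ} (hu : ‖u‖ = 1) (hω : ‖ω‖ = 1) {ε κ A : ℝ} (hκ : 0 < κ)
    (hκε : κ ≤ ε) (hε : ε ≤ r / 8)
    (hex : ∃ y v, Adm m τ u σ b ω ϖ y v ∧ Near τ x K ε y ∧ action m τ y v ≤ A)
    (hno : ¬ ∃ w w1, Adm m τ u σ b ω ϖ w w1 ∧ Sol m τ w w1 ∧
      (∀ a, w1 τ a = u * w1 0 (σ a)) ∧ Near τ x K ε w) :
    ∃ y v, Adm m τ u σ b ω ϖ y v ∧ Near τ x K ε y ∧ action m τ y v ≤ A + κ ∧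
      ¬ Near τ x K (ε - κ) y := by
  let S : Set ℝ := {s | ∃ y v, Adm m τ u σ b ω ϖ y v ∧ Near τ x K ε y ∧ action m τ y v = s}
  obtain ⟨y0, v0, hA0, hN0, hact0⟩ := hex
  have hS0 : action m τ y0 v0 ∈ S := ⟨y0, v0, hA0, hN0, rfl⟩
  have hSne : S.Nonempty := ⟨_, hS0⟩
  have hSbdd : BddBelow S := by
    refine ⟨0, ?_⟩
    rintro s ⟨y, v, hA, hN, rfl⟩
    exact MinB_action_nonneg hm (by linarith : 0 < r / 2) hA.path hτ
      (MinB_near_sep hxr hN (by linarith))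
  by_contra hcon
  push Not at hcon
  have hJA : sInf S ≤ A := (csInf_le hSbdd hS0).trans hact0
  apply hno
  refine dichotomy hm hτ hσ hϖ h2 h3 hx hr hxr hxR hK hu hω (J := sInf S) hκ hκε hε ?_ ?_ ?_
  · intro y v hA hN
    exact csInf_le hSbdd ⟨y, v, hA, hN, rfl⟩
  · intro δ hδ
    obtain ⟨s, ⟨y, v, hA, hN, rfl⟩, hs⟩ := exists_lt_of_csInf_lt hSne
      (lt_add_of_pos_right (sInf S) hδ)
    exact ⟨y, v, hA, hN, hs.le⟩
  · intro y v hA hN hact
    exact hcon y v hA hN (by linarith)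

theorem persist {m : Fin 3 → ℝ} (hm : ∀ a, 0 < m a) {τ : ℝ} (hτ : 0 < τ)
    {σ ϖ : Equiv.Perm (Fin 3)} (hσ : ∀ a, m (σ a) = m a) {b : Prop} (hϖ : b → ∀ a, m (ϖ a) = m a)
    (h2 : b → ∀ a, ϖ (ϖ a) = a) (h3 : b → ∀ a, σ (ϖ (σ a)) = ϖ a)
    {x : ℝ → (Fin 3 → ℂ) × (Fin 3 → ℂ)} (hx : IsSolution m univ x) {r R : ℝ} (hr : 0 < r)
    (hxr : ∀ t, Sep r (x t).1) (hxR : ∀ t a, ‖(x t).1 a‖ ≤ R) {K : Set (ℝ × ℝ)}
    (hK : IsCompact K) (h0 : (0, 0) ∈ K) {u ω : ℂ} (hu : ‖u‖ = 1) (hω : ‖ω‖ = 1)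
    (hper : ∀ a, (x τ).1 a = u * (x 0).1 (σ a))
    (hrev : b → ∀ t ∈ Icc 0 τ, ∀ a, (x (τ - t)).1 a = ω * conj ((x t).1 (ϖ a)))
    (hiso : ∃ ρ > 0, ∀ y v, Adm m τ u σ b ω ϖ y v → Near τ x K ρ y →
      action m τ (fun t => (x t).1) (fun t => (x t).2) ≤ action m τ y v ∧
      (action m τ y v = action m τ (fun t => (x t).1) (fun t => (x t).2) → Near τ x K 0 y))
    {ε : ℝ} (hε : 0 < ε) :
    ∃ θ0 > 0, ∀ θ : ℝ, |θ| < θ0 → ∃ w w1,
      Adm m τ (exp (θ * I) * u) σ b (exp (θ * I) * ω) ϖ w w1 ∧ Sol m τ w w1 ∧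
      (∀ a, w1 τ a = exp (θ * I) * u * w1 0 (σ a)) ∧ Near τ x K ε w := by
  obtain ⟨ρ, hρ, hiso⟩ := hiso
  -- a smaller `ε`
  obtain ⟨e, he0, heε, heρ, her⟩ : ∃ e : ℝ, 0 < e ∧ e ≤ ε ∧ 4 * e ≤ ρ ∧ 4 * e ≤ r / 8 := by
    refine ⟨min ε (min (ρ / 4) (r / 32)), ?_, min_le_left _ _, ?_, ?_⟩
    · refine lt_min hε (lt_min (by linarith) (by linarith))
    · have := (min_le_right ε (min (ρ / 4) (r / 32))).trans (min_le_left _ _)
      linarith
    · have := (min_le_right ε (min (ρ / 4) (r / 32))).trans (min_le_right _ _)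
      linarith
  have hR0 : 0 ≤ R := (norm_nonneg _).trans (hxR 0 0)
  have hr2 : 0 < r / 2 := by linarith
  -- the path of `x`
  have hxpath : IsPath m τ (fun t => (x t).1) (fun t => (x t).2) := by
    have h1 := isSolution_sol hx τ 0
    simp only [add_zero] at h1
    exact sol_path hτ h1 fun t _ => (hx t (mem_univ t)).1.2.1
  have hxadm : Adm m τ u σ b ω ϖ (fun t => (x t).1) (fun t => (x t).2) :=
    ⟨hxpath, hper, hrev⟩
  have hxsep : ∀ t ∈ Icc 0 τ, Sep (r / 2) ((fun t => (x t).1) t) := fun t _ =>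
    MinB_sep_mono (hxr t) (by linarith)
  obtain ⟨L, hLdef⟩ : ∃ L, L = action m τ (fun t => (x t).1) (fun t => (x t).2) := ⟨_, rfl⟩
  rw [← hLdef] at hiso
  -- constants
  obtain ⟨C1, hC1, hT1⟩ := twist_action hm hτ (∑ c, 2 * L / m c) R (r / 2) hr2
  obtain ⟨C2, hC2, hT2⟩ := twist_action hm hτ (∑ c, 2 * (L + C1 + 1) / m c) (R + r) (r / 2) hr2
  by_contra hcon
  push Not at hcon
  have hη0 : 0 < min 1 (min (e / (C1 + 1)) (e / (C2 + 1))) := by
    refine lt_min one_pos (lt_min ?_ ?_)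
    · positivity
    · positivity
  obtain ⟨η0, hη0def⟩ : ∃ η0, η0 = min 1 (min (e / (C1 + 1)) (e / (C2 + 1))) := ⟨_, rfl⟩
  rw [← hη0def] at hη0
  have hη1 : η0 ≤ 1 := hη0def ▸ min_le_left _ _
  have hη2 : C1 * η0 ≤ e := by
    have : η0 ≤ e / (C1 + 1) := hη0def ▸ (min_le_right _ _).trans (min_le_left _ _)
    rw [le_div_iff₀ (by positivity)] at this
    nlinarith
  have hη3 : C2 * η0 ≤ e := by
    have : η0 ≤ e / (C2 + 1) := hη0def ▸ (min_le_right _ _).trans (min_le_right _ _)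
    rw [le_div_iff₀ (by positivity)] at this
    nlinarith
  have hθex : ∀ k : ℕ, 0 < η0 / ((k : ℝ) + 1) := fun k => div_pos hη0 (by positivity)
  choose θ hθ hno using fun k : ℕ => hcon (η0 / ((k : ℝ) + 1)) (hθex k)
  have hθη : ∀ k, |θ k| < η0 := by
    intro k
    refine (hθ k).trans_le ?_
    apply div_le_self hη0.le
    have : (0 : ℝ) ≤ (k : ℝ) := Nat.cast_nonneg k
    linarith
  have hθ1 : ∀ k, |θ k| ≤ 1 := fun k => (hθη k).le.trans hη1
  have hC1e : ∀ k, C1 * |θ k| ≤ e := fun k =>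
    (mul_le_mul_of_nonneg_left (hθη k).le hC1.le).trans hη2
  have hC2e : ∀ k, C2 * |θ k| ≤ e := fun k =>
    (mul_le_mul_of_nonneg_left (hθη k).le hC2.le).trans hη3
  -- the numbers `κ k`
  obtain ⟨κ, hκ0, hκ1, hκ2, hκlim⟩ : ∃ κ : ℕ → ℝ, (∀ k, 0 < κ k) ∧ (∀ k, κ k ≤ e / 2) ∧
      (∀ k, κ k ≤ 1) ∧ Tendsto κ atTop (𝓝 0) := by
    have h1 := tendsto_one_div_add_atTop_nhds_zero_nat (𝕜 := ℝ)
    refine ⟨fun k => min (e / 2) 1 * (1 / ((k : ℝ) + 1)), ?_, ?_, ?_, ?_⟩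
    · intro k
      have : 0 < min (e / 2) 1 := lt_min (by linarith) one_pos
      positivity
    · intro k
      have h3 : 0 < min (e / 2) 1 := lt_min (by linarith) one_pos
      have h4 : 1 / ((k : ℝ) + 1) ≤ 1 := by
        rw [div_le_one (by positivity)]
        have : (0 : ℝ) ≤ (k : ℝ) := Nat.cast_nonneg k
        linarith
      calc min (e / 2) 1 * (1 / ((k : ℝ) + 1)) ≤ min (e / 2) 1 * 1 :=
            mul_le_mul_of_nonneg_left h4 h3.le
        _ ≤ e / 2 := by rw [mul_one]; exact min_le_left _ _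
    · intro k
      have h3 : 0 < min (e / 2) 1 := lt_min (by linarith) one_pos
      have h4 : 1 / ((k : ℝ) + 1) ≤ 1 := by
        rw [div_le_one (by positivity)]
        have : (0 : ℝ) ≤ (k : ℝ) := Nat.cast_nonneg k
        linarith
      calc min (e / 2) 1 * (1 / ((k : ℝ) + 1)) ≤ min (e / 2) 1 * 1 :=
            mul_le_mul_of_nonneg_left h4 h3.le
        _ ≤ 1 := by rw [mul_one]; exact min_le_right _ _
    · have := h1.const_mul (min (e / 2) 1)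
      rwa [mul_zero] at this
  -- bad paths
  have hbad : ∀ k, ∃ y v, Adm m τ (exp (θ k * I) * u) σ b (exp (θ k * I) * ω) ϖ y v ∧
      Near τ x K e y ∧ action m τ y v ≤ L + C1 * |θ k| + κ k ∧ ¬ Near τ x K (e - κ k) y := by
    intro k
    refine MinC_bad hm hτ hσ hϖ h2 h3 hx hr hxr hxR hK (MinC_norm hu) (MinC_norm hω) (hκ0 k)
      ((hκ1 k).trans (by linarith)) (by linarith) ?_ ?_
    · obtain ⟨g1, g2, g3, g4⟩ := hT1 (fun t => (x t).1) (fun t => (x t).2) (θ k) hxpath (hθ1 k)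
        hxsep (fun t _ a => hxR t a)
        (MinB_energy hm hr2 hxpath hτ hxsep hLdef.ge)
      refine ⟨_, _, twist_adm hτ (θ k) hxadm g1, ⟨(0, 0), h0, ?_⟩, ?_⟩
      · intro t ht a
        have e1 : cp x (0, 0) t a = (x t).1 a := by
          simp [cp]
        rw [e1]
        exact (g4 t ht a).trans (hC1e k)
      · rw [← hLdef] at g2
        have := (abs_le.1 g2).2
        linarith
    · rintro ⟨w, w1, hw1, hw2, hw3, hw4⟩
      exact hno k w w1 hw1 hw2 hw3 (MinB_near_mono hw4 heε)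
  choose y v hyA hyN hyact hyno using hbad
  -- twist back
  have hysep : ∀ k, ∀ t ∈ Icc 0 τ, Sep (r / 2) (y k t) := fun k =>
    MinB_near_sep hxr (hyN k) (by linarith)
  have hybdd : ∀ k, ∀ t ∈ Icc 0 τ, ∀ a, ‖y k t a‖ ≤ R + r := fun k t ht a =>
    (MinB_near_bdd hxR (hyN k) t ht a).trans (by linarith)
  have hyact' : ∀ k, action m τ (y k) (v k) ≤ L + C1 + 1 := by
    intro k
    have h4 := hyact k
    have h5 := hκ2 k
    have h6 : C1 * |θ k| ≤ C1 * 1 := mul_le_mul_of_nonneg_left (hθ1 k) hC1.le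
    linarith
  have hz : ∀ k, IsPath m τ (tw τ (-θ k) (y k)) (twv τ (-θ k) (y k) (v k)) ∧
      |action m τ (tw τ (-θ k) (y k)) (twv τ (-θ k) (y k) (v k)) - action m τ (y k) (v k)| ≤
        C2 * |θ k| ∧
      (∀ t ∈ Icc 0 τ, Sep (r / 2) (tw τ (-θ k) (y k) t)) ∧
      ∀ t ∈ Icc 0 τ, ∀ a, ‖tw τ (-θ k) (y k) t a - y k t a‖ ≤ C2 * |θ k| := by
    intro k
    have := hT2 (y k) (v k) (-θ k) (hyA k).path (by rw [abs_neg]; exact hθ1 k) (hysep k)
      (hybdd k) (MinB_energy hm hr2 (hyA k).path hτ (hysep k) (hyact' k))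
    rwa [abs_neg] at this
  have hzA : ∀ k, Adm m τ u σ b ω ϖ (tw τ (-θ k) (y k)) (twv τ (-θ k) (y k) (v k)) := by
    intro k
    have := twist_adm hτ (-θ k) (hyA k) (hz k).1
    rwa [MinC_untwist, MinC_untwist] at this
  have hzN : ∀ k, Near τ x K (2 * e) (tw τ (-θ k) (y k)) := by
    intro k
    refine MinB_near_mono (MinB_near_add (hyN k) (hz k).2.2.2) ?_
    have := hC2e k
    linarith
  have hLz : ∀ k, L ≤ action m τ (tw τ (-θ k) (y k)) (twv τ (-θ k) (y k) (v k)) := fun k =>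
    (hiso _ _ (hzA k) (MinB_near_mono (hzN k) (by linarith))).1
  have hθlim : Tendsto (fun k => |θ k|) atTop (𝓝 0) := by
    have h1 : Tendsto (fun k : ℕ => η0 / ((k : ℝ) + 1)) atTop (𝓝 0) := by
      have := (tendsto_one_div_add_atTop_nhds_zero_nat (𝕜 := ℝ)).const_mul η0
      rw [mul_zero] at this
      refine this.congr fun k => ?_
      ring
    exact tendsto_of_tendsto_of_tendsto_of_le_of_le tendsto_const_nhds h1
      (fun k => abs_nonneg _) (fun k => (hθ k).le)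
  have hzlim : Tendsto (fun k => action m τ (tw τ (-θ k) (y k)) (twv τ (-θ k) (y k) (v k)))
      atTop (𝓝 L) := by
    have h1 : Tendsto (fun k => L + (C1 * |θ k| + κ k + C2 * |θ k|)) atTop (𝓝 L) := by
      have := (((hθlim.const_mul C1).add hκlim).add (hθlim.const_mul C2)).const_add L
      simpa using this
    refine tendsto_of_tendsto_of_tendsto_of_le_of_le tendsto_const_nhds h1 hLz ?_
    intro k
    have h4 := (abs_le.1 (hz k).2.1).2
    have h5 := hyact k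
    simp only
    linarith
  obtain ⟨φ, w, w1, hφ, hU, hAw, hSol, -, hNw, hactw⟩ :=
    MinB_core hm hτ hσ hϖ h2 h3 hx hr hxr hxR hK hu hω (by linarith : 2 * e < 4 * e) her hzA hzN
      hzlim (fun y v hA hN => (hiso y v hA (MinB_near_mono hN heρ)).1)
  have hiw := hiso w w1 hAw (MinB_near_mono hNw (by linarith))
  have hN0 : Near τ x K 0 w := hiw.2 (le_antisymm hactw hiw.1)
  -- `y (φ k)` is close to a copy of `x`
  have hθφ : Tendsto (fun k => |θ (φ k)|) atTop (𝓝 0) := hθlim.comp hφ.tendsto_atTop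
  have hE1 : ∀ᶠ k in atTop, C2 * |θ (φ k)| ≤ e / 4 := by
    have := hθφ.const_mul C2
    rw [mul_zero] at this
    exact (this.eventually_lt_const (by linarith : (0 : ℝ) < e / 4)).mono fun k hk => hk.le
  have hE2 := hU (e / 4) (by linarith)
  obtain ⟨k, hk1, hk2⟩ := (hE1.and hE2).exists
  apply hyno (φ k)
  have h4 : Near τ x K (0 + e / 4) (tw τ (-θ (φ k)) (y (φ k))) := MinB_near_add hN0 hk2
  have h5 : Near τ x K (0 + e / 4 + C2 * |θ (φ k)|) (y (φ k)) := by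
    refine MinB_near_add h4 ?_
    intro t ht a
    rw [norm_sub_rev]
    exact (hz (φ k)).2.2.2 t ht a
  refine MinB_near_mono h5 ?_
  have := hκ1 (φ k)
  linarith

end Pool.Agent.MP_5027f4_min
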