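import Pool.Agent.Lib_MP_5027f4_min.Defs

/-!
# The second order du Bois-Reymond lemma (piece RegA)
-/

open Complex Set Filter Topology MeasureTheory
open scoped Real ComplexConjugate

namespace Pool.Agent.MP_5027f4_min

open Pool.Agent.MP_5027f4_mp

/-- `ip c` as a continuous linear map. -/
noncomputable def RegA_L (c : ℂ) : ℂ →L[ℝ] ℝ := c.re • Complex.reCLM + c.im • Complex.imCLM

theorem RegA_L_apply (c z : ℂ) : RegA_L c z = ip c z := by
  simp [RegA_L, ip]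

theorem RegA_ip_integral (c : ℂ) (f : ℝ → ℂ) (a b : ℝ) (hf : IntervalIntegrable f volume a b) :
    ∫ t in a..b, ip c (f t) = ip c (∫ t in a..b, f t) := by
  rw [← RegA_L_apply, ← ContinuousLinearMap.intervalIntegral_comp_comm _ hf]
  simp only [RegA_L_apply]

theorem RegA_ip_add (a b c : ℂ) : ip (a + b) c = ip a c + ip b c := by
  unfold ip; simp; ring

theorem RegA_ip_sub (a b c : ℂ) : ip (a - b) c = ip a c - ip b c := by
  unfold ip; simp; ring

theorem RegA_ip_ofReal_mul (s : ℝ) (a b : ℂ) : ip (s * a) b = ip a (s * b) := by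
  unfold ip; simp; ring

theorem RegA_ip_cont {f g : ℝ → ℂ} {s : Set ℝ} (hf : ContinuousOn f s) (hg : ContinuousOn g s) :
    ContinuousOn (fun t => ip (f t) (g t)) s := by
  unfold ip
  exact ((Complex.continuous_re.comp_continuousOn hf).mul
    (Complex.continuous_re.comp_continuousOn hg)).add
    ((Complex.continuous_im.comp_continuousOn hf).mul
    (Complex.continuous_im.comp_continuousOn hg))

/-- Continuous extension of a function on `[0, τ]`. -/
noncomputable def RegA_ext (τ : ℝ) (g : ℝ → ℂ) (t : ℝ) : ℂ := g (max 0 (min t τ))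

theorem RegA_ext_cont {τ : ℝ} (hτ : 0 < τ) {g : ℝ → ℂ} (hg : ContinuousOn g (Icc 0 τ)) :
    Continuous (RegA_ext τ g) := by
  apply ContinuousOn.comp_continuous hg (by fun_prop)
  intro t
  exact ⟨le_max_left _ _, max_le hτ.le (min_le_right _ _)⟩

theorem RegA_ext_eq {τ : ℝ} {g : ℝ → ℂ} {t : ℝ} (ht : t ∈ Icc 0 τ) : RegA_ext τ g t = g t := by
  unfold RegA_ext
  rw [min_eq_left ht.2, max_eq_right ht.1]

theorem bois_reymond {τ : ℝ} (hτ : 0 < τ) (g : ℝ → ℂ) (hg : ContinuousOn g (Icc 0 τ))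
    (h : ∀ ζ ζ1 ζ2 : ℝ → ℂ, (∀ t, HasDerivAt ζ (ζ1 t) t) → (∀ t, HasDerivAt ζ1 (ζ2 t) t) →
      Continuous ζ2 → ζ 0 = 0 → ζ τ = 0 → ζ1 0 = 0 → ζ1 τ = 0 →
      ∫ t in (0 : ℝ)..τ, ip (g t) (ζ2 t) = 0) :
    ∃ c0 c1 : ℂ, ∀ t ∈ Icc 0 τ, g t = c0 + t * c1 := by
  set G := RegA_ext τ g with hG
  have hGc : Continuous G := RegA_ext_cont hτ hg
  set A : ℂ := ∫ t in (0 : ℝ)..τ, G t with hA
  set B : ℂ := ∫ t in (0 : ℝ)..τ, (t : ℂ) * G t with hB
  set c0 : ℂ := 4 * A / τ - 6 * B / τ ^ 2 with hc0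
  set c1 : ℂ := 12 * B / τ ^ 3 - 6 * A / τ ^ 2 with hc1
  have hτ' : (τ : ℂ) ≠ 0 := by exact_mod_cast hτ.ne'
  refine ⟨c0, c1, ?_⟩
  set ζ2 : ℝ → ℂ := fun t => G t - (c0 + t * c1) with hζ2
  have hζ2c : Continuous ζ2 := by
    rw [hζ2]; fun_prop
  set ζ1 : ℝ → ℂ := fun t => ∫ s in (0 : ℝ)..t, ζ2 s with hζ1
  have hζ1d : ∀ t, HasDerivAt ζ1 (ζ2 t) t := fun t =>
    intervalIntegral.integral_hasDerivAt_right (hζ2c.intervalIntegrable _ _)
      (hζ2c.stronglyMeasurableAtFilter _ _) hζ2c.continuousAt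
  have hζ1c : Continuous ζ1 := continuous_iff_continuousAt.2 fun t => (hζ1d t).continuousAt
  set ζ : ℝ → ℂ := fun t => ∫ s in (0 : ℝ)..t, ζ1 s with hζ
  have hζd : ∀ t, HasDerivAt ζ (ζ1 t) t := fun t =>
    intervalIntegral.integral_hasDerivAt_right (hζ1c.intervalIntegrable _ _)
      (hζ1c.stronglyMeasurableAtFilter _ _) hζ1c.continuousAt
  -- integrals of the affine function
  have i1 : ∫ t in (0 : ℝ)..τ, (c0 + (t : ℂ) * c1) = τ * c0 + τ ^ 2 / 2 * c1 := by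
    have hd : ∀ t ∈ uIcc 0 τ, HasDerivAt (fun t : ℝ => (t : ℂ) * c0 + (t : ℂ) ^ 2 / 2 * c1)
        (c0 + (t : ℂ) * c1) t := by
      intro t _
      have h1 : HasDerivAt (fun t : ℝ => (t : ℂ)) 1 t := Complex.ofRealCLM.hasDerivAt
      have h2 := (h1.mul_const c0).add (((h1.pow 2).div_const 2).mul_const c1)
      refine HasDerivAt.congr_deriv (f' := 1 * c0 + ((2 : ℕ) : ℂ) * (t : ℂ) ^ (2 - 1) * 1 / 2 * c1)
        h2 ?_
      push_cast
      ring
    rw [intervalIntegral.integral_eq_sub_of_hasDerivAt hd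
      ((by fun_prop : Continuous fun t : ℝ => c0 + (t : ℂ) * c1).intervalIntegrable _ _)]
    simp
  have i2 : ∫ t in (0 : ℝ)..τ, (t : ℂ) * (c0 + (t : ℂ) * c1) =
      τ ^ 2 / 2 * c0 + τ ^ 3 / 3 * c1 := by
    have hd : ∀ t ∈ uIcc 0 τ, HasDerivAt (fun t : ℝ => (t : ℂ) ^ 2 / 2 * c0 +
        (t : ℂ) ^ 3 / 3 * c1) ((t : ℂ) * (c0 + (t : ℂ) * c1)) t := by
      intro t _
      have h1 : HasDerivAt (fun t : ℝ => (t : ℂ)) 1 t := Complex.ofRealCLM.hasDerivAt
      have h2 := (((h1.pow 2).div_const 2).mul_const c0).add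
        (((h1.pow 3).div_const 3).mul_const c1)
      refine HasDerivAt.congr_deriv (f' := ((2 : ℕ) : ℂ) * (t : ℂ) ^ (2 - 1) * 1 / 2 * c0 +
        ((3 : ℕ) : ℂ) * (t : ℂ) ^ (3 - 1) * 1 / 3 * c1) h2 ?_
      push_cast
      ring
    rw [intervalIntegral.integral_eq_sub_of_hasDerivAt hd
      ((by fun_prop : Continuous fun t : ℝ => (t : ℂ) * (c0 + (t : ℂ) * c1)).intervalIntegrable
        _ _)]
    simp
  have m1 : ∫ t in (0 : ℝ)..τ, ζ2 t = 0 := by
    rw [hζ2, intervalIntegral.integral_sub (hGc.intervalIntegrable _ _)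
      ((by fun_prop : Continuous fun t : ℝ => c0 + (t : ℂ) * c1).intervalIntegrable _ _), i1,
      ← hA, hc0, hc1]
    field_simp
    ring
  have m2 : ∫ t in (0 : ℝ)..τ, (t : ℂ) * ζ2 t = 0 := by
    have e : (fun t : ℝ => (t : ℂ) * ζ2 t) =
        fun t : ℝ => (t : ℂ) * G t - (t : ℂ) * (c0 + (t : ℂ) * c1) := by
      funext t; rw [hζ2]; ring
    rw [e, intervalIntegral.integral_sub
      ((by fun_prop : Continuous fun t : ℝ => (t : ℂ) * G t).intervalIntegrable _ _)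
      ((by fun_prop : Continuous fun t : ℝ => (t : ℂ) * (c0 + (t : ℂ) * c1)).intervalIntegrable
        _ _), i2, ← hB, hc0, hc1]
    field_simp
    ring
  have hζ10 : ζ1 0 = 0 := by rw [hζ1]; simp
  have hζ0 : ζ 0 = 0 := by rw [hζ]; simp
  have hζ1τ : ζ1 τ = 0 := m1
  have hζτ : ζ τ = 0 := by
    have hp := intervalIntegral.integral_mul_deriv_eq_deriv_mul (a := 0) (b := τ)
      (u := fun t : ℝ => (t : ℂ)) (u' := fun _ => 1) (v := ζ1) (v' := ζ2)
      (fun t _ => Complex.ofRealCLM.hasDerivAt) (fun t _ => hζ1d t)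
      (continuous_const.intervalIntegrable _ _) (hζ2c.intervalIntegrable _ _)
    rw [m2, hζ1τ, hζ10] at hp
    simp only [one_mul, mul_zero, sub_zero, zero_sub] at hp
    have : ζ τ = ∫ t in (0 : ℝ)..τ, ζ1 t := rfl
    rw [this]
    exact (neg_eq_zero.1 hp.symm)
  have hz := h ζ ζ1 ζ2 hζd hζ1d hζ2c hζ0 hζτ hζ10 hζ1τ
  -- the integral of `|ζ2|²`
  have hsq : ∫ t in (0 : ℝ)..τ, ip (ζ2 t) (ζ2 t) = 0 := by
    have e : ∫ t in (0 : ℝ)..τ, ip (ζ2 t) (ζ2 t) =
        ∫ t in (0 : ℝ)..τ, (ip (g t) (ζ2 t) - (ip c0 (ζ2 t) + ip c1 ((t : ℂ) * ζ2 t))) := by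
      apply intervalIntegral.integral_congr
      intro t ht
      rw [uIcc_of_le hτ.le] at ht
      have h1 : ζ2 t = g t - (c0 + t * c1) := by rw [hζ2, hG]; simp only [RegA_ext_eq ht]
      show ip (ζ2 t) (ζ2 t) = ip (g t) (ζ2 t) - (ip c0 (ζ2 t) + ip c1 ((t : ℂ) * ζ2 t))
      nth_rewrite 1 [h1]
      rw [RegA_ip_sub, RegA_ip_add, RegA_ip_ofReal_mul]
    have c2 : Continuous (fun t => ip c0 (ζ2 t)) := by
      rw [← continuousOn_univ]
      exact RegA_ip_cont continuousOn_const hζ2c.continuousOn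
    have c3 : Continuous (fun t : ℝ => ip c1 ((t : ℂ) * ζ2 t)) := by
      rw [← continuousOn_univ]
      exact RegA_ip_cont continuousOn_const (by fun_prop)
    have c1' : IntervalIntegrable (fun t => ip (g t) (ζ2 t)) volume 0 τ := by
      apply ContinuousOn.intervalIntegrable
      rw [uIcc_of_le hτ.le]
      exact RegA_ip_cont hg hζ2c.continuousOn
    rw [e, intervalIntegral.integral_sub c1'
      ((c2.intervalIntegrable _ _).add (c3.intervalIntegrable _ _)), hz,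
      intervalIntegral.integral_add (c2.intervalIntegrable _ _) (c3.intervalIntegrable _ _),
      RegA_ip_integral c0 ζ2 0 τ (hζ2c.intervalIntegrable _ _),
      RegA_ip_integral c1 (fun t : ℝ => (t : ℂ) * ζ2 t) 0 τ
        ((by fun_prop : Continuous fun t : ℝ => (t : ℂ) * ζ2 t).intervalIntegrable _ _), m1, m2]
    simp [ip]
  intro t ht
  by_contra hne
  have hpos : 0 < ∫ t in (0 : ℝ)..τ, ip (ζ2 t) (ζ2 t) := by
    apply intervalIntegral.integral_pos hτ
    · exact RegA_ip_cont hζ2c.continuousOn hζ2c.continuousOn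
    · intro s _
      unfold ip
      nlinarith [mul_self_nonneg (ζ2 s).re, mul_self_nonneg (ζ2 s).im]
    · refine ⟨t, ht, ?_⟩
      have h1 : ζ2 t ≠ 0 := by
        rw [hζ2, hG]
        simp only [RegA_ext_eq ht]
        rwa [sub_ne_zero]
      have h2 : ip (ζ2 t) (ζ2 t) = Complex.normSq (ζ2 t) := by
        rw [Complex.normSq_apply]; rfl
      rw [h2]
      exact Complex.normSq_pos.2 h1
  rw [hsq] at hpos
  exact lt_irrefl _ hpos

end Pool.Agent.MP_5027f4_min
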